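import Pool.Agent.Lib_helper44.ACQ.Gl

/-!
# General position: making all off-diagonal entries generic by elementary row operations
-/

set_option autoImplicit false

namespace Pool.Agent.ACQ

open Function Subgroup Matrix

universe w

variable {d : ℕ} {R : Type w} [CommRing R]

/-- primes which contain the entries at the places `S`, but not the diagonal entries at the places
`D`, have height at least `s` (outside `V(J)` and inside `V(p)`) -/
def HtProp (p J : Ideal R) (g : Matrix (Fin d) (Fin d) R) (S : Set (Fin d × Fin d))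
    (D : Set (Fin d)) (s : ℕ) : Prop :=
  ∀ P : Ideal R, P.IsPrime → p ≤ P → ¬ J ≤ P → (∀ q ∈ S, g q.1 q.2 ∈ P) →
    (∀ b ∈ D, g b b ∉ P) → (s : ℕ∞) ≤ P.height

theorem HtProp.mono {p J : Ideal R} {g : Matrix (Fin d) (Fin d) R} {S : Set (Fin d × Fin d)}
    {D D' : Set (Fin d)} {s : ℕ} (h : HtProp p J g S D s) (hD : D ⊆ D') :
    HtProp p J g S D' s :=
  fun P hP hpP hJP hS hD' => h P hP hpP hJP hS fun b hb => hD' b (hD hb)

theorem gen_step [IsNoetherianRing R] (p J : Ideal R) (g : Matrix (Fin d) (Fin d) R)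
    (S : Set (Fin d × Fin d)) (D : Set (Fin d)) (s : ℕ) (i j : Fin d) (hij : i ≠ j) (hj : j ∈ D)
    (hC1 : ∀ b, (i, b) ∈ S → (j, b) ∈ S) (hC2 : i ∈ D → (j, i) ∈ S) (h : HtProp p J g S D s) :
    ∃ c ∈ J, HtProp p J (transvection i j c * g) (insert (i, j) S) D (s + 1) := by
  classical
  set 𝔞 : Ideal R := p ⊔ Ideal.span {a | ∃ q ∈ S, g q.1 q.2 = a} with h𝔞
  have hfin : 𝔞.minimalPrimes.Finite := Ideal.finite_minimalPrimes_of_isNoetherianRing R 𝔞
  let MP : Finset (Ideal R) := hfin.toFinset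
  have hMP : ∀ P, P ∈ MP ↔ P ∈ 𝔞.minimalPrimes := fun P => hfin.mem_toFinset
  let S1 : Finset (Ideal R) := MP.filter fun P => ¬ J ≤ P ∧ g j j ∉ P ∧ g i j ∉ P
  let S2 : Finset (Ideal R) := MP.filter fun P => ¬ J ≤ P ∧ g j j ∉ P ∧ g i j ∈ P
  have hprime : ∀ P ∈ MP, P.IsPrime := fun P hP => ((hMP P).1 hP).1.1
  -- choose `c`
  obtain ⟨c, hc, hc2⟩ : ∃ c ∈ J ⊓ S1.inf id, ∀ P ∈ S2, c ∉ P := by
    by_contra hcon
    push Not at hcon
    have h1 : ((J ⊓ S1.inf id : Ideal R) : Set R) ⊆ ⋃ P ∈ (↑S2 : Set (Ideal R)), ((id P : Ideal R) : Set R) := by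
      intro c hc
      obtain ⟨P, hP, hcP⟩ := hcon c hc
      exact Set.mem_biUnion (Finset.mem_coe.2 hP) hcP
    obtain ⟨P, hP, hle⟩ := (Ideal.subset_union_prime ⊥ ⊥ (fun P hP _ _ =>
      hprime P (Finset.mem_filter.1 hP).1)).1 h1
    obtain ⟨hPM, hPJ, hPj, hPi⟩ := Finset.mem_filter.1 hP
    have hPp : P.IsPrime := hprime P hPM
    rcases (Ideal.IsPrime.inf_le hPp).1 hle with h2 | h2
    · exact hPJ h2
    · obtain ⟨P1, hP1, hP1le⟩ := (Ideal.IsPrime.inf_le' hPp).1 h2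
      obtain ⟨hP1M, -, -, hP1i⟩ := Finset.mem_filter.1 hP1
      have h3 : P ≤ P1 := ((hMP P).1 hPM).2 ((hMP P1).1 hP1M).1 hP1le
      exact hP1i (h3 hPi)
  refine ⟨c, (Submodule.mem_inf.1 hc).1, ?_⟩
  have hcS1 : ∀ P ∈ S1, c ∈ P := fun P hP => (Finset.inf_le hP : S1.inf id ≤ id P) (Submodule.mem_inf.1 hc).2
  intro P hP hpP hJP hS hD
  have := hP
  -- entries
  have hrow : ∀ b, (transvection i j c * g) i b = g i b + c * g j b :=
    fun b => transvection_mul_apply_same i j b c g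
  have hrow' : ∀ a b, a ≠ i → (transvection i j c * g) a b = g a b :=
    fun a b ha => transvection_mul_apply_of_ne i j a b ha c g
  have hSP : ∀ q ∈ S, g q.1 q.2 ∈ P := by
    rintro ⟨a, b⟩ hq
    have h1 := hS (a, b) (Set.mem_insert_of_mem _ hq)
    by_cases ha : a = i
    · subst ha
      simp only at h1 ⊢
      rw [hrow] at h1
      have h2 := hS (j, b) (Set.mem_insert_of_mem _ (hC1 b hq))
      simp only at h2
      rw [hrow' j b hij.symm] at h2
      have := P.sub_mem h1 (Ideal.mul_mem_left P c h2)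
      rwa [add_sub_cancel_right] at this
    · simp only at h1 ⊢
      rwa [hrow' a b ha] at h1
  have hDP : ∀ b ∈ D, g b b ∉ P := by
    intro b hb hbP
    by_cases hbi : b = i
    · subst hbi
      apply hD b hb
      rw [hrow]
      exact P.add_mem hbP (Ideal.mul_mem_left P c (hSP (j, b) (hC2 hb)))
    · apply hD b hb
      rw [hrow' b b hbi]
      exact hbP
  have h𝔞P : 𝔞 ≤ P := by
    refine sup_le hpP (Ideal.span_le.2 ?_)
    rintro _ ⟨q, hq, rfl⟩
    exact hSP q hq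
  obtain ⟨P0, hP0, hP0P⟩ := Ideal.exists_minimalPrimes_le h𝔞P
  have hP0p : P0.IsPrime := hP0.1.1
  have hpP0 : p ≤ P0 := le_sup_left.trans hP0.1.2
  have hJP0 : ¬ J ≤ P0 := fun h => hJP (h.trans hP0P)
  have hSP0 : ∀ q ∈ S, g q.1 q.2 ∈ P0 := fun q hq =>
    hP0.1.2 ((le_sup_right : _ ≤ 𝔞) (Ideal.subset_span ⟨q, hq, rfl⟩))
  have hDP0 : ∀ b ∈ D, g b b ∉ P0 := fun b hb hmem => hDP b hb (hP0P hmem)
  have hht : (s : ℕ∞) ≤ P0.height := h P0 hP0p hpP0 hJP0 hSP0 hDP0
  have hne : P0 ≠ P := by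
    intro heq
    have h1 := hS (i, j) (Set.mem_insert _ _)
    simp only at h1
    rw [hrow, ← heq] at h1
    by_cases hi : g i j ∈ P0
    · have h2 : P0 ∈ S2 := Finset.mem_filter.2 ⟨(hMP P0).2 hP0, hJP0, hDP0 j hj, hi⟩
      have h3 := P0.sub_mem h1 hi
      rw [add_sub_cancel_left] at h3
      rcases hP0p.mem_or_mem h3 with h4 | h4
      · exact hc2 P0 h2 h4
      · exact hDP0 j hj h4
    · have h2 : P0 ∈ S1 := Finset.mem_filter.2 ⟨(hMP P0).2 hP0, hJP0, hDP0 j hj, hi⟩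
      have h3 := P0.sub_mem h1 (Ideal.mul_mem_right (g j j) P0 (hcS1 P0 h2))
      rw [add_sub_cancel_right] at h3
      exact hi h3
  have hlt : P0 < P := lt_of_le_of_ne hP0P hne
  have h5 := Ideal.height_add_one_le_of_lt_of_isPrime hlt
  calc ((s + 1 : ℕ) : ℕ∞) = (s : ℕ∞) + 1 := by push_cast; rfl
    _ ≤ P0.height + 1 := by gcongr
    _ ≤ P.height := h5

theorem gen_col [IsNoetherianRing R] (p J : Ideal R)
    (g : Matrix.GeneralLinearGroup (Fin d) R) (j : Fin d) (s : ℕ)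
    (h : HtProp p J (g : Matrix (Fin d) (Fin d) R) {q | q.1 ≠ q.2 ∧ q.2 < j} {b | b ≤ j} s)
    (T : Finset (Fin d)) (hT : j ∉ T) :
    ∃ k ∈ EJ (d := d) J, HtProp p J ((k * g : Matrix.GeneralLinearGroup (Fin d) R) :
      Matrix (Fin d) (Fin d) R) ({q | q.1 ≠ q.2 ∧ q.2 < j} ∪ {q | q.2 = j ∧ q.1 ∈ T}) {b | b ≤ j}
      (s + T.card) := by
  classical
  induction T using Finset.induction_on with
  | empty =>
    refine ⟨1, one_mem _, ?_⟩
    rw [one_mul, Finset.card_empty, add_zero]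
    have : ({q | q.1 ≠ q.2 ∧ q.2 < j} ∪ {q : Fin d × Fin d | q.2 = j ∧ q.1 ∈ (∅ : Finset (Fin d))}) =
        {q | q.1 ≠ q.2 ∧ q.2 < j} := by
      ext q; simp
    rw [this]
    exact h
  | insert i T hi ih =>
    have hij : i ≠ j := by
      rintro rfl
      exact hT (Finset.mem_insert_self i T)
    obtain ⟨k, hk, hkp⟩ := ih fun h => hT (Finset.mem_insert_of_mem h)
    obtain ⟨c, hc, hcp⟩ := gen_step p J _ _ _ _ i j hij (by
        change j ≤ j
        exact le_rfl) (by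
        rintro b (⟨h1, h2⟩ | ⟨h1, h2⟩)
        · exact Or.inl ⟨(ne_of_lt h2).symm, h2⟩
        · exact absurd h2 hi) (by
        intro h1
        exact Or.inl ⟨hij.symm, lt_of_le_of_ne h1 hij⟩) hkp
    refine ⟨tv i j hij c * k, mul_mem (subset_closure ⟨i, j, hij, c, hc, rfl⟩) hk, ?_⟩
    have e1 : ((tv i j hij c * k * g : Matrix.GeneralLinearGroup (Fin d) R) :
        Matrix (Fin d) (Fin d) R) = transvection i j c *
        ((k * g : Matrix.GeneralLinearGroup (Fin d) R) : Matrix (Fin d) (Fin d) R) := by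
      rw [mul_assoc, Units.val_mul (tv i j hij c), coe_tv]; rfl
    rw [e1, Finset.card_insert_of_notMem hi, ← add_assoc]
    have e2 : ({q | q.1 ≠ q.2 ∧ q.2 < j} ∪ {q : Fin d × Fin d | q.2 = j ∧ q.1 ∈ insert i T}) =
        insert (i, j) ({q | q.1 ≠ q.2 ∧ q.2 < j} ∪ {q : Fin d × Fin d | q.2 = j ∧ q.1 ∈ T}) := by
      ext ⟨a, b⟩
      simp only [Set.mem_union, Set.mem_ofPred_eq, Set.mem_insert_iff, Finset.mem_insert,
        Prod.mk.injEq]
      tauto
    rw [e2]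
    exact hcp

theorem gen_all [IsNoetherianRing R] (p J : Ideal R)
    (g : Matrix.GeneralLinearGroup (Fin d) R) (s₀ : ℕ)
    (h₀ : ∀ P : Ideal R, P.IsPrime → p ≤ P → ¬ J ≤ P → (s₀ : ℕ∞) ≤ P.height)
    (m : ℕ) (hm : m ≤ d) :
    ∃ k ∈ EJ (d := d) J, HtProp p J ((k * g : Matrix.GeneralLinearGroup (Fin d) R) :
      Matrix (Fin d) (Fin d) R) {q | q.1 ≠ q.2 ∧ q.2.val < m} {b | b.val < m}
      (s₀ + m * (d - 1)) := by
  induction m with
  | zero =>
    refine ⟨1, one_mem _, ?_⟩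
    intro P hP hpP hJP _ _
    rw [zero_mul, add_zero]
    exact h₀ P hP hpP hJP
  | succ m ih =>
    obtain ⟨k, hk, hkp⟩ := ih (by omega)
    let j : Fin d := ⟨m, by omega⟩
    have h1 : HtProp p J ((k * g : Matrix.GeneralLinearGroup (Fin d) R) :
        Matrix (Fin d) (Fin d) R) {q | q.1 ≠ q.2 ∧ q.2 < j} {b | b ≤ j} (s₀ + m * (d - 1)) :=
      hkp.mono (by
        intro b hb
        change b ≤ j
        exact le_of_lt (show b < j from hb))
    obtain ⟨k', hk', hkp'⟩ := gen_col p J (k * g) j _ h1 (Finset.univ.erase j)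
      (Finset.notMem_erase j _)
    refine ⟨k' * k, mul_mem hk' hk, ?_⟩
    rw [mul_assoc]
    rw [Finset.card_erase_of_mem (Finset.mem_univ j), Finset.card_univ, Fintype.card_fin] at hkp'
    have e1 : s₀ + m * (d - 1) + (d - 1) = s₀ + (m + 1) * (d - 1) := by ring
    rw [e1] at hkp'
    have e2 : ({q | q.1 ≠ q.2 ∧ q.2 < j} ∪
        {q : Fin d × Fin d | q.2 = j ∧ q.1 ∈ Finset.univ.erase j}) =
        {q | q.1 ≠ q.2 ∧ q.2.val < m + 1} := by
      ext ⟨a, b⟩
      simp only [Set.mem_union, Set.mem_ofPred_eq, Finset.mem_erase, Finset.mem_univ, and_true]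
      constructor
      · rintro (⟨h1, h2⟩ | ⟨h1, h2⟩)
        · exact ⟨h1, Nat.lt_succ_of_lt h2⟩
        · subst h1
          exact ⟨h2, Nat.lt_succ_self m⟩
      · rintro ⟨h1, h2⟩
        rcases Nat.lt_succ_iff_lt_or_eq.1 h2 with h3 | h3
        · exact Or.inl ⟨h1, h3⟩
        · have h4 : b = j := Fin.ext h3
          subst h4
          exact Or.inr ⟨rfl, h1⟩
    have e3 : {b : Fin d | b ≤ j} = {b | b.val < m + 1} := by
      ext b
      exact Nat.lt_succ_iff.symm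
    rw [e2, e3] at hkp'
    exact hkp'

/-- **General position.** If the primes in `V(p)` outside `V(J)` have height at least `s₀`, then
`g` may be multiplied by an element of `EJ J` such that the primes in `V(p)` outside `V(J)` which
contain all off-diagonal entries have height at least `s₀ + d (d - 1)`. -/
theorem generic [IsNoetherianRing R] (p J : Ideal R) (g : Matrix.GeneralLinearGroup (Fin d) R)
    (s₀ : ℕ) (h₀ : ∀ P : Ideal R, P.IsPrime → p ≤ P → ¬ J ≤ P → (s₀ : ℕ∞) ≤ P.height) :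
    ∃ k ∈ EJ (d := d) J, ∀ P : Ideal R, P.IsPrime → p ≤ P → ¬ J ≤ P →
      (∀ r c, r ≠ c → ((k * g : Matrix.GeneralLinearGroup (Fin d) R) :
        Matrix (Fin d) (Fin d) R) r c ∈ P) → ((s₀ + d * (d - 1) : ℕ) : ℕ∞) ≤ P.height := by
  obtain ⟨k, hk, hkp⟩ := gen_all p J g s₀ h₀ d le_rfl
  refine ⟨k, hk, fun P hP hpP hJP hcon => ?_⟩
  have := hP
  refine hkp P hP hpP hJP (fun q hq => hcon q.1 q.2 hq.1) ?_
  intro b _ hb
  apply hP.ne_top
  rw [Ideal.eq_top_iff_one]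
  have h2 : (((k * g)⁻¹ : Matrix.GeneralLinearGroup (Fin d) R) : Matrix (Fin d) (Fin d) R) *
      ((k * g : Matrix.GeneralLinearGroup (Fin d) R) : Matrix (Fin d) (Fin d) R) = 1 := by
    rw [← Units.val_mul, inv_mul_cancel, Units.val_one]
  have h3 := congrFun (congrFun h2 b) b
  rw [Matrix.mul_apply, one_apply_eq] at h3
  rw [← h3]
  refine sum_mem fun l _ => Ideal.mul_mem_left _ _ ?_
  by_cases hl : l = b
  · subst hl; exact hb
  · exact hcon l b hl

theorem height_lt [IsNoetherianRing R] {N : ℕ} (hdim : ringKrullDim R < (N : WithBot ℕ∞))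
    (P : Ideal R) (hP : P.IsPrime) (h : (N : ℕ∞) ≤ P.height) : False := by
  have h2 : (P.height : WithBot ℕ∞) ≤ ringKrullDim R := Ideal.height_le_ringKrullDim_of_isPrime
  have h3 : (((N : ℕ) : ℕ∞) : WithBot ℕ∞) ≤ (P.height : WithBot ℕ∞) :=
    WithBot.coe_le_coe.2 h
  exact absurd (lt_of_le_of_lt (h3.trans h2) hdim) (lt_irrefl _)

end Pool.Agent.ACQ
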