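import Pool.Agent.Lib_helper44.ACQ.Star

/-!
# Matrices congruent to one centralise the elementary group modulo relative elementary matrices
-/

set_option autoImplicit false

namespace Pool.Agent.ACQ

open Function Subgroup Matrix
open scoped commutatorElement

universe w

variable {d : ℕ} {R : Type w} [CommRing R]

theorem rk_zero_right (a : Fin d → R) : rk a 0 (zero_dotProduct a) = 1 := by
  apply Units.ext
  rw [coe_rk, vecMulVec_zero, add_zero, Units.val_one]

theorem rk_zero_left (b : Fin d → R) : rk 0 b (dotProduct_zero b) = 1 := by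
  apply Units.ext
  rw [coe_rk, zero_vecMulVec, add_zero, Units.val_one]

theorem rk_sum_right {ι : Type*} (H : Subgroup (Matrix.GeneralLinearGroup (Fin d) R))
    (v : Fin d → R) (f : ι → Fin d → R) (S : Finset ι)
    (h : ∀ x ∈ S, ∃ h : f x ⬝ᵥ v = 0, rk v (f x) h ∈ H) :
    ∃ h : (∑ x ∈ S, f x) ⬝ᵥ v = 0, rk v (∑ x ∈ S, f x) h ∈ H := by
  classical
  induction S using Finset.induction_on with
  | empty => exact ⟨by simp, by simp only [Finset.sum_empty]; rw [rk_zero_right]; exact one_mem H⟩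
  | insert x S hx ih =>
    obtain ⟨h1, h1'⟩ := h x (Finset.mem_insert_self x S)
    obtain ⟨h2, h2'⟩ := ih fun y hy => h y (Finset.mem_insert_of_mem hy)
    have h3 := rk_mul_left v (f x) (∑ x ∈ S, f x) h1 h2
    have h4 := mul_mem h1' h2'
    rw [h3] at h4
    refine ⟨by rw [Finset.sum_insert hx, add_dotProduct, h1, h2, add_zero], ?_⟩
    rw [rk_congr _ rfl (Finset.sum_insert hx)]
    exact h4

theorem rk_sum_left {ι : Type*} (H : Subgroup (Matrix.GeneralLinearGroup (Fin d) R))
    (z : Fin d → R) (f : ι → Fin d → R) (S : Finset ι)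
    (h : ∀ x ∈ S, ∃ h : z ⬝ᵥ f x = 0, rk (f x) z h ∈ H) :
    ∃ h : z ⬝ᵥ (∑ x ∈ S, f x) = 0, rk (∑ x ∈ S, f x) z h ∈ H := by
  classical
  induction S using Finset.induction_on with
  | empty => exact ⟨by simp, by simp only [Finset.sum_empty]; rw [rk_zero_left]; exact one_mem H⟩
  | insert x S hx ih =>
    obtain ⟨h1, h1'⟩ := h x (Finset.mem_insert_self x S)
    obtain ⟨h2, h2'⟩ := ih fun y hy => h y (Finset.mem_insert_of_mem hy)
    have h3 := rk_mul_right (f x) (∑ x ∈ S, f x) z h1 h2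
    have h4 := mul_mem h1' h2'
    rw [h3] at h4
    refine ⟨by rw [Finset.sum_insert hx, dotProduct_add, h1, h2, add_zero], ?_⟩
    rw [rk_congr _ (Finset.sum_insert hx) rfl]
    exact h4

theorem tv_eq_rk (i j : Fin d) (h : i ≠ j) (a c : R) (h' : Pi.single j c ⬝ᵥ Pi.single i a = 0) :
    rk (Pi.single i a) (Pi.single j c) h' = tv i j h (a * c) := by
  unfold tv
  apply Units.ext
  rw [coe_rk, coe_rk]
  congr 1
  ext x y
  simp only [vecMulVec_apply, Pi.single_apply]
  split_ifs <;> simp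

theorem single_dot_single (i j : Fin d) (h : i ≠ j) (a c : R) :
    Pi.single j c ⬝ᵥ Pi.single i a = 0 := by
  rw [single_dotProduct, Pi.single_eq_of_ne h.symm, mul_zero]

/-- the row `v l e_k - v k e_l` -/
def Zr (v : Fin d → R) (k l : Fin d) : Fin d → R := Pi.single k (v l) - Pi.single l (v k)

theorem Zr_dot (v : Fin d → R) (k l : Fin d) : Zr v k l ⬝ᵥ v = 0 := by
  unfold Zr
  rw [sub_dotProduct, single_dotProduct, single_dotProduct]
  ring

/-- `1 + c y v z` with `z = v l e_k - v k e_l`: splitting off the part of `v` outside `k, l` -/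
theorem rk_Zr (hd : 3 ≤ d) (H : Subgroup (Matrix.GeneralLinearGroup (Fin d) R))
    (v : Fin d → R) (k l : Fin d) (hkl : k ≠ l) (c y : R)
    (hc : ∀ t, t ≠ k → t ≠ l → v t * (c * y) ∈ Lev H) :
    ∃ (m : Fin d) (hmk : m ≠ k) (hml : m ≠ l),
      ∃ h0 : ((c * y) • Zr v k l) ⬝ᵥ v = 0, ∃ u ∈ H, rk v ((c * y) • Zr v k l) h0 =
        u * (((tv k m hmk.symm (c * v k) * tv l m hml.symm (c * v l)) *
          (tv m k hmk (y * v l) * tv m l hml (y * -(v k))) *
          (tv k m hmk.symm (c * v k) * tv l m hml.symm (c * v l))⁻¹ *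
          (tv m k hmk (y * v l) * tv m l hml (y * -(v k)))⁻¹)) := by
  obtain ⟨m, hmk, hml⟩ := third hd k l
  refine ⟨m, hmk, hml, by rw [smul_dotProduct, Zr_dot, smul_zero], ?_⟩
  set z : Fin d → R := (c * y) • Zr v k l with hz
  set u : Fin d → R := Pi.single k (v k) + Pi.single l (v l) with hu
  have hZu' : Zr v k l ⬝ᵥ u = 0 := by
    rw [hu, dotProduct_add, dotProduct_single, dotProduct_single, Zr,
      Pi.sub_apply, Pi.sub_apply, Pi.single_eq_same, Pi.single_eq_same, Pi.single_eq_of_ne hkl,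
      Pi.single_eq_of_ne hkl.symm]
    ring
  have hzu : z ⬝ᵥ u = 0 := by rw [hz, smul_dotProduct, hZu', smul_zero]
  have hzv : z ⬝ᵥ v = 0 := by rw [hz, smul_dotProduct, Zr_dot, smul_zero]
  -- the part outside `k`, `l`
  obtain ⟨hs, hsH⟩ := rk_sum_left H z (fun t => Pi.single t (v t))
    ((Finset.univ.erase k).erase l) (by
      intro t ht
      have htl : t ≠ l := Finset.ne_of_mem_erase ht
      have htk : t ≠ k := Finset.ne_of_mem_erase (Finset.mem_of_mem_erase ht)
      have h1 : z ⬝ᵥ Pi.single t (v t) = 0 := by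
        rw [hz, dotProduct_single, Pi.smul_apply, Zr, Pi.sub_apply, Pi.single_eq_of_ne htk,
          Pi.single_eq_of_ne htl, sub_zero, smul_zero, zero_mul]
      refine ⟨h1, ?_⟩
      have h2 : z = Pi.single k (c * y * v l) + Pi.single l (-(c * y * v k)) := by
        rw [hz, Zr]
        ext x
        simp only [Pi.smul_apply, Pi.sub_apply, Pi.add_apply, Pi.single_apply, smul_eq_mul]
        split_ifs <;> ring
      have h3 : rk (Pi.single t (v t)) z h1 =
          rk (Pi.single t (v t)) (Pi.single k (c * y * v l)) (single_dot_single t k htk _ _) *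
          rk (Pi.single t (v t)) (Pi.single l (-(c * y * v k)))
            (single_dot_single t l htl _ _) := by
        rw [rk_mul_left]
        exact rk_congr _ rfl h2
      rw [h3, tv_eq_rk t k htk, tv_eq_rk t l htl]
      have h4 := hc t htk htl
      refine mul_mem ?_ ?_
      · have h5 : v t * (c * y * v l) = v t * (c * y) * v l := by ring
        rw [h5]
        exact tv_of_mem_Lev (Ideal.mul_mem_right _ _ h4) t k htk
      · have h5 : v t * -(c * y * v k) = v t * (c * y) * (- v k) := by ring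
        rw [h5]
        exact tv_of_mem_Lev (Ideal.mul_mem_right _ _ h4) t l htl)
  refine ⟨_, hsH, ?_⟩
  have hsum : ∑ t ∈ (Finset.univ.erase k).erase l, (Pi.single t (v t) : Fin d → R) + u = v := by
    have h1 : ∑ t, (Pi.single t (v t) : Fin d → R) = v := by
      ext x
      rw [Finset.sum_apply, Finset.sum_eq_single x]
      · rw [Pi.single_eq_same]
      · intro b _ hb; rw [Pi.single_eq_of_ne hb.symm]
      · intro h; exact absurd (Finset.mem_univ x) h
    rw [← Finset.sum_erase_add _ _ (Finset.mem_univ k),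
      ← Finset.sum_erase_add _ _ (Finset.mem_erase.2 ⟨hkl.symm, Finset.mem_univ l⟩)] at h1
    rw [hu]
    conv_rhs => rw [← h1]
    abel
  -- the part inside `k`, `l` is a commutator
  have hmu : Pi.single m (1 : R) ⬝ᵥ (c • u) = 0 := by
    rw [single_one_dotProduct, Pi.smul_apply, hu, Pi.add_apply, Pi.single_eq_of_ne hmk,
      Pi.single_eq_of_ne hml, add_zero, smul_zero]
  have hZm : (y • Zr v k l) ⬝ᵥ Pi.single m (1 : R) = 0 := by
    rw [smul_dotProduct, dotProduct_single_one, Zr, Pi.sub_apply, Pi.single_eq_of_ne hmk,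
      Pi.single_eq_of_ne hml, sub_zero, smul_zero]
  have hZu : (y • Zr v k l) ⬝ᵥ (c • u) = 0 := by
    rw [smul_dotProduct, dotProduct_smul, hZu', smul_zero, smul_zero]
  have hcomm := comm_rk (c • u) (Pi.single m 1) (Pi.single m 1) (y • Zr v k l) hmu hZm hZu (by
    rw [dotProduct_single_one, Pi.single_eq_same])
  have e1 : rk (c • u) (Pi.single m 1) hmu =
      tv k m hmk.symm (c * v k) * tv l m hml.symm (c * v l) := by
    unfold tv
    rw [rk_mul_right]
    apply rk_congr _ _ rfl
    rw [hu]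
    ext x
    simp only [Pi.smul_apply, Pi.add_apply, Pi.single_apply, smul_eq_mul]
    split_ifs <;> ring
  have e2 : rk (Pi.single m 1) (y • Zr v k l) hZm =
      tv m k hmk (y * v l) * tv m l hml (y * -(v k)) := by
    have h1 := tv_eq_rk m k hmk 1 (y * v l) (single_dot_single m k hmk _ _)
    have h2 := tv_eq_rk m l hml 1 (y * -(v k)) (single_dot_single m l hml _ _)
    rw [one_mul] at h1 h2
    rw [← h1, ← h2, rk_mul_left]
    apply rk_congr _ rfl
    rw [Zr]
    ext x
    simp only [Pi.smul_apply, Pi.sub_apply, Pi.add_apply, Pi.single_apply, smul_eq_mul]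
    split_ifs <;> ring
  rw [← e1, ← e2, hcomm]
  have e3 : rk (c • u) (y • Zr v k l) hZu = rk u z hzu := by
    apply Units.ext
    rw [coe_rk, coe_rk, hz, vecMulVec_smul, vecMulVec_smul, smul_vecMulVec, smul_smul, mul_comm y c]
  rw [e3, rk_mul_right]
  exact (rk_congr _ hsum.symm rfl)

/-- commutators modulo `H` -/
theorem comm_mod {G : Type*} [Group G] (E H : Subgroup G)
    (hH : ∀ e ∈ E, ∀ h ∈ H, e * h * e⁻¹ ∈ H) (x y h k : G) (hx : x ∈ E) (hy : y ∈ E)
    (hh : h ∈ H) (hk : k ∈ H) :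
    (x * h) * (y * k) * (x * h)⁻¹ * (y * k)⁻¹ * (x * y * x⁻¹ * y⁻¹)⁻¹ ∈ H := by
  have e : (x * h) * (y * k) * (x * h)⁻¹ * (y * k)⁻¹ * (x * y * x⁻¹ * y⁻¹)⁻¹ =
      (x * h * x⁻¹) * ((x * y) * (k * h⁻¹) * (x * y)⁻¹) *
        ((x * y * x⁻¹) * k⁻¹ * (x * y * x⁻¹)⁻¹) := by group
  rw [e]
  exact mul_mem (mul_mem (hH _ hx _ hh) (hH _ (mul_mem hx hy) _ (mul_mem hk (inv_mem hh))))
    (hH _ (mul_mem (mul_mem hx hy) (inv_mem hx)) _ (inv_mem hk))

theorem rk_Zr_mem (hd : 3 ≤ d) (H : Subgroup (Matrix.GeneralLinearGroup (Fin d) R))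
    {J : Ideal R} (hH : IsN J H) (v : Fin d → R) (k l : Fin d) (c : R) (hc : c ∈ Lev H * J) :
    ∃ h0 : (c • Zr v k l) ⬝ᵥ v = 0, rk v (c • Zr v k l) h0 ∈ H := by
  by_cases hkl : k = l
  · subst hkl
    have h1 : c • Zr v k k = 0 := by rw [Zr, sub_self, smul_zero]
    refine ⟨by rw [h1, zero_dotProduct], ?_⟩
    rw [rk_congr _ rfl h1, rk_zero_right]
    exact one_mem H
  · induction hc using Submodule.mul_induction_on' with
    | mem_mul_mem c hc y hy =>
      obtain ⟨m, hmk, hml, h0, u, hu, hueq⟩ := rk_Zr hd H v k l hkl c y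
        (fun t _ _ => Ideal.mul_mem_left _ _ (Ideal.mul_mem_right _ _ hc))
      refine ⟨h0, ?_⟩
      rw [hueq]
      set X := tv k m hmk.symm (c * v k) * tv l m hml.symm (c * v l) with hX
      set Y := tv m k hmk (y * v l) * tv m l hml (y * -(v k)) with hY
      have hXH : X ∈ H := mul_mem (tv_of_mem_Lev (Ideal.mul_mem_right _ _ hc) _ _ _)
        (tv_of_mem_Lev (Ideal.mul_mem_right _ _ hc) _ _ _)
      have hYE : Y ∈ EJ (d := d) J := mul_mem (tv_mem_EJ (Ideal.mul_mem_right _ _ hy) _ _ _)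
        (tv_mem_EJ (Ideal.mul_mem_right _ _ hy) _ _ _)
      have e : X * Y * X⁻¹ * Y⁻¹ = X * (Y * X⁻¹ * Y⁻¹) := by group
      rw [e]
      exact mul_mem hu (mul_mem hXH (hH Y hYE _ (inv_mem hXH)))
    | add x _ y _ hx hy =>
      obtain ⟨h1, h1'⟩ := hx
      obtain ⟨h2, h2'⟩ := hy
      have h3 := mul_mem h1' h2'
      rw [rk_mul_left] at h3
      refine ⟨by rw [add_smul, add_dotProduct, h1, h2, add_zero], ?_⟩
      rw [rk_congr _ rfl (add_smul x y (Zr v k l))]
      exact h3

section conj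

variable (g : Matrix.GeneralLinearGroup (Fin d) R) (i j : Fin d) (hij : i ≠ j) (a : R)

/-- the column `g e_i` -/
def cv : Fin d → R := fun x => (g : Matrix (Fin d) (Fin d) R) x i

/-- the row `e_j g⁻¹` -/
def rv (j : Fin d) : Fin d → R :=
  fun x => ((g⁻¹ : Matrix.GeneralLinearGroup (Fin d) R) : Matrix (Fin d) (Fin d) R) j x

include hij in
theorem rv_cv : rv g j ⬝ᵥ cv g i = 0 := by
  have hBA : ((g⁻¹ : Matrix.GeneralLinearGroup (Fin d) R) : Matrix (Fin d) (Fin d) R) *
      (g : Matrix (Fin d) (Fin d) R) = 1 := by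
    rw [← Units.val_mul, inv_mul_cancel, Units.val_one]
  have : (((g⁻¹ : Matrix.GeneralLinearGroup (Fin d) R) : Matrix (Fin d) (Fin d) R) *
      (g : Matrix (Fin d) (Fin d) R)) j i = rv g j ⬝ᵥ cv g i := rfl
  rw [← this, hBA, one_apply_ne hij.symm]

theorem rv_cv_self : rv g i ⬝ᵥ cv g i = 1 := by
  have hBA : ((g⁻¹ : Matrix.GeneralLinearGroup (Fin d) R) : Matrix (Fin d) (Fin d) R) *
      (g : Matrix (Fin d) (Fin d) R) = 1 := by
    rw [← Units.val_mul, inv_mul_cancel, Units.val_one]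
  have : (((g⁻¹ : Matrix.GeneralLinearGroup (Fin d) R) : Matrix (Fin d) (Fin d) R) *
      (g : Matrix (Fin d) (Fin d) R)) i i = rv g i ⬝ᵥ cv g i := rfl
  rw [← this, hBA, one_apply_eq]

theorem conj_eq_rk (h : (a • rv g j) ⬝ᵥ cv g i = 0) :
    g * tv i j hij a * g⁻¹ = rk (cv g i) (a • rv g j) h := by
  have hAB : (g : Matrix (Fin d) (Fin d) R) *
      ((g⁻¹ : Matrix.GeneralLinearGroup (Fin d) R) : Matrix (Fin d) (Fin d) R) = 1 := by
    rw [← Units.val_mul, mul_inv_cancel, Units.val_one]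
  apply Units.ext
  rw [Units.val_mul, Units.val_mul, coe_rk, tv, coe_rk, mul_add, add_mul, mul_one,
    hAB, mul_vecMulVec, vecMulVec_mul]
  congr 1
  ext x y
  rw [vecMulVec_apply, vecMulVec_apply, mulVec_single, single_one_vecMul]
  simp only [Pi.smul_apply, Matrix.col_apply, Matrix.row_apply, smul_eq_mul,
    MulOpposite.smul_eq_mul_unop, MulOpposite.unop_op, cv, rv]
  ring

include hij in
theorem row_sum : a • rv g j = ∑ p : Fin d × Fin d,
    (a * (rv g j p.1 * rv g i p.2)) • Zr (cv g i) p.1 p.2 := by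
  have hwv := rv_cv g i j hij
  have hbv := rv_cv_self g i
  set v := cv g i with hv
  set w := rv g j with hw
  set b := rv g i with hb
  ext t
  rw [Finset.sum_apply, Fintype.sum_prod_type]
  simp only [Pi.smul_apply, Zr, Pi.sub_apply, smul_eq_mul]
  have h1 : ∀ x y : Fin d, a * (w x * b y) * ((Pi.single x (v y) : Fin d → R) t -
      (Pi.single y (v x) : Fin d → R) t) =
      (if t = x then a * w x * (b y * v y) else 0) -
      (if t = y then a * b y * (w x * v x) else 0) := by
    intro x y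
    rw [Pi.single_apply, Pi.single_apply]
    split_ifs <;> ring
  simp only [h1, Finset.sum_sub_distrib]
  have h2 : ∀ x : Fin d, ∑ y, (if t = x then a * w x * (b y * v y) else 0) =
      if t = x then a * w x else 0 := by
    intro x
    split_ifs with h
    · rw [← Finset.mul_sum]
      change a * w x * (b ⬝ᵥ v) = _
      rw [hbv, mul_one]
    · simp
  have h3 : ∀ x : Fin d, ∑ y, (if t = y then a * b y * (w x * v x) else 0) =
      a * b t * (w x * v x) := by
    intro x
    rw [Finset.sum_ite_eq Finset.univ t]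
    simp
  simp only [h2, h3]
  rw [← Finset.mul_sum]
  change _ = _ - a * b t * (w ⬝ᵥ v)
  rw [hwv, mul_zero, sub_zero, Finset.sum_ite_eq Finset.univ t]
  simp

end conj

/-- conjugates by arbitrary matrices -/
theorem conj_mem (hd : 3 ≤ d) (H : Subgroup (Matrix.GeneralLinearGroup (Fin d) R))
    {J : Ideal R} (hH : IsN J H) (g : Matrix.GeneralLinearGroup (Fin d) R) (i j : Fin d)
    (hij : i ≠ j) {a : R} (ha : a ∈ Lev H * J) : g * tv i j hij a * g⁻¹ ∈ H := by
  have hawv : (a • rv g j) ⬝ᵥ cv g i = 0 := by rw [smul_dotProduct, rv_cv g i j hij, smul_zero]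
  rw [conj_eq_rk g i j hij a hawv]
  obtain ⟨hs, hsH⟩ := rk_sum_right H (cv g i)
    (fun p : Fin d × Fin d => (a * (rv g j p.1 * rv g i p.2)) • Zr (cv g i) p.1 p.2)
    Finset.univ (fun p _ => rk_Zr_mem hd H hH _ _ _ _ (Ideal.mul_mem_right _ _ ha))
  rw [rk_congr _ rfl (row_sum g i j hij a)]
  exact hsH

theorem Lev_core (hd : 3 ≤ d) (H : Subgroup (Matrix.GeneralLinearGroup (Fin d) R))
    {J : Ideal R} (hH : IsN J H) : Lev H * J ≤ Lev H.normalCore := by
  intro a ha r i j hij g
  exact conj_mem hd H hH g i j hij (Ideal.mul_mem_left _ _ ha)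

/-- **Suslin's lemma, relative form**: matrices congruent to `1` modulo the level of `H`
centralise elementary matrices modulo `H`, if `H` is normalised by the elementary group. -/
theorem suslin (hd : 3 ≤ d) (H : Subgroup (Matrix.GeneralLinearGroup (Fin d) R))
    (hH : IsN (⊤ : Ideal R) H) (g : Matrix.GeneralLinearGroup (Fin d) R)
    (hg : ∀ i j, (g : Matrix (Fin d) (Fin d) R) i j - (1 : Matrix (Fin d) (Fin d) R) i j ∈ Lev H)
    (hg' : ∀ i j, ((g⁻¹ : Matrix.GeneralLinearGroup (Fin d) R) : Matrix (Fin d) (Fin d) R) i j -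
      (1 : Matrix (Fin d) (Fin d) R) i j ∈ Lev H)
    (i j : Fin d) (hij : i ≠ j) (a : R) :
    g * tv i j hij a * g⁻¹ * (tv i j hij a)⁻¹ ∈ H := by
  classical
  have hEl : ∀ e ∈ El d R, ∀ h ∈ H, e * h * e⁻¹ ∈ H := by
    rw [El_eq_EJ_top]; exact hH
  have hawv : (a • rv g j) ⬝ᵥ cv g i = 0 := by rw [smul_dotProduct, rv_cv g i j hij, smul_zero]
  set v : Fin d → R := cv g i with hv
  set w : Fin d → R := rv g j with hw
  set b : Fin d → R := rv g i with hb
  have hwsum : a • w = ∑ p : Fin d × Fin d, (a * (w p.1 * b p.2)) • Zr v p.1 p.2 :=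
    row_sum g i j hij a
  -- all terms but `(j, i)` lie in `H`
  obtain ⟨hs, hsH⟩ := rk_sum_right H v
    (fun p : Fin d × Fin d => (a * (w p.1 * b p.2)) • Zr v p.1 p.2)
    (Finset.univ.erase (j, i)) (by
      intro p hp
      apply rk_Zr_mem hd H hH
      rw [Ideal.mul_top]
      apply Ideal.mul_mem_left
      have hp' : p ≠ (j, i) := Finset.ne_of_mem_erase hp
      by_cases h1 : p.1 = j
      · have h2 : i ≠ p.2 := by
          intro h
          apply hp'
          ext1
          · exact h1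
          · exact h.symm
        apply Ideal.mul_mem_left
        have := hg' i p.2
        rwa [one_apply_ne h2, sub_zero] at this
      · apply Ideal.mul_mem_right
        have := hg' j p.1
        rwa [one_apply_ne (Ne.symm h1), sub_zero] at this)
  -- the special term
  have hvt : ∀ t, t ≠ i → v t ∈ Lev H := by
    intro t ht
    have := hg t i
    rwa [one_apply_ne ht, sub_zero] at this
  obtain ⟨m, hmj, hmi, h0, y, hy, hyeq⟩ := rk_Zr hd H v j i hij.symm (a * (w j * b i)) 1
    (fun t _ ht2 => Ideal.mul_mem_right _ _ (hvt t ht2))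
  have hspec : rk v ((a * (w j * b i) * 1) • Zr v j i) h0 * (tv i j hij a)⁻¹ ∈ H := by
    rw [hyeq, mul_assoc]
    refine mul_mem hy ?_
    set c : R := a * (w j * b i) with hc
    have hvj : v j ∈ Lev H := hvt j hij.symm
    have hX : tv j m hmj.symm (c * v j) * tv i m hmi.symm (c * v i) =
        tv i m hmi.symm (c * v i) * ((tv i m hmi.symm (c * v i))⁻¹ * tv j m hmj.symm (c * v j) *
          (tv i m hmi.symm (c * v i))⁻¹⁻¹) := by group
    have hXH : (tv i m hmi.symm (c * v i))⁻¹ * tv j m hmj.symm (c * v j) *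
          (tv i m hmi.symm (c * v i))⁻¹⁻¹ ∈ H :=
      hEl _ (inv_mem (tv_mem _ _ _ _)) _ (tv_of_mem_Lev (Ideal.mul_mem_left _ _ hvj) _ _ _)
    have hYH : tv m i hmi (1 * -(v j)) ∈ H :=
      tv_of_mem_Lev (Ideal.mul_mem_left _ _ (neg_mem hvj)) _ _ _
    rw [hX]
    have h1 := comm_mod (El d R) H hEl (tv i m hmi.symm (c * v i)) (tv m j hmj (1 * v i)) _ _
      (tv_mem _ _ _ _) (tv_mem _ _ _ _) hXH hYH
    rw [tv_comm i m j hmi.symm hmj hij (c * v i) (1 * v i)] at h1
    have h2 : tv i j hij (c * v i * (1 * v i)) * (tv i j hij a)⁻¹ ∈ H := by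
      rw [tv_inv, tv_add]
      refine tv_of_mem_Lev ?_ i j hij
      -- `c v_i ^ 2 - a` lies in the level
      have e1 : w j - 1 ∈ Lev H := by
        have := hg' j j
        rwa [one_apply_eq] at this
      have e2 : b i - 1 ∈ Lev H := by
        have := hg' i i
        rwa [one_apply_eq] at this
      have e3 : v i - 1 ∈ Lev H := by
        have := hg i i
        rwa [one_apply_eq] at this
      have e4 : c * v i * (1 * v i) + -a =
          a * (w j - 1) * (b i * v i * v i) + a * (b i - 1) * (v i * v i)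
          + a * (v i - 1) * (v i + 1) := by
        rw [hc]; ring
      rw [e4]
      exact add_mem (add_mem (Ideal.mul_mem_right _ _ (Ideal.mul_mem_left _ _ e1))
        (Ideal.mul_mem_right _ _ (Ideal.mul_mem_left _ _ e2)))
        (Ideal.mul_mem_right _ _ (Ideal.mul_mem_left _ _ e3))
    have h3 := mul_mem h1 h2
    rw [← mul_assoc, inv_mul_cancel_right] at h3
    exact h3
  -- put together
  have hsplit : a • w = (a * (w j * b i) * 1) • Zr v j i +
      ∑ p ∈ Finset.univ.erase (j, i), (a * (w p.1 * b p.2)) • Zr v p.1 p.2 := by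
    rw [hwsum, ← Finset.add_sum_erase _ _ (Finset.mem_univ (j, i)), mul_one]
  have hprod : rk v (a • w) hawv = rk v ((a * (w j * b i) * 1) • Zr v j i) h0 *
      rk v (∑ p ∈ Finset.univ.erase (j, i), (a * (w p.1 * b p.2)) • Zr v p.1 p.2) hs := by
    rw [rk_mul_left]
    exact rk_congr _ rfl hsplit
  rw [conj_eq_rk g i j hij a hawv, hprod]
  have e : ∀ X Y t : Matrix.GeneralLinearGroup (Fin d) R, X * Y * t⁻¹ =
      (X * t⁻¹) * (t * Y * t⁻¹) := by intro X Y t; group
  rw [e]
  exact mul_mem hspec (hEl _ (tv_mem _ _ _ _) _ hsH)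

end Pool.Agent.ACQ
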