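import Pool.Agent.Lib_helper44.ACQ.Zorn
import Pool.Agent.Lib_helper44.ACQ.Suslin
import Pool.Agent.Lib_helper44.ACQ.Generic

/-!
# The arithmetic step
-/

set_option autoImplicit false

namespace Pool.Agent.ACQ

open Function Subgroup Matrix
open scoped commutatorElement

universe u w

variable {d : ℕ} {R : Type w} [CommRing R]

/-- congruence subgroup -/
def Kc (c : Ideal R) : Subgroup (Matrix.GeneralLinearGroup (Fin d) R) :=
  (Matrix.GeneralLinearGroup.map (Ideal.Quotient.mk c)).ker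

instance Kc_normal (c : Ideal R) : (Kc (d := d) c).Normal := by unfold Kc; infer_instance

theorem mem_Kc {c : Ideal R} {g : Matrix.GeneralLinearGroup (Fin d) R} :
    g ∈ Kc (d := d) c ↔
      ∀ i j, (g : Matrix (Fin d) (Fin d) R) i j - (1 : Matrix (Fin d) (Fin d) R) i j ∈ c := by
  unfold Kc
  rw [MonoidHom.mem_ker]
  constructor
  · intro h i j
    have h1 := congrArg (fun g : Matrix.GeneralLinearGroup (Fin d) (R ⧸ c) =>
      (g : Matrix (Fin d) (Fin d) (R ⧸ c)) i j) h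
    simp only [Units.val_one] at h1
    rw [Matrix.GeneralLinearGroup.map_apply] at h1
    rw [← Ideal.Quotient.eq, h1, Matrix.one_apply, Matrix.one_apply]
    split_ifs <;> simp
  · intro h
    apply Units.ext
    ext i j
    rw [Matrix.GeneralLinearGroup.map_apply, Ideal.Quotient.eq.2 (h i j), Units.val_one,
      Matrix.one_apply, Matrix.one_apply]
    split_ifs <;> simp

theorem tv_mem_Kc (c : Ideal R) (i j : Fin d) (h : i ≠ j) {a : R} (ha : a ∈ c) :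
    tv i j h a ∈ Kc (d := d) c := by
  rw [mem_Kc]
  intro k l
  rw [coe_tv, Matrix.add_apply, add_sub_cancel_left, Matrix.single_apply]
  split_ifs
  · exact ha
  · exact zero_mem _

theorem Kc_le_Sc {c P : Ideal R} (h : c ≤ P) : Kc (d := d) c ≤ Sc (d := d) P := by
  intro g hg
  exact Sc_of_one_mod P g fun i j => h (mem_Kc.1 hg i j)

theorem EJ_le_Kc (J : Ideal R) : EJ (d := d) J ≤ Kc (d := d) J := by
  unfold EJ
  rw [closure_le]
  rintro _ ⟨i, j, h, c, hc, rfl⟩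
  exact tv_mem_Kc J i j h hc

/-- entries modulo an ideal -/
theorem entry_of_map_eq (c : Ideal R) (g h : Matrix.GeneralLinearGroup (Fin d) R)
    (hgh : g⁻¹ * h ∈ Kc (d := d) c) (i j : Fin d) :
    (h : Matrix (Fin d) (Fin d) R) i j - (g : Matrix (Fin d) (Fin d) R) i j ∈ c := by
  unfold Kc at hgh
  rw [MonoidHom.mem_ker, map_mul, map_inv, inv_mul_eq_one] at hgh
  have h1 : (Matrix.GeneralLinearGroup.map (Ideal.Quotient.mk c) g) i j =
      (Matrix.GeneralLinearGroup.map (Ideal.Quotient.mk c) h) i j := by rw [hgh]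
  rw [Matrix.GeneralLinearGroup.map_apply, Matrix.GeneralLinearGroup.map_apply] at h1
  exact Ideal.Quotient.eq.1 h1.symm

variable {G : Type u} [Group G]

/-- the image in the general linear group of the part of `H` lying in `L₀` -/
def img (ρ : G →* Matrix.GeneralLinearGroup (Fin d) R) (L₀ H : Subgroup G) :
    Subgroup (Matrix.GeneralLinearGroup (Fin d) R) := (H ⊓ L₀).map ρ

theorem isN_img (ρ : G →* Matrix.GeneralLinearGroup (Fin d) R) (L₀ H : Subgroup G) [L₀.Normal]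
    [H.Normal] {J : Ideal R} (hE : EJ (d := d) J ≤ ρ.range) : IsN J (img ρ L₀ H) := by
  intro e he h hh
  obtain ⟨l, rfl⟩ := hE he
  obtain ⟨y, hy, rfl⟩ := hh
  exact ⟨l * y * l⁻¹, (inferInstance : (H ⊓ L₀).Normal).conj_mem y hy l, by simp⟩

theorem isN_map (ρ : G →* Matrix.GeneralLinearGroup (Fin d) R) (L₀ : Subgroup G) [L₀.Normal]
    {J : Ideal R} (hE : EJ (d := d) J ≤ ρ.range) : IsN J (L₀.map ρ) := by
  intro e he h hh
  obtain ⟨l, rfl⟩ := hE he
  obtain ⟨y, hy, rfl⟩ := hh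
  exact ⟨l * y * l⁻¹, ‹L₀.Normal›.conj_mem y hy l, by simp⟩

theorem mem_img {ρ : G →* Matrix.GeneralLinearGroup (Fin d) R} {L₀ H : Subgroup G}
    (hk : L₀ ⊓ ρ.ker ≤ H) {l : G} (hl : l ∈ L₀) : ρ l ∈ img ρ L₀ H ↔ l ∈ H := by
  constructor
  · rintro ⟨y, hy, hyl⟩
    have hy' := mem_inf.1 hy
    have h1 : y⁻¹ * l ∈ H := hk (mem_inf.2 ⟨mul_mem (inv_mem hy'.2) hl, by
      rw [MonoidHom.mem_ker, map_mul, map_inv, hyl, inv_mul_cancel]⟩)
    have := mul_mem hy'.1 h1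
    rwa [mul_inv_cancel_left] at this
  · intro h
    exact ⟨l, mem_inf.2 ⟨h, hl⟩, rfl⟩

theorem img_mono {ρ : G →* Matrix.GeneralLinearGroup (Fin d) R} {L₀ H K : Subgroup G}
    (h : H ≤ K) : img ρ L₀ H ≤ img ρ L₀ K := map_mono (inf_le_inf_right _ h)

theorem hyp_img (ρ : G →* Matrix.GeneralLinearGroup (Fin d) R) (L₀ H : Subgroup G) [L₀.Normal]
    [H.Normal] {g : G} (hg : g ∈ H) :
    ∀ T ∈ L₀.map ρ, (ρ g)⁻¹ * T * ρ g * T⁻¹ ∈ img ρ L₀ H := by
  rintro _ ⟨l, hl, rfl⟩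
  refine ⟨g⁻¹ * l * g * l⁻¹, mem_inf.2 ⟨?_, ?_⟩, by simp⟩
  · have e : g⁻¹ * l * g * l⁻¹ = g⁻¹ * (l * g * l⁻¹) := by group
    rw [e]
    exact mul_mem (inv_mem hg) (‹H.Normal›.conj_mem g hg l)
  · have h1 := ‹L₀.Normal›.conj_mem l hl g⁻¹
    rw [inv_inv] at h1
    exact mul_mem h1 (inv_mem hl)

/-- the normal subgroup of `G` generated by the elements of `L₀` which map to elementary matrices
with entries in the ideal `c` -/
def EG (ρ : G →* Matrix.GeneralLinearGroup (Fin d) R) (L₀ : Subgroup G) (c : Ideal R) :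
    Subgroup G :=
  normalClosure {l | l ∈ L₀ ∧ ∃ (i j : Fin d) (h : i ≠ j), ∃ a ∈ c, ρ l = tv i j h a}

instance EG_normal (ρ : G →* Matrix.GeneralLinearGroup (Fin d) R) (L₀ : Subgroup G)
    (c : Ideal R) : (EG ρ L₀ c).Normal := normalClosure_normal

theorem EG_mono (ρ : G →* Matrix.GeneralLinearGroup (Fin d) R) (L₀ : Subgroup G) {c c' : Ideal R}
    (h : c ≤ c') : EG ρ L₀ c ≤ EG ρ L₀ c' := by
  apply normalClosure_mono
  rintro l ⟨hl, i, j, hij, a, ha, hla⟩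
  exact ⟨hl, i, j, hij, a, h ha, hla⟩

theorem EG_le_L (ρ : G →* Matrix.GeneralLinearGroup (Fin d) R) (L₀ : Subgroup G) [L₀.Normal]
    (c : Ideal R) : EG ρ L₀ c ≤ L₀ := by
  apply normalClosure_le_normal
  rintro l ⟨hl, -⟩
  exact hl

theorem EG_le_Kc (ρ : G →* Matrix.GeneralLinearGroup (Fin d) R) (L₀ : Subgroup G)
    (c : Ideal R) : EG ρ L₀ c ≤ (Kc (d := d) c).comap ρ := by
  apply normalClosure_le_normal
  rintro l ⟨hl, i, j, hij, a, ha, hla⟩
  rw [SetLike.mem_coe, mem_comap, hla]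
  exact tv_mem_Kc c i j hij ha

theorem EG_le (ρ : G →* Matrix.GeneralLinearGroup (Fin d) R) (L₀ H : Subgroup G)
    [L₀.Normal] [H.Normal] (hk : L₀ ⊓ ρ.ker ≤ H) (c : Ideal R)
    (hc : c ≤ Lev (img ρ L₀ H)) : EG ρ L₀ c ≤ H := by
  apply normalClosure_le_normal
  rintro l ⟨hl, i, j, hij, a, ha, hla⟩
  rw [SetLike.mem_coe, ← mem_img hk hl, hla]
  exact tv_of_mem_Lev (hc ha) i j hij

theorem EJ_lift (ρ : G →* Matrix.GeneralLinearGroup (Fin d) R) (L₀ : Subgroup G)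
    (K : Ideal R) (hK : K ≤ Lev (L₀.map ρ)) {k : Matrix.GeneralLinearGroup (Fin d) R}
    (hk : k ∈ EJ (d := d) K) : ∃ l ∈ EG ρ L₀ K, ρ l = k := by
  have h1 : EJ (d := d) K ≤ (EG ρ L₀ K).map ρ := by
    conv_lhs => unfold EJ
    rw [closure_le]
    rintro _ ⟨i, j, h, c, hc, rfl⟩
    obtain ⟨l, hl, hlt⟩ := tv_of_mem_Lev (hK hc) i j h
    exact ⟨l, subset_normalClosure ⟨hl, i, j, h, c, hc, hlt⟩, hlt⟩
  exact h1 hk

variable {n : ℕ}

/-- a normally generating tuple is not scalar modulo a prime ideal not containing `J` -/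
theorem not_all_scalar (hd : 3 ≤ d) (ρ : G →* Matrix.GeneralLinearGroup (Fin d) R)
    {J : Ideal R} (hE : EJ (d := d) J ≤ ρ.range) (s : Fin n → G)
    (hs : normalClosure (Set.range s) = ⊤) (P : Ideal R) (hJP : ¬ J ≤ P) :
    ∃ j, ρ (s j) ∉ Sc (d := d) P := by
  by_contra hcon
  push Not at hcon
  have h1 : normalClosure (Set.range s) ≤ (Sc (d := d) P).comap ρ := by
    apply normalClosure_le_normal
    rintro _ ⟨j, rfl⟩
    exact hcon j
  rw [hs] at h1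
  obtain ⟨y, hyJ, hyP⟩ := SetLike.not_le_iff_exists.1 hJP
  obtain ⟨k, hk, -⟩ := third hd (⟨0, by omega⟩ : Fin d) ⟨0, by omega⟩
  obtain ⟨l, hlt⟩ := hE (tv_mem_EJ hyJ k ⟨0, by omega⟩ hk)
  apply tv_notMem_Sc hd P hyP k ⟨0, by omega⟩ hk
  rw [← hlt]
  exact h1 (mem_top l)

/-- at least two elements of a generating tuple are not scalar modulo such a prime ideal -/
theorem two_nonscalar (hd : 3 ≤ d) (ρ : G →* Matrix.GeneralLinearGroup (Fin d) R)
    {J : Ideal R} (hE : EJ (d := d) J ≤ ρ.range) (x : Fin n → G)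
    (hx : closure (Set.range x) = ⊤) (P : Ideal R) (hP : P.IsPrime) (hJP : ¬ J ≤ P)
    (i : Fin n) : ∃ j, j ≠ i ∧ ρ (x j) ∉ Sc (d := d) P := by
  by_contra hcon
  push Not at hcon
  have h1 : commutator G ≤ (Sc (d := d) P).comap ρ := by
    apply comm_le x hx _ i
    intro j hj
    refine ⟨1, ?_, fun g => by rw [commutatorElement_one_right]; exact one_mem _⟩
    rw [QuotientGroup.mk_one]
    exact (QuotientGroup.eq_one_iff _).2 (hcon j hj)
  obtain ⟨y, hyJ, hyP⟩ := SetLike.not_le_iff_exists.1 hJP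
  obtain ⟨k, hk, -⟩ := third hd (⟨0, by omega⟩ : Fin d) ⟨0, by omega⟩
  obtain ⟨m, hm1, hm2⟩ := third hd k (⟨0, by omega⟩ : Fin d)
  obtain ⟨l, hlt⟩ := hE (tv_mem_EJ hyJ k m hm1.symm)
  obtain ⟨l', hlt'⟩ := hE (tv_mem_EJ hyJ m ⟨0, by omega⟩ hm2)
  have hyy : y * y ∉ P := fun h => (hP.mem_or_mem h).elim hyP hyP
  apply tv_notMem_Sc hd P hyy k ⟨0, by omega⟩ hk
  have h2 : ⁅l, l'⁆ ∈ commutator G := by
    rw [_root_.commutator_def]
    exact commutator_mem_commutator (mem_top _) (mem_top _)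
  have h3 := h1 h2
  rw [mem_comap, commutatorElement_def, map_mul, map_mul, map_mul, map_inv, map_inv, hlt, hlt',
    tv_comm k m ⟨0, by omega⟩ hm1.symm hm2 hk] at h3
  exact h3

theorem mem_of_pow (I : Ideal R) (Γ u : R) (N : ℕ) (h1 : Γ ^ N ∈ I) (h2 : Γ + Γ ^ 2 * u ∈ I) :
    Γ ∈ I := by
  have key : ∀ m : ℕ, ∃ w, Γ - w * Γ ^ (m + 1) ∈ I := by
    intro m
    induction m with
    | zero => exact ⟨1, by simp⟩
    | succ m ih =>
      obtain ⟨w, hw⟩ := ih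
      refine ⟨-(u * w), ?_⟩
      have e : Γ - -(u * w) * Γ ^ (m + 1 + 1) = (Γ - w * Γ ^ (m + 1)) +
          w * Γ ^ m * (Γ + Γ ^ 2 * u) := by ring
      rw [e]
      exact I.add_mem hw (I.mul_mem_left _ h2)
  obtain ⟨w, hw⟩ := key N
  have h3 : w * Γ ^ (N + 1) ∈ I := by
    rw [pow_succ]
    exact I.mul_mem_left _ (I.mul_mem_right _ h1)
  have := I.add_mem hw h3
  rwa [sub_add_cancel] at this

/-- products of entries of congruent matrices -/
theorem prod_cong (c : Ideal R) (e a b : Matrix.GeneralLinearGroup (Fin d) R)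
    (hab : a⁻¹ * b ∈ Kc (d := d) c) (k j r : Fin d) :
    (((e * b * e⁻¹)⁻¹ : Matrix.GeneralLinearGroup (Fin d) R) : Matrix (Fin d) (Fin d) R) j k *
      ((e * b * e⁻¹ : Matrix.GeneralLinearGroup (Fin d) R) : Matrix (Fin d) (Fin d) R) r k -
    (((e * a * e⁻¹)⁻¹ : Matrix.GeneralLinearGroup (Fin d) R) : Matrix (Fin d) (Fin d) R) j k *
      ((e * a * e⁻¹ : Matrix.GeneralLinearGroup (Fin d) R) : Matrix (Fin d) (Fin d) R) r k ∈ c := by
  have h1 : (e * a * e⁻¹)⁻¹ * (e * b * e⁻¹) ∈ Kc (d := d) c := by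
    have e1 : (e * a * e⁻¹)⁻¹ * (e * b * e⁻¹) = e * (a⁻¹ * b) * e⁻¹ := by group
    rw [e1]
    exact (Kc_normal c).conj_mem _ hab e
  have h2 : ((e * a * e⁻¹)⁻¹)⁻¹ * (e * b * e⁻¹)⁻¹ ∈ Kc (d := d) c := by
    have e1 : ((e * a * e⁻¹)⁻¹)⁻¹ * (e * b * e⁻¹)⁻¹ =
      (e * a * e⁻¹) * ((e * a * e⁻¹)⁻¹ * (e * b * e⁻¹))⁻¹ * (e * a * e⁻¹)⁻¹ := by group
    rw [e1]
    exact (Kc_normal c).conj_mem _ (inv_mem h1) _
  have h3 := entry_of_map_eq c _ _ h1 r k
  have h4 := entry_of_map_eq c _ _ h2 j k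
  set A := ((e * a * e⁻¹ : Matrix.GeneralLinearGroup (Fin d) R) : Matrix (Fin d) (Fin d) R) r k
  set A' := (((e * a * e⁻¹)⁻¹ : Matrix.GeneralLinearGroup (Fin d) R) :
    Matrix (Fin d) (Fin d) R) j k
  set B := ((e * b * e⁻¹ : Matrix.GeneralLinearGroup (Fin d) R) : Matrix (Fin d) (Fin d) R) r k
  set B' := (((e * b * e⁻¹)⁻¹ : Matrix.GeneralLinearGroup (Fin d) R) :
    Matrix (Fin d) (Fin d) R) j k
  have e1 : B' * B - A' * A = (B' - A') * B + A' * (B - A) := by ring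
  rw [e1]
  exact c.add_mem (c.mul_mem_right _ h4) (c.mul_mem_left _ h3)

/-- the ideal of the congruences which make `g` scalar -/
def ScI (g : Matrix.GeneralLinearGroup (Fin d) R) : Ideal R :=
  Ideal.span ({a | ∃ i j, i ≠ j ∧ (g : Matrix (Fin d) (Fin d) R) i j = a} ∪
    {a | ∃ i j, (g : Matrix (Fin d) (Fin d) R) i i - (g : Matrix (Fin d) (Fin d) R) j j = a})

theorem Sc_iff (P : Ideal R) (g : Matrix.GeneralLinearGroup (Fin d) R) :
    g ∈ Sc (d := d) P ↔ ScI g ≤ P := by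
  constructor
  · intro h
    unfold Sc at h
    rw [Subgroup.mem_comap, Matrix.GeneralLinearGroup.mem_center_iff_val_mem_range_scalar] at h
    obtain ⟨r, hr⟩ := h
    have hent : ∀ i j, Ideal.Quotient.mk P ((g : Matrix (Fin d) (Fin d) R) i j) =
        (Matrix.scalar (Fin d) r) i j := by
      intro i j
      have h1 := congrFun (congrFun hr i) j
      rw [h1]
      exact (Matrix.GeneralLinearGroup.map_apply (Ideal.Quotient.mk P) i j g).symm
    unfold ScI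
    rw [Ideal.span_le]
    rintro a (⟨i, j, hij, rfl⟩ | ⟨i, j, rfl⟩)
    · rw [SetLike.mem_coe, ← Ideal.Quotient.eq_zero_iff_mem, hent i j, Matrix.scalar_apply,
        diagonal_apply_ne _ hij]
    · rw [SetLike.mem_coe, ← Ideal.Quotient.eq, hent i i, hent j j, Matrix.scalar_apply,
        diagonal_apply_eq, diagonal_apply_eq]
  · intro h
    apply Sc_of_entries
    · intro i j hij
      exact h (Ideal.subset_span (Or.inl ⟨i, j, hij, rfl⟩))
    · intro i j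
      exact h (Ideal.subset_span (Or.inr ⟨i, j, rfl⟩))

theorem offdiag_of_Sc (P : Ideal R) (g : Matrix.GeneralLinearGroup (Fin d) R)
    (h : g ∈ Sc (d := d) P) (i j : Fin d) (hij : i ≠ j) :
    (g : Matrix (Fin d) (Fin d) R) i j ∈ P :=
  (Sc_iff P g).1 h (Ideal.subset_span (Or.inl ⟨i, j, hij, rfl⟩))

theorem hs1i_aux {G : Type*} [Group G] (kt t' b s0 s1 : G) (h : s1 = kt * t' * b⁻¹) :
    s0⁻¹ * s1 = (s0⁻¹ * t') * (t'⁻¹ * kt * t') * b⁻¹ := by
  rw [h]; group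

/-- **General position of several coordinates.** -/
theorem gen_pos [IsNoetherianRing R] (hd : 3 ≤ d)
    (ρ : G →* Matrix.GeneralLinearGroup (Fin d) R) {J₀ : Ideal R}
    (hE : EJ (d := d) J₀ ≤ ρ.range) (L₀ : Subgroup G) [L₀.Normal]
    (B : Subgroup G) [B.Normal] (hker : L₀ ⊓ ρ.ker ≤ B)
    {c : R} (hcL : c ∈ Lev (L₀.map ρ)) (hcJ : c ∈ J₀)
    (s : Fin n → G) (hs : normalClosure (Set.range s) = ⊤) (U : Finset (Fin n)) :
    ∃ s', AC s s' ∧ (∀ i, (s i)⁻¹ * s' i ∈ B ⊔ EG ρ L₀ (Ideal.span {c})) ∧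
      ∃ y : Fin n → G, (∀ k ∈ U, y k ∈ normalClosure {s' k} ⊔ B) ∧
      ∀ P : Ideal R, P.IsPrime → c ∉ P → (∀ k ∈ U, ρ (y k) ∈ Sc (d := d) P) →
        ((U.card * (d * (d - 1)) : ℕ) : ℕ∞) ≤ P.height := by
  classical
  set 𝔠 : Ideal R := Ideal.span {c} with h𝔠
  have h𝔠L : 𝔠 ≤ Lev (L₀.map ρ) := (Ideal.span_singleton_le_iff_mem _).2 hcL
  set E : Subgroup G := EG ρ L₀ 𝔠 with hEdef
  have hΛ : IsN J₀ (L₀.map ρ) := isN_map ρ L₀ hE
  have hcy : ∀ (i j : Fin d) (h : i ≠ j) (a : R), tv i j h (c * a) ∈ L₀.map ρ :=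
    fun i j h a => tv_of_mem_Lev (Ideal.mul_mem_right a _ hcL) i j h
  induction U using Finset.induction_on with
  | empty =>
    refine ⟨s, ac_refl s, fun i => by rw [inv_mul_cancel]; exact one_mem _, s, by simp, ?_⟩
    intro P _ _ _
    simp
  | insert j U hjU ih =>
    obtain ⟨s', hac, hss', y, hy, hht⟩ := ih
    have hs' : normalClosure (Set.range s') = ⊤ := by rw [← hac.closure, hs]
    set Ho : Subgroup G := oth s' j ⊔ B with hHo
    have hkHo : L₀ ⊓ ρ.ker ≤ Ho := hker.trans le_sup_right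
    set Io : Ideal R := Lev (img ρ L₀ Ho) with hIo
    set J : Ideal R := 𝔠 * Io with hJ
    have hJc : J ≤ 𝔠 := Ideal.mul_le_left
    have hJIo : J ≤ Io := Ideal.mul_le_right
    set 𝔷 : Ideal R := U.sup fun k => ScI (ρ (y k)) with h𝔷
    obtain ⟨k, hkJ, hkP⟩ := generic 𝔷 J (ρ (s' j)) (U.card * (d * (d - 1))) (by
      intro P hP h𝔷P hJP
      refine hht P hP (fun h => hJP (hJc.trans ((Ideal.span_singleton_le_iff_mem _).2 h))) ?_
      intro k hk
      rw [Sc_iff]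
      exact (Finset.le_sup (f := fun k => ScI (ρ (y k))) hk).trans h𝔷P)
    obtain ⟨kt, hktE, hkt⟩ := EJ_lift ρ L₀ J (hJc.trans h𝔠L) hkJ
    have hktHo : kt ∈ Ho := EG_le ρ L₀ Ho hkHo J hJIo hktE
    have hktc : kt ∈ E := EG_mono ρ L₀ hJc hktE
    have hconj : (s' j)⁻¹ * kt * s' j ∈ Ho := by
      have := (inferInstance : Ho.Normal).conj_mem kt hktHo (s' j)⁻¹
      rwa [inv_inv] at this
    obtain ⟨t, ht, b, hb, htb⟩ := mem_sup_of_normal_right.1 hconj
    set s1 : Fin n → G := update s' j (s' j * t) with hs1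
    have hs1j : s1 j = kt * s' j * b⁻¹ := by
      rw [hs1, update_self]
      have h1 : t = (s' j)⁻¹ * kt * s' j * b⁻¹ := by rw [← htb]; group
      rw [h1]; group
    refine ⟨s1, hac.trans (ac_mul_oth s' j ht), ?_, update y j (kt * s' j), ?_, ?_⟩
    · intro i
      by_cases hij : i = j
      · subst hij
        rw [hs1i_aux kt (s' i) b (s i) (s1 i) hs1j]
        refine mul_mem (mul_mem (hss' i) ((le_sup_right : E ≤ B ⊔ E) ?_))
          ((le_sup_left : B ≤ B ⊔ E) (inv_mem hb))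
        have := (EG_normal ρ L₀ 𝔠).conj_mem kt hktc (s' i)⁻¹
        rwa [inv_inv] at this
      · rw [hs1, update_of_ne hij]
        exact hss' i
    · intro i hi
      by_cases hij : i = j
      · subst hij
        rw [update_self]
        have h1 : kt * s' i = s1 i * b := by rw [hs1j]; group
        rw [h1]
        exact mul_mem ((le_sup_left : normalClosure {s1 i} ≤ normalClosure {s1 i} ⊔ B)
          (subset_normalClosure (Set.mem_singleton _)))
          ((le_sup_right : B ≤ normalClosure {s1 i} ⊔ B) hb)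
      · rw [update_of_ne hij, hs1, update_of_ne hij]
        exact hy i ((Finset.mem_insert.1 hi).resolve_left hij)
    · intro P hP hcP hsc
      have hsj : ρ (kt * s' j) ∈ Sc (d := d) P := by
        have := hsc j (Finset.mem_insert_self j U)
        rwa [update_self] at this
      have hsU : ∀ k ∈ U, ρ (y k) ∈ Sc (d := d) P := by
        intro k hk
        have hkj : k ≠ j := fun h => hjU (h ▸ hk)
        have := hsc k (Finset.mem_insert_of_mem hk)
        rwa [update_of_ne hkj] at this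
      by_cases hJP : J ≤ P
      · -- the other coordinates are scalar modulo `P`
        exfalso
        have h1 : Io ≤ P := (hP.mul_le.1 hJP).resolve_left
          (fun h => hcP ((Ideal.span_singleton_le_iff_mem _).1 h))
        obtain ⟨i, hi⟩ := not_all_scalar hd ρ hE s' hs' P (fun h => hcP (h hcJ))
        apply hi
        by_cases hij : i = j
        · subst hij
          have h3 : ρ kt ∈ Sc (d := d) P := by
            rw [hkt]
            exact Kc_le_Sc hJP (EJ_le_Kc J hkJ)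
          rw [map_mul] at hsj
          have := mul_mem (inv_mem h3) hsj
          rwa [inv_mul_cancel_left] at this
        · exact sc_of_lev hd _ (isN_img ρ L₀ Ho hE) _ hΛ hcJ hcy P hP hcP h1 _
            (hyp_img ρ L₀ Ho ((le_sup_left : oth s' j ≤ Ho) (mem_oth s' hij)))
      · have h1 : 𝔷 ≤ P := Finset.sup_le fun k hk => (Sc_iff P _).1 (hsU k hk)
        have h2 := hkP P hP h1 hJP (by
          intro r q hrq
          rw [← hkt, ← map_mul]
          exact offdiag_of_Sc P _ hsj r q hrq)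
        rw [Finset.card_insert_of_notMem hjU]
        have e : (U.card + 1) * (d * (d - 1)) = U.card * (d * (d - 1)) + d * (d - 1) := by ring
        rw [e]
        exact h2

/-- **The arithmetic step.** -/
theorem arith [IsNoetherianRing R] (hd : 3 ≤ d)
    (hdim : ringKrullDim R < (((n - 1) * (d * (d - 1)) : ℕ) : WithBot ℕ∞))
    (ρ : G →* Matrix.GeneralLinearGroup (Fin d) R) {J₀ : Ideal R}
    (hE : EJ (d := d) J₀ ≤ ρ.range) (L₀ : Subgroup G) [L₀.Normal] (x : Fin n → G)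
    (hx : closure (Set.range x) = ⊤) (B : Subgroup G) [B.Normal] (hker : L₀ ⊓ ρ.ker ≤ B)
    (p : Ideal R) (hp : p.IsPrime) (h𝔠p : ¬ Lev (L₀.map ρ) ≤ p) (hJp : ¬ J₀ ≤ p)
    (hn : 0 < n) :
    ∃ c : R, c ∈ Lev (L₀.map ρ) ∧ c ∉ p ∧ ∀ s : Fin n → G, normalClosure (Set.range s) = ⊤ →
      (∀ i, (x i)⁻¹ * s i ∈ B ⊔ EG ρ L₀ (Ideal.span {c})) →
      ∃ s', AC s s' ∧ ∀ i, (x i)⁻¹ * s' i ∈ B := by
  classical
  have hΛ : IsN J₀ (L₀.map ρ) := isN_map ρ L₀ hE
  set 𝔠 : Ideal R := Lev (L₀.map ρ) with h𝔠def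
  -- the numbers `δ k`
  have hδ : ∀ k : Fin n, ∃ δ : R, δ ∉ p ∧ (ρ (x k) ∉ Sc (d := d) p →
      ∃ e ∈ EJ (d := d) J₀, ∃ c j r : Fin d, j ≠ c ∧ r ≠ c ∧ δ =
        (((e * ρ (x k) * e⁻¹)⁻¹ : Matrix.GeneralLinearGroup (Fin d) R) :
          Matrix (Fin d) (Fin d) R) j c *
        ((e * ρ (x k) * e⁻¹ : Matrix.GeneralLinearGroup (Fin d) R) :
          Matrix (Fin d) (Fin d) R) r c) := by
    intro k
    by_cases hk : ρ (x k) ∈ Sc (d := d) p
    · exact ⟨1, fun h => hp.ne_top ((Ideal.eq_top_iff_one _).2 h), fun h => absurd hk h⟩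
    · have h1 : ¬ ∀ e ∈ EJ (d := d) J₀, ∀ c j r : Fin d, j ≠ c → r ≠ c →
          (((e * ρ (x k) * e⁻¹)⁻¹ : Matrix.GeneralLinearGroup (Fin d) R) :
            Matrix (Fin d) (Fin d) R) j c *
          ((e * ρ (x k) * e⁻¹ : Matrix.GeneralLinearGroup (Fin d) R) :
            Matrix (Fin d) (Fin d) R) r c ∈ p := fun h => hk (sc_of_prod p hp hJp _ h)
      push Not at h1
      obtain ⟨e, he, c, j, r, hj, hr, hnot⟩ := h1
      exact ⟨_, hnot, fun _ => ⟨e, he, c, j, r, hj, hr, rfl⟩⟩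
  choose δ hδp hδx using hδ
  obtain ⟨β₀, hβ₀, hβ₀p⟩ : ∃ β₀ ∈ 𝔠 ⊓ J₀, β₀ ∉ p := by
    apply SetLike.not_le_iff_exists.1
    intro h
    rcases (Ideal.IsPrime.inf_le hp).1 h with h2 | h2
    · exact h𝔠p h2
    · exact hJp h2
  have hβ₀𝔠 : β₀ ∈ 𝔠 := (Submodule.mem_inf.1 hβ₀).1
  have hβ₀J : β₀ ∈ J₀ := (Submodule.mem_inf.1 hβ₀).2
  have hβy : ∀ (i j : Fin d) (h : i ≠ j) (a : R), tv i j h (β₀ * a) ∈ L₀.map ρ :=
    fun i j h a => tv_of_mem_Lev (Ideal.mul_mem_right a 𝔠 hβ₀𝔠) i j h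
  set β : R := β₀ ^ 6 with hβdef
  have hβ𝔠 : β ∈ 𝔠 := Ideal.pow_mem_of_mem _ hβ₀𝔠 6 (by norm_num)
  have hβJ : β ∈ J₀ := Ideal.pow_mem_of_mem _ hβ₀J 6 (by norm_num)
  have hβp : β ∉ p := fun h => hβ₀p (hp.mem_of_pow_mem 6 h)
  set Γ : R := β * ∏ k, δ k with hΓ
  have hΓ𝔠 : Γ ∈ 𝔠 := Ideal.mul_mem_right _ _ hβ𝔠
  have hΓJ : Γ ∈ J₀ := Ideal.mul_mem_right _ _ hβJ
  have hΓp : Γ ∉ p := by
    intro h
    rcases hp.mem_or_mem h with h1 | h1
    · exact hβp h1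
    · obtain ⟨k, -, hk⟩ := (Ideal.IsPrime.prod_mem_iff (hp := hp)).1 h1
      exact hδp k hk
  have hcL : Γ ^ 2 ∈ 𝔠 := Ideal.pow_mem_of_mem _ hΓ𝔠 2 (by norm_num)
  have hcJ : Γ ^ 2 ∈ J₀ := Ideal.pow_mem_of_mem _ hΓJ 2 (by norm_num)
  have hcy : ∀ (i j : Fin d) (h : i ≠ j) (a : R), tv i j h (Γ ^ 2 * a) ∈ L₀.map ρ :=
    fun i j h a => tv_of_mem_Lev (Ideal.mul_mem_right a 𝔠 hcL) i j h
  refine ⟨Γ ^ 2, hcL, fun h => hΓp (hp.mem_of_pow_mem 2 h), ?_⟩
  intro s hs hsx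
  set c : Ideal R := Ideal.span {Γ ^ 2} with hc
  set E : Subgroup G := EG ρ L₀ c with hEdef
  -- a normal subgroup which contains an element congruent to `x j`
  have hstar : ∀ (H : Subgroup G) [H.Normal], B ≤ H → ∀ j, ρ (x j) ∉ Sc (d := d) p →
      ∀ e' ∈ E, x j * e' ∈ H → ∃ w, Γ + Γ ^ 2 * w ∈ Lev (img ρ L₀ H) := by
    intro H hHn hBH j hxj e' he' hH
    obtain ⟨e, he, q, j', r, hj', hr, hδe⟩ := hδx j hxj
    have h1 := star hd _ (isN_img ρ L₀ H hE) _ hβ₀J hβy _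
      (hyp_conj _ (isN_img ρ L₀ H hE) _ hΛ _ (hyp_img ρ L₀ H hH) he) q j' r hj' hr
    have h2 : (ρ (x j))⁻¹ * ρ (x j * e') ∈ Kc (d := d) c := by
      rw [map_mul, inv_mul_cancel_left]
      exact EG_le_Kc ρ L₀ c he'
    have h3 := prod_cong c e _ _ h2 q j' r
    rw [← hδe] at h3
    obtain ⟨w, hw⟩ := Ideal.mem_span_singleton'.1 h3
    set δ' := (((e * ρ (x j * e') * e⁻¹)⁻¹ : Matrix.GeneralLinearGroup (Fin d) R) :
      Matrix (Fin d) (Fin d) R) j' q * ((e * ρ (x j * e') * e⁻¹ :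
      Matrix.GeneralLinearGroup (Fin d) R) : Matrix (Fin d) (Fin d) R) r q with hδ'
    have h4 : δ' = δ j + Γ ^ 2 * w := by rw [mul_comm, hw]; ring
    set δ'' : R := ∏ k ∈ Finset.univ.erase j, δ k with hδ''
    have h5 : β * (δ'' * δ j) = Γ := by
      rw [hδ'', hΓ, Finset.prod_erase_mul _ _ (Finset.mem_univ j)]
    refine ⟨β * δ'' * w, ?_⟩
    have h6 : Γ + Γ ^ 2 * (β * δ'' * w) = δ'' * (β * δ') := by
      rw [h4]
      calc Γ + Γ ^ 2 * (β * δ'' * w) = β * (δ'' * δ j) + Γ ^ 2 * (β * δ'' * w) := by rw [h5]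
        _ = δ'' * (β * (δ j + Γ ^ 2 * w)) := by ring
    rw [h6]
    exact Ideal.mul_mem_left _ _ h1
  have hstar0 : ∀ (H : Subgroup G) [H.Normal], B ≤ H → ∀ j, ρ (x j) ∉ Sc (d := d) p →
      x j ∈ H → E ≤ H := by
    intro H hHn hBH j hxj hH
    obtain ⟨e, he, q, j', r, hj', hr, hδe⟩ := hδx j hxj
    have h1 := star hd _ (isN_img ρ L₀ H hE) _ hβ₀J hβy _
      (hyp_conj _ (isN_img ρ L₀ H hE) _ hΛ _ (hyp_img ρ L₀ H hH) he) q j' r hj' hr
    rw [← hδe] at h1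
    have h2 : Γ = (∏ k ∈ Finset.univ.erase j, δ k) * (β * δ j) := by
      rw [hΓ, ← Finset.prod_erase_mul _ _ (Finset.mem_univ j)]; ring
    have h3 : Γ ∈ Lev (img ρ L₀ H) := by
      rw [h2]
      exact Ideal.mul_mem_left _ _ h1
    exact EG_le ρ L₀ H (hker.trans hBH) c (by
      rw [hc, Ideal.span_singleton_le_iff_mem]
      exact Ideal.pow_mem_of_mem _ h3 2 (by norm_num))
  -- choose the indices
  obtain ⟨i₀, -, hxi⟩ := two_nonscalar hd ρ hE x hx p hp hJp ⟨0, hn⟩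
  obtain ⟨j, hji, hxj⟩ := two_nonscalar hd ρ hE x hx p hp hJp i₀
  obtain ⟨s1, hac1, hss1, y, hy, hht⟩ :=
    gen_pos hd ρ hE L₀ B hker hcL hcJ s hs (Finset.univ.erase i₀)
  have hsx1 : ∀ k, (x k)⁻¹ * s1 k ∈ B ⊔ E := by
    intro k
    have e : (x k)⁻¹ * s1 k = ((x k)⁻¹ * s k) * ((s k)⁻¹ * s1 k) := by group
    rw [e]
    exact mul_mem (hsx k) (hss1 k)
  -- the normal closure of the coordinates but the `i₀`-th
  set H : Subgroup G := oth s1 i₀ ⊔ B with hH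
  have hBH : B ≤ H := le_sup_right
  have hkH : L₀ ⊓ ρ.ker ≤ H := hker.trans hBH
  set LH : Ideal R := Lev (img ρ L₀ H) with hLH
  have hrad : Γ ∈ LH.radical := by
    rw [Ideal.radical_eq_sInf, Ideal.mem_sInf]
    rintro P ⟨hPL, hPp⟩
    by_contra hΓP
    have hcP : Γ ^ 2 ∉ P := fun h => hΓP (hPp.mem_of_pow_mem 2 h)
    refine height_lt hdim P hPp ?_
    have h1 := hht P hPp hcP (by
      intro k hk
      have hki : k ≠ i₀ := Finset.ne_of_mem_erase hk
      have hyH : y k ∈ H := by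
        refine (sup_le ?_ hBH : normalClosure {s1 k} ⊔ B ≤ H) (hy k hk)
        apply normalClosure_le_normal
        rintro _ rfl
        exact (le_sup_left : oth s1 i₀ ≤ H) (mem_oth s1 hki)
      exact sc_of_lev hd _ (isN_img ρ L₀ H hE) _ hΛ hcJ hcy P hPp hcP hPL _
        (hyp_img ρ L₀ H hyH))
    rw [Finset.card_erase_of_mem (Finset.mem_univ i₀), Finset.card_univ, Fintype.card_fin] at h1
    exact h1
  obtain ⟨N, hN⟩ := hrad
  have hΓH : Γ ∈ LH := by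
    have h1 : (x j)⁻¹ * s1 j ∈ E ⊔ B := by rw [sup_comm]; exact hsx1 j
    obtain ⟨e', he', b', hb', heb⟩ := mem_sup_of_normal_right.1 h1
    have hxH : x j * e' ∈ H := by
      have h2 : x j * e' = s1 j * b'⁻¹ := by
        have h3 : e' = (x j)⁻¹ * s1 j * b'⁻¹ := by rw [← heb]; group
        rw [h3]; group
      rw [h2]
      exact mul_mem ((le_sup_left : oth s1 i₀ ≤ H) (mem_oth s1 hji)) (hBH (inv_mem hb'))
    obtain ⟨w, hw⟩ := hstar H hBH j hxj e' he' hxH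
    exact mem_of_pow LH Γ w N hN hw
  have hEH : E ≤ H := EG_le ρ L₀ H hkH c (by
    rw [hc, Ideal.span_singleton_le_iff_mem]
    exact Ideal.pow_mem_of_mem _ hΓH 2 (by norm_num))
  -- fix the `i₀`-th coordinate
  obtain ⟨g₀, hg₀, hac2⟩ := step_rel x s1 i₀ (B ⊔ E) B (hsx1 i₀) (sup_le hBH hEH)
  -- and then the others
  have hEg : E ≤ normalClosure {g₀} ⊔ B := by
    refine hstar0 _ le_sup_right i₀ hxi ?_
    have h1 : x i₀ = g₀ * ((x i₀)⁻¹ * g₀)⁻¹ := by group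
    rw [h1]
    exact mul_mem ((le_sup_left : normalClosure {g₀} ≤ normalClosure {g₀} ⊔ B)
      (subset_normalClosure (Set.mem_singleton _)))
      ((le_sup_right : B ≤ normalClosure {g₀} ⊔ B) (inv_mem hg₀))
  obtain ⟨w, hw, hwQ⟩ := fix_all
    (P := fun k g => (x k)⁻¹ * g ∈ B ⊔ E ∧ (k = i₀ → g = g₀))
    (Q := fun k g => ((x k)⁻¹ * g ∈ B ⊔ E ∧ (k = i₀ → g = g₀)) ∧ (x k)⁻¹ * g ∈ B)
    (fun k g h => h.1) (by
      intro u hu k
      by_cases hki : k = i₀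
      · subst hki
        refine ⟨u k, ⟨hu k, ?_⟩, ?_⟩
        · rw [(hu k).2 rfl]; exact hg₀
        · rw [update_eq_self]
          exact ac_refl u
      · have hui : u i₀ = g₀ := (hu i₀).2 rfl
        have hle : B ⊔ E ≤ oth u k ⊔ B := by
          refine sup_le le_sup_right (hEg.trans (sup_le ?_ le_sup_right))
          apply normalClosure_le_normal
          rintro _ rfl
          rw [← hui]
          exact (le_sup_left : oth u k ≤ oth u k ⊔ B) (mem_oth u (fun h => hki h.symm))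
        obtain ⟨g, hg, hgac⟩ := step_rel x u k (B ⊔ E) B (hu k).1 hle
        exact ⟨g, ⟨⟨(le_sup_left : B ≤ B ⊔ E) hg, fun h => absurd h hki⟩, hg⟩, hgac⟩)
    (update s1 i₀ g₀) (by
      intro k
      by_cases hki : k = i₀
      · subst hki
        rw [update_self]
        exact ⟨(le_sup_left : B ≤ B ⊔ E) hg₀, fun _ => rfl⟩
      · rw [update_of_ne hki]
        exact ⟨hsx1 k, fun h => absurd h hki⟩)
  exact ⟨w, (hac1.trans hac2).trans hw, fun k => (hwQ k).2⟩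

end Pool.Agent.ACQ
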