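import Pool.Agent.Lib_helper44.ACQ.Defs

/-!
# Andrews-Curtis moves on tuples of elements of a group
-/

set_option autoImplicit false

namespace Pool.Agent.ACQ

open Function Subgroup

universe u

variable {G : Type u} [Group G] {n : ℕ}

theorem ac_refl (v : Fin n → G) : AC v v := Relation.EqvGen.refl v

theorem AC.symm {v w : Fin n → G} (h : AC v w) : AC w v := Relation.EqvGen.symm _ _ h

theorem AC.trans {u v w : Fin n → G} (h : AC u v) (h' : AC v w) : AC u w :=
  Relation.EqvGen.trans _ _ _ h h'

theorem Move.ac {v w : Fin n → G} (h : Move v w) : AC v w := Relation.EqvGen.rel _ _ h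

instance oth_normal (v : Fin n → G) (i : Fin n) : (oth v i).Normal := normalClosure_normal

theorem mem_oth (v : Fin n → G) {i j : Fin n} (h : j ≠ i) : v j ∈ oth v i :=
  subset_normalClosure ⟨j, h, rfl⟩

theorem ac_conj (v : Fin n → G) (i : Fin n) (g : G) : AC v (update v i (g * v i * g⁻¹)) :=
  (Move.conj v i g).ac

/-- multiply the `i`-th coordinate by a conjugate of another one -/
theorem ac_mul_conj (v : Fin n → G) {i j : Fin n} (h : j ≠ i) (g a : G) :
    AC (update v i a) (update v i (a * (g * v j * g⁻¹))) := by
  have h1 := (Move.conj (update v i a) j g).ac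
  rw [update_of_ne h] at h1
  have h2 := (Move.mul (update (update v i a) j (g * v j * g⁻¹)) i j h.symm).ac
  rw [update_of_ne h.symm, update_self, update_self] at h2
  have h3 := (Move.conj (update (update (update v i a) j (g * v j * g⁻¹)) i
    (a * (g * v j * g⁻¹))) j g⁻¹).ac
  rw [update_of_ne h, update_self] at h3
  have h4 : g⁻¹ * (g * v j * g⁻¹) * g⁻¹⁻¹ = v j := by group
  rw [h4] at h3
  have h5 : update (update (update (update v i a) j (g * v j * g⁻¹)) i
      (a * (g * v j * g⁻¹))) j (v j) = update v i (a * (g * v j * g⁻¹)) := by
    funext k
    by_cases hk : k = j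
    · subst hk
      rw [update_self, update_of_ne h]
    · rw [update_of_ne hk]
      by_cases hki : k = i
      · subst hki
        rw [update_self, update_self]
      · rw [update_of_ne hki, update_of_ne hk, update_of_ne hki, update_of_ne hki]
  rw [h5] at h3
  exact (h1.trans h2).trans h3

theorem ac_mul_oth' (v : Fin n → G) (i : Fin n) {t : G} (ht : t ∈ oth v i) :
    ∀ a : G, AC (update v i a) (update v i (a * t)) := by
  unfold oth normalClosure at ht
  induction ht using closure_induction with
  | mem t ht =>
    intro a
    obtain ⟨s, ⟨j, hj, rfl⟩, hs⟩ := Group.mem_conjugatesOfSet_iff.1 ht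
    obtain ⟨g, hg⟩ := isConj_iff.1 hs
    rw [← hg]
    exact ac_mul_conj v hj g a
  | one => intro a; rw [mul_one]; exact ac_refl _
  | mul s t _ _ h1 h2 =>
    intro a
    rw [← mul_assoc]
    exact (h1 a).trans (h2 _)
  | inv t _ h =>
    intro a
    have := h (a * t⁻¹)
    rw [inv_mul_cancel_right] at this
    exact this.symm

/-- the `i`-th coordinate may be multiplied by anything in the normal closure of the others -/
theorem ac_mul_oth (v : Fin n → G) (i : Fin n) {t : G} (ht : t ∈ oth v i) :
    AC v (update v i (v i * t)) := by
  have := ac_mul_oth' v i ht (v i)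
  rwa [update_eq_self] at this

/-- replace the `i`-th coordinate by `b` if `(v i)⁻¹ * b` lies in the normal closure of the others -/
theorem ac_set (v : Fin n → G) (i : Fin n) {b : G} (hb : (v i)⁻¹ * b ∈ oth v i) :
    AC v (update v i b) := by
  have := ac_mul_oth v i hb
  rwa [mul_inv_cancel_left] at this

theorem move_closure {v w : Fin n → G} (h : Move v w) :
    normalClosure (Set.range v) = normalClosure (Set.range w) := by
  cases h with
  | mul i j hij =>
    apply le_antisymm
    · apply normalClosure_le_normal
      rintro _ ⟨k, rfl⟩
      by_cases hk : k = i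
      · subst hk
        have h1 : update v k (v k * v j) k ∈ normalClosure (Set.range (update v k (v k * v j))) :=
          subset_normalClosure ⟨k, rfl⟩
        have h2 : update v k (v k * v j) j ∈ normalClosure (Set.range (update v k (v k * v j))) :=
          subset_normalClosure ⟨j, rfl⟩
        rw [update_self] at h1
        rw [update_of_ne hij.symm] at h2
        have := mul_mem h1 (inv_mem h2)
        rwa [mul_inv_cancel_right] at this
      · have h1 : update v i (v i * v j) k ∈ normalClosure (Set.range (update v i (v i * v j))) :=
          subset_normalClosure ⟨k, rfl⟩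
        rwa [update_of_ne hk] at h1
    · apply normalClosure_le_normal
      rintro _ ⟨k, rfl⟩
      by_cases hk : k = i
      · subst hk
        rw [update_self]
        exact mul_mem (subset_normalClosure (Set.mem_range_self k))
          (subset_normalClosure (Set.mem_range_self j))
      · rw [update_of_ne hk]
        exact subset_normalClosure (Set.mem_range_self k)
  | inv i =>
    apply le_antisymm
    · apply normalClosure_le_normal
      rintro _ ⟨k, rfl⟩
      by_cases hk : k = i
      · subst hk
        have h1 : update v k (v k)⁻¹ k ∈ normalClosure (Set.range (update v k (v k)⁻¹)) :=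
          subset_normalClosure ⟨k, rfl⟩
        rw [update_self] at h1
        exact inv_mem_iff.1 h1
      · have h1 : update v i (v i)⁻¹ k ∈ normalClosure (Set.range (update v i (v i)⁻¹)) :=
          subset_normalClosure ⟨k, rfl⟩
        rwa [update_of_ne hk] at h1
    · apply normalClosure_le_normal
      rintro _ ⟨k, rfl⟩
      by_cases hk : k = i
      · subst hk
        rw [update_self]
        exact inv_mem (subset_normalClosure (Set.mem_range_self k))
      · rw [update_of_ne hk]
        exact subset_normalClosure (Set.mem_range_self k)
  | conj i g =>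
    apply le_antisymm
    · apply normalClosure_le_normal
      rintro _ ⟨k, rfl⟩
      by_cases hk : k = i
      · subst hk
        have h1 : update v k (g * v k * g⁻¹) k ∈
            normalClosure (Set.range (update v k (g * v k * g⁻¹))) :=
          subset_normalClosure ⟨k, rfl⟩
        rw [update_self] at h1
        have := normalClosure_normal.conj_mem _ h1 g⁻¹
        have h2 : g⁻¹ * (g * v k * g⁻¹) * g⁻¹⁻¹ = v k := by group
        rwa [h2] at this
      · have h1 : update v i (g * v i * g⁻¹) k ∈
            normalClosure (Set.range (update v i (g * v i * g⁻¹))) :=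
          subset_normalClosure ⟨k, rfl⟩
        rwa [update_of_ne hk] at h1
    · apply normalClosure_le_normal
      rintro _ ⟨k, rfl⟩
      by_cases hk : k = i
      · subst hk
        rw [update_self]
        exact normalClosure_normal.conj_mem _ (subset_normalClosure (Set.mem_range_self k)) g
      · rw [update_of_ne hk]
        exact subset_normalClosure (Set.mem_range_self k)

theorem AC.closure {v w : Fin n → G} (h : AC v w) :
    normalClosure (Set.range v) = normalClosure (Set.range w) := by
  induction h with
  | rel _ _ h => exact move_closure h
  | refl _ => rfl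
  | symm _ _ _ h => exact h.symm
  | trans _ _ _ _ _ h1 h2 => exact h1.trans h2

/-- Andrews-Curtis moves lift along surjective homomorphisms -/
theorem ac_lift {H : Type u} [Group H] (f : G →* H) (hf : Surjective f) {a b : Fin n → H}
    (h : AC a b) :
    (∀ v : Fin n → G, (fun i => f (v i)) = a → ∃ w, AC v w ∧ (fun i => f (w i)) = b) ∧
    (∀ w : Fin n → G, (fun i => f (w i)) = b → ∃ v, AC w v ∧ (fun i => f (v i)) = a) := by
  have hup : ∀ (v : Fin n → G) (i : Fin n) (c : G),
      (fun k => f (update v i c k)) = update (fun k => f (v k)) i (f c) := by
    intro v i c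
    funext k
    by_cases hk : k = i
    · subst hk; simp
    · rw [update_of_ne hk, update_of_ne hk]
  induction h with
  | rel a b h =>
    cases h with
    | mul i j hij =>
      constructor
      · rintro v rfl
        exact ⟨_, (Move.mul v i j hij).ac, by rw [hup, map_mul]⟩
      · intro w hw
        have hj : f (w j) = a j := by
          have := congrFun hw j
          rwa [update_of_ne hij.symm] at this
        have hi : f (w i) = a i * a j := by
          have := congrFun hw i
          rwa [update_self] at this
        refine ⟨update w i (w i * (w j)⁻¹), ?_, ?_⟩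
        · exact ac_mul_oth w i (inv_mem (mem_oth w hij.symm))
        · rw [hup, hw, map_mul, map_inv, hi, hj, mul_inv_cancel_right, update_idem,
            update_eq_self]
    | inv i =>
      constructor
      · rintro v rfl
        exact ⟨_, (Move.inv v i).ac, by rw [hup, map_inv]⟩
      · intro w hw
        have hi : f (w i) = (a i)⁻¹ := by
          have := congrFun hw i
          rwa [update_self] at this
        refine ⟨_, (Move.inv w i).ac, ?_⟩
        rw [hup, hw, map_inv, hi, inv_inv, update_idem, update_eq_self]
    | conj i g =>
      obtain ⟨g', rfl⟩ := hf g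
      constructor
      · rintro v rfl
        exact ⟨_, (Move.conj v i g').ac, by rw [hup, map_mul, map_mul, map_inv]⟩
      · intro w hw
        have hi : f (w i) = f g' * a i * (f g')⁻¹ := by
          have := congrFun hw i
          rwa [update_self] at this
        refine ⟨_, (Move.conj w i g'⁻¹).ac, ?_⟩
        rw [hup, hw, map_mul, map_mul, map_inv, hi, update_idem]
        have : (f g')⁻¹ * (f g' * a i * (f g')⁻¹) * f g'⁻¹⁻¹ = a i := by
          rw [inv_inv]; group
        rw [this, update_eq_self]
  | refl a => exact ⟨fun v hv => ⟨v, ac_refl _, hv⟩, fun w hw => ⟨w, ac_refl _, hw⟩⟩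
  | symm a b _ h => exact ⟨h.2, h.1⟩
  | trans a b c _ _ h1 h2 =>
    constructor
    · intro v hv
      obtain ⟨w, hw, hw'⟩ := h1.1 v hv
      obtain ⟨z, hz, hz'⟩ := h2.1 w hw'
      exact ⟨z, hw.trans hz, hz'⟩
    · intro z hz
      obtain ⟨w, hw, hw'⟩ := h2.2 z hz
      obtain ⟨v, hv, hv'⟩ := h1.2 w hw'
      exact ⟨v, hw.trans hv, hv'⟩

end Pool.Agent.ACQ
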