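import Mathlib

/-!
# Andrews-Curtis moves on tuples of elements of a group: definitions
-/

set_option autoImplicit false

namespace Pool.Agent.ACQ

open Function Subgroup

universe u w

/-- The elementary Andrews-Curtis moves on `n`-tuples of elements of a group `G`: multiply one
coordinate by another one, invert a coordinate, conjugate a coordinate by an element of `G`. -/
inductive Move {G : Type u} [Group G] {n : ℕ} : (Fin n → G) → (Fin n → G) → Prop
  | mul (v : Fin n → G) (i j : Fin n) (h : i ≠ j) : Move v (update v i (v i * v j))
  | inv (v : Fin n → G) (i : Fin n) : Move v (update v i (v i)⁻¹)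
  | conj (v : Fin n → G) (i : Fin n) (g : G) : Move v (update v i (g * v i * g⁻¹))

/-- Andrews-Curtis equivalence: the equivalence relation generated by the moves. -/
def AC {G : Type u} [Group G] {n : ℕ} (v w : Fin n → G) : Prop := Relation.EqvGen Move v w

/-- the normal closure of all coordinates except the `i`-th -/
def oth {G : Type u} [Group G] {n : ℕ} (v : Fin n → G) (i : Fin n) : Subgroup G :=
  normalClosure {g | ∃ j, j ≠ i ∧ v j = g}

/-- The three kinds of harmless layers `K / M` (`M`, `K` normal subgroups, `M ≤ K`): `K / M` is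
abelian, or there is no normal subgroup strictly between `M` and `K`, or `K` is inessential over
`M`: for all `i`, every normal subgroup `X` containing `M` such that `X K = R_i K` contains `K`,
where `R_i` is the normal closure of all `x j`, `j ≠ i`. -/
def Layer {G : Type u} [Group G] {n : ℕ} (x : Fin n → G) (M K : Subgroup G) : Prop :=
  ⁅K, K⁆ ≤ M ∨
  (∀ X : Subgroup G, X.Normal → M ≤ X → X ≤ K → X = M ∨ X = K) ∨
  (∀ i, ∀ X : Subgroup G, X.Normal → M ≤ X → X ⊔ K = oth x i ⊔ K → K ≤ X)

/-- the elementary group `E_d(R)`: the subgroup of `GL_d(R)` generated by the matrices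
`1 + c e_ij`, `i ≠ j`, `c ∈ R` -/
def ElemGroup (d : ℕ) (R : Type w) [CommRing R] :
    Subgroup (Matrix.GeneralLinearGroup (Fin d) R) :=
  closure {g | ∃ i j : Fin d, i ≠ j ∧ ∃ c : R,
    (g : Matrix (Fin d) (Fin d) R) = 1 + Matrix.single i j c}

end Pool.Agent.ACQ
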