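import Pool.Agent.Lib_helper44.ACQ.Defs

/-!
# Elementary matrices and levels
-/

set_option autoImplicit false

namespace Pool.Agent.ACQ

open Function Subgroup Matrix
open scoped commutatorElement

universe w

variable {d : ℕ} {R : Type w} [CommRing R]

/-- the unipotent element `1 + a b` (column `a`, row `b`, with `b a = 0`) -/
def rk (a b : Fin d → R) (h : b ⬝ᵥ a = 0) : Matrix.GeneralLinearGroup (Fin d) R where
  val := 1 + vecMulVec a b
  inv := 1 - vecMulVec a b
  val_inv := by
    rw [add_mul, one_mul, mul_sub, mul_one, vecMulVec_mul_vecMulVec, h, zero_smul,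
      vecMulVec_zero, sub_zero]
    abel
  inv_val := by
    rw [sub_mul, one_mul, mul_add, mul_one, vecMulVec_mul_vecMulVec, h, zero_smul,
      vecMulVec_zero, add_zero]
    abel

theorem coe_rk (a b : Fin d → R) (h : b ⬝ᵥ a = 0) :
    ((rk a b h : Matrix.GeneralLinearGroup (Fin d) R) : Matrix (Fin d) (Fin d) R) =
      1 + vecMulVec a b := rfl

theorem coe_rk_inv (a b : Fin d → R) (h : b ⬝ᵥ a = 0) :
    (((rk a b h)⁻¹ : Matrix.GeneralLinearGroup (Fin d) R) : Matrix (Fin d) (Fin d) R) =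
      1 - vecMulVec a b := rfl

theorem rk_congr {a b a' b' : Fin d → R} (h : b ⬝ᵥ a = 0) (ha : a = a') (hb : b = b') :
    rk a b h = rk a' b' (by rw [← ha, ← hb]; exact h) := by
  subst ha; subst hb; rfl

theorem rk_mul_left (a b b' : Fin d → R) (h : b ⬝ᵥ a = 0) (h' : b' ⬝ᵥ a = 0) :
    rk a b h * rk a b' h' = rk a (b + b') (by rw [add_dotProduct, h, h', add_zero]) := by
  apply Units.ext
  rw [Units.val_mul, coe_rk, coe_rk, coe_rk, add_mul, one_mul, mul_add, mul_one,
    vecMulVec_mul_vecMulVec, h, zero_smul, vecMulVec_zero, vecMulVec_add]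
  abel

theorem rk_mul_right (a a' b : Fin d → R) (h : b ⬝ᵥ a = 0) (h' : b ⬝ᵥ a' = 0) :
    rk a b h * rk a' b h' = rk (a + a') b (by rw [dotProduct_add, h, h', add_zero]) := by
  apply Units.ext
  rw [Units.val_mul, coe_rk, coe_rk, coe_rk, add_mul, one_mul, mul_add, mul_one,
    vecMulVec_mul_vecMulVec, h', zero_smul, vecMulVec_zero, add_vecMulVec]
  abel

theorem conj_rk (g : Matrix.GeneralLinearGroup (Fin d) R) (a b : Fin d → R) (h : b ⬝ᵥ a = 0) :
    g * rk a b h * g⁻¹ =
      rk ((g : Matrix (Fin d) (Fin d) R) *ᵥ a)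
        (b ᵥ* ((g⁻¹ : Matrix.GeneralLinearGroup (Fin d) R) : Matrix (Fin d) (Fin d) R))
        (by
          rw [dotProduct_mulVec, vecMul_vecMul, ← Units.val_mul, inv_mul_cancel, Units.val_one,
            vecMul_one]
          exact h) := by
  apply Units.ext
  rw [Units.val_mul, Units.val_mul, coe_rk, coe_rk, mul_add, add_mul, mul_one, ← Units.val_mul,
    mul_inv_cancel, Units.val_one, mul_vecMulVec, vecMulVec_mul]

/-- the commutator of `1 + u e` and `1 + f z` is `1 + u z` if `e f = 1` and the other three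
products vanish -/
theorem comm_rk (u e f z : Fin d → R) (h1 : e ⬝ᵥ u = 0) (h2 : z ⬝ᵥ f = 0) (h3 : z ⬝ᵥ u = 0)
    (h4 : e ⬝ᵥ f = 1) :
    rk u e h1 * rk f z h2 * (rk u e h1)⁻¹ * (rk f z h2)⁻¹ = rk u z h3 := by
  rw [conj_rk]
  apply Units.ext
  rw [Units.val_mul, coe_rk, coe_rk_inv, coe_rk, coe_rk, coe_rk_inv]
  have e1 : (1 + vecMulVec u e) *ᵥ f = f + u := by
    rw [add_mulVec, one_mulVec, vecMulVec_mulVec, h4]; simp
  have e2 : z ᵥ* (1 - vecMulVec u e) = z := by
    rw [vecMul_sub, vecMul_one, vecMul_vecMulVec, h3, zero_smul, sub_zero]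
  rw [e1, e2, add_vecMulVec, add_mul, one_mul, add_mul, mul_sub, mul_one, mul_sub, mul_one,
    vecMulVec_mul_vecMulVec, vecMulVec_mul_vecMulVec, h2, zero_smul, vecMulVec_zero,
    vecMulVec_zero]
  abel

/-- elementary matrices `1 + c e_ij` -/
def tv (i j : Fin d) (h : i ≠ j) (c : R) : Matrix.GeneralLinearGroup (Fin d) R :=
  rk (Pi.single i c) (Pi.single j 1) (by
    rw [single_one_dotProduct, Pi.single_eq_of_ne h.symm])

theorem coe_tv (i j : Fin d) (h : i ≠ j) (c : R) :
    ((tv i j h c : Matrix.GeneralLinearGroup (Fin d) R) : Matrix (Fin d) (Fin d) R) =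
      1 + Matrix.single i j c := by
  unfold tv
  rw [coe_rk]
  congr 1
  ext a b
  rw [vecMulVec_apply, Matrix.single_apply]
  by_cases h1 : a = i
  · subst h1
    by_cases h2 : b = j
    · subst h2; simp
    · simp [Pi.single_eq_of_ne h2, Ne.symm h2]
  · simp [Pi.single_eq_of_ne h1, Ne.symm h1]

theorem tv_add (i j : Fin d) (h : i ≠ j) (a b : R) :
    tv i j h a * tv i j h b = tv i j h (a + b) := by
  unfold tv
  rw [rk_mul_right]
  apply rk_congr _ _ rfl
  rw [← Pi.single_add]

theorem tv_zero (i j : Fin d) (h : i ≠ j) : tv i j h (0 : R) = 1 := by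
  apply Units.ext
  rw [coe_tv]
  simp

theorem tv_inv (i j : Fin d) (h : i ≠ j) (a : R) : (tv i j h a)⁻¹ = tv i j h (-a) := by
  rw [inv_eq_iff_mul_eq_one, tv_add, add_neg_cancel, tv_zero]

theorem tv_comm (i j k : Fin d) (hij : i ≠ j) (hjk : j ≠ k) (hik : i ≠ k) (a c : R) :
    tv i j hij a * tv j k hjk c * (tv i j hij a)⁻¹ * (tv j k hjk c)⁻¹ = tv i k hik (a * c) := by
  have h1 : tv j k hjk c = rk (Pi.single j 1) (Pi.single k c) (by
      rw [single_dotProduct, Pi.single_eq_of_ne hjk.symm, mul_zero]) := by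
    unfold tv
    apply Units.ext
    rw [coe_rk, coe_rk]
    congr 1
    ext a b
    simp only [vecMulVec_apply, Pi.single_apply]
    split_ifs <;> simp
  have h2 : tv i k hik (a * c) = rk (Pi.single i a) (Pi.single k c) (by
      rw [single_dotProduct, Pi.single_eq_of_ne hik.symm, mul_zero]) := by
    unfold tv
    apply Units.ext
    rw [coe_rk, coe_rk]
    congr 1
    ext a b
    simp only [vecMulVec_apply, Pi.single_apply]
    split_ifs <;> simp
  rw [h1, h2]
  unfold tv
  apply comm_rk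
  rw [single_dotProduct, Pi.single_eq_same, mul_one]

/-- the elementary group -/
def El (d : ℕ) (R : Type w) [CommRing R] : Subgroup (Matrix.GeneralLinearGroup (Fin d) R) :=
  closure {g | ∃ (i j : Fin d) (h : i ≠ j) (c : R), g = tv i j h c}

theorem tv_mem (i j : Fin d) (h : i ≠ j) (c : R) : tv i j h c ∈ El d R :=
  subset_closure ⟨i, j, h, c, rfl⟩

theorem ElemGroup_eq (d : ℕ) (R : Type w) [CommRing R] : ElemGroup d R = El d R := by
  unfold ElemGroup El
  congr 1
  ext g
  constructor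
  · rintro ⟨i, j, h, c, hg⟩
    exact ⟨i, j, h, c, Units.ext (by rw [hg, coe_tv])⟩
  · rintro ⟨i, j, h, c, rfl⟩
    exact ⟨i, j, h, c, coe_tv i j h c⟩

/-- group generated by the elementary matrices with entries in the ideal `J` -/
def EJ (J : Ideal R) : Subgroup (Matrix.GeneralLinearGroup (Fin d) R) :=
  closure {t | ∃ (i j : Fin d) (h : i ≠ j), ∃ c ∈ J, t = tv i j h c}

theorem tv_mem_EJ {J : Ideal R} {c : R} (hc : c ∈ J) (i j : Fin d) (h : i ≠ j) :
    tv i j h c ∈ EJ (d := d) J := subset_closure ⟨i, j, h, c, hc, rfl⟩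

theorem EJ_mono {J K : Ideal R} (h : J ≤ K) : EJ (d := d) J ≤ EJ (d := d) K := by
  unfold EJ
  apply Subgroup.closure_mono
  rintro _ ⟨i, j, hij, c, hc, rfl⟩
  exact ⟨i, j, hij, c, h hc, rfl⟩

theorem EJ_le_El (J : Ideal R) : EJ (d := d) J ≤ El d R := by
  unfold EJ
  rw [closure_le]
  rintro _ ⟨i, j, hij, c, -, rfl⟩
  exact tv_mem i j hij c

theorem El_eq_EJ_top : El d R = EJ (d := d) (⊤ : Ideal R) := by
  apply le_antisymm _ (EJ_le_El _)
  conv_lhs => unfold El
  rw [closure_le]
  rintro _ ⟨i, j, hij, c, rfl⟩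
  exact tv_mem_EJ Submodule.mem_top i j hij

/-- `H` is normalised by the elementary matrices with entries in the ideal `J` -/
def IsN (J : Ideal R) (H : Subgroup (Matrix.GeneralLinearGroup (Fin d) R)) : Prop :=
  ∀ e ∈ EJ (d := d) J, ∀ h ∈ H, e * h * e⁻¹ ∈ H

theorem third (hd : 3 ≤ d) (i j : Fin d) : ∃ k : Fin d, k ≠ i ∧ k ≠ j := by
  by_contra hcon
  push Not at hcon
  have h1 : (Finset.univ : Finset (Fin d)) ⊆ {i, j} := by
    intro k _
    by_cases hk : k = i
    · simp [hk]
    · simp [hcon k hk]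
  have h2 := Finset.card_le_card h1
  rw [Finset.card_univ, Fintype.card_fin] at h2
  have h3 := Finset.card_le_two (a := i) (b := j)
  omega

/-- the level of a subgroup -/
def Lev (H : Subgroup (Matrix.GeneralLinearGroup (Fin d) R)) : Ideal R where
  carrier := {a | ∀ (r : R) (i j : Fin d) (h : i ≠ j), tv i j h (r * a) ∈ H}
  zero_mem' := fun r i j h => by rw [mul_zero, tv_zero]; exact one_mem H
  add_mem' := fun {a b} ha hb r i j h => by
    rw [mul_add, ← tv_add]; exact mul_mem (ha r i j h) (hb r i j h)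
  smul_mem' := fun c a ha r i j h => by
    rw [smul_eq_mul, ← mul_assoc]; exact ha (r * c) i j h

theorem mem_Lev {H : Subgroup (Matrix.GeneralLinearGroup (Fin d) R)}
    {a : R} : a ∈ Lev H ↔ ∀ (r : R) (i j : Fin d) (h : i ≠ j), tv i j h (r * a) ∈ H := Iff.rfl

theorem tv_of_mem_Lev {H : Subgroup (Matrix.GeneralLinearGroup (Fin d) R)} {a : R}
    (ha : a ∈ Lev H) (i j : Fin d) (h : i ≠ j) : tv i j h a ∈ H := by
  have := ha 1 i j h
  rwa [one_mul] at this

theorem Lev_mono {H K : Subgroup (Matrix.GeneralLinearGroup (Fin d) R)} (h : H ≤ K) :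
    Lev H ≤ Lev K :=
  fun _ ha r i j hij => h (ha r i j hij)

/-- elementary matrices in one place suffice, up to a factor -/
theorem Lev_of_one (hd : 3 ≤ d) (H : Subgroup (Matrix.GeneralLinearGroup (Fin d) R))
    {J : Ideal R} (hH : IsN J H) {y : R} (hy : y ∈ J)
    {a : R} {i j : Fin d} (hij : i ≠ j) (h : ∀ r, tv i j hij (r * a) ∈ H) :
    y ^ 3 * a ∈ Lev H := by
  -- change the second index
  have h1 : ∀ (b : R) (i j k : Fin d) (hij : i ≠ j) (hik : i ≠ k),
      (∀ r, tv i j hij (r * b) ∈ H) → ∀ r, tv i k hik (r * (y * b)) ∈ H := by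
    intro b i j k hij hik h r
    by_cases hjk : j = k
    · subst hjk
      have := h (r * y)
      rwa [mul_assoc] at this
    · have e : r * (y * b) = (r * b) * y := by ring
      rw [e, ← tv_comm i j k hij hjk hik (r * b) y]
      have h2 : tv i j hij (r * b) * tv j k hjk y * (tv i j hij (r * b))⁻¹ * (tv j k hjk y)⁻¹ =
        tv i j hij (r * b) * (tv j k hjk y * (tv i j hij (r * b))⁻¹ * (tv j k hjk y)⁻¹) := by group
      rw [h2]
      exact mul_mem (h r) (hH _ (tv_mem_EJ hy _ _ _) _ (inv_mem (h r)))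
  -- change the first index
  have h2 : ∀ (b : R) (i j k : Fin d) (hij : i ≠ j) (hkj : k ≠ j),
      (∀ r, tv i j hij (r * b) ∈ H) → ∀ r, tv k j hkj (r * (y * b)) ∈ H := by
    intro b i j k hij hkj h r
    by_cases hik : i = k
    · subst hik
      have := h (r * y)
      rwa [mul_assoc] at this
    · have e : r * (y * b) = y * (r * b) := by ring
      rw [e, ← tv_comm k i j (Ne.symm hik) hij hkj y (r * b)]
      exact mul_mem (hH _ (tv_mem_EJ hy _ _ _) _ (h r)) (inv_mem (h r))
  have e3 : y ^ 3 * a = y * (y * (y * a)) := by ring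
  rw [e3]
  intro r k l hkl
  by_cases hlj : l = j
  · subst hlj
    exact h2 _ k l k hkl hkl (h2 _ k l k hkl hkl (h2 a i l k hij hkl h)) r
  · by_cases hki : k = i
    · subst hki
      exact h1 _ k l l hkl hkl (h1 _ k l l hkl hkl (h1 a k j l hij hkl h)) r
    · by_cases hkj : k = j
      · subst hkj
        by_cases hli : l = i
        · subst hli
          obtain ⟨m, hm1, hm2⟩ := third hd k l
          exact h2 _ m l k hm2 hkl (h1 _ m k l hm1 hm2 (h2 a l k m hij hm1 h)) r
        · exact h2 _ k l k hkl hkl (h2 _ i l k (Ne.symm hli) hkl (h1 a i k l hij (Ne.symm hli) h)) r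
      · exact h1 _ k l l hkl hkl (h1 _ k j l hkj hkl (h2 a i j k hij hkj h)) r

end Pool.Agent.ACQ
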