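import Pool.Agent.Lib_helper44.ACQ.Core

/-!
# Lifting Andrews-Curtis equivalences through abelian, minimal and inessential layers
-/

set_option autoImplicit false

namespace Pool.Agent.ACQ

open Function Subgroup
open scoped commutatorElement

universe u

variable {G : Type u} [Group G] {n : ℕ}

/-- change all coordinates one after the other -/
theorem fix_all {P Q : Fin n → G → Prop} (hQP : ∀ i g, Q i g → P i g)
    (h : ∀ u : Fin n → G, (∀ j, P j (u j)) → ∀ i, ∃ g, Q i g ∧ AC u (update u i g))
    (u : Fin n → G) (hu : ∀ j, P j (u j)) : ∃ w, AC u w ∧ ∀ j, Q j (w j) := by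
  have key : ∀ S : Finset (Fin n), ∃ w, AC u w ∧ (∀ j, P j (w j)) ∧ ∀ j ∈ S, Q j (w j) := by
    intro S
    induction S using Finset.induction_on with
    | empty => exact ⟨u, ac_refl u, hu, by simp⟩
    | insert i S hi ih =>
      obtain ⟨w, hw, hwP, hwS⟩ := ih
      obtain ⟨g, hg, hac⟩ := h w hwP i
      refine ⟨update w i g, hw.trans hac, ?_, ?_⟩
      · intro j
        by_cases hj : j = i
        · subst hj; rw [update_self]; exact hQP _ _ hg
        · rw [update_of_ne hj]; exact hwP j
      · intro j hj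
        by_cases hj' : j = i
        · subst hj'; rw [update_self]; exact hg
        · rw [update_of_ne hj']; exact hwS j (Finset.mem_of_mem_insert_of_ne hj hj')
  obtain ⟨w, hw, _, h2⟩ := key Finset.univ
  exact ⟨w, hw, fun j => h2 j (Finset.mem_univ j)⟩

/-- one coordinate, relative to a normal subgroup `B` -/
theorem step_rel (x u : Fin n → G) (i : Fin n) (A B : Subgroup G) [B.Normal]
    (hu : (x i)⁻¹ * u i ∈ A) (hA : A ≤ oth u i ⊔ B) :
    ∃ g, (x i)⁻¹ * g ∈ B ∧ AC u (update u i g) := by
  have h1 : ((x i)⁻¹ * u i)⁻¹ ∈ oth u i ⊔ B := inv_mem (hA hu)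
  obtain ⟨t, ht, b, hb, htb⟩ := mem_sup_of_normal_right.1 h1
  refine ⟨u i * t, ?_, ac_mul_oth u i ht⟩
  have : (x i)⁻¹ * (u i * t) = b⁻¹ := by
    have h2 : t = ((x i)⁻¹ * u i)⁻¹ * b⁻¹ := by rw [← htb]; group
    rw [h2]; group
  rw [this]
  exact inv_mem hb

/-- if all coordinates of a generating tuple but one are central modulo `K`, then the quotient by
`K` is abelian -/
theorem comm_le (x : Fin n → G) (hx : closure (Set.range x) = ⊤) (K : Subgroup G) [K.Normal]
    (i : Fin n) (h : ∀ j, j ≠ i → ∃ a : G, (x j : G ⧸ K) = (a : G ⧸ K) ∧ ∀ g : G, ⁅g, a⁆ ∈ K) :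
    commutator G ≤ K := by
  have hgen : ∀ y : G, (∀ k, ⁅x k, y⁆ ∈ K) → ∀ g : G, ⁅g, y⁆ ∈ K := by
    intro y hy g
    have hg : g ∈ closure (Set.range x) := by rw [hx]; exact mem_top g
    induction hg using closure_induction with
    | mem z hz => obtain ⟨k, rfl⟩ := hz; exact hy k
    | one => rw [commutatorElement_one_left]; exact one_mem _
    | mul a b _ _ ha hb =>
      have : ⁅a * b, y⁆ = a * ⁅b, y⁆ * a⁻¹ * ⁅a, y⁆ := by
        simp only [commutatorElement_def]; group
      rw [this]
      exact mul_mem (‹K.Normal›.conj_mem _ hb a) ha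
    | inv a _ ha =>
      have : ⁅a⁻¹, y⁆ = a⁻¹ * ⁅a, y⁆⁻¹ * a⁻¹⁻¹ := by
        simp only [commutatorElement_def]; group
      rw [this]
      exact ‹K.Normal›.conj_mem _ (inv_mem ha) a⁻¹
  have hc : ∀ j, j ≠ i → ∀ g : G, ⁅g, x j⁆ ∈ K := by
    intro j hj g
    obtain ⟨a, ha, hg⟩ := h j hj
    rw [← QuotientGroup.eq_one_iff]
    have h1 : ((⁅g, x j⁆ : G) : G ⧸ K) = ((⁅g, a⁆ : G) : G ⧸ K) := by
      simp only [commutatorElement_def, QuotientGroup.mk_mul, QuotientGroup.mk_inv, ha]
    rw [h1, QuotientGroup.eq_one_iff]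
    exact hg g
  have hall : ∀ (j : Fin n) (g : G), ⁅g, x j⁆ ∈ K := by
    intro j
    by_cases hj : j = i
    · subst hj
      apply hgen
      intro k
      by_cases hk : k = j
      · subst hk; rw [commutatorElement_self]; exact one_mem _
      · rw [← commutatorElement_inv]
        exact inv_mem (hc k hk _)
    · exact hc j hj
  rw [_root_.commutator_def, commutator_le]
  intro g _ y _
  apply hgen
  intro k
  rw [← commutatorElement_inv]
  exact inv_mem (hall k _)

/-- elements of `A` which can be multiplied to the `i`-th coordinate -/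
def Dsub (x : Fin n → G) (A : Subgroup G) (i : Fin n) : Subgroup G where
  carrier := {c | c ∈ A ∧ ∀ u : Fin n → G, (∀ j, (x j)⁻¹ * u j ∈ A) →
    AC u (update u i (u i * c))}
  one_mem' := ⟨one_mem A, fun u _ => by rw [mul_one, update_eq_self]; exact ac_refl u⟩
  mul_mem' := by
    rintro c d ⟨hc, hc'⟩ ⟨hd, hd'⟩
    refine ⟨mul_mem hc hd, fun u hu => ?_⟩
    have h1 := hc' u hu
    have h2 := hd' (update u i (u i * c)) (by
      intro j
      by_cases hj : j = i
      · subst hj
        rw [update_self, ← mul_assoc]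
        exact mul_mem (hu j) hc
      · rw [update_of_ne hj]; exact hu j)
    rw [update_self, update_idem, mul_assoc] at h2
    exact h1.trans h2
  inv_mem' := by
    rintro c ⟨hc, hc'⟩
    refine ⟨inv_mem hc, fun u hu => ?_⟩
    have h2 := hc' (update u i (u i * c⁻¹)) (by
      intro j
      by_cases hj : j = i
      · subst hj
        rw [update_self, ← mul_assoc]
        exact mul_mem (hu j) (inv_mem hc)
      · rw [update_of_ne hj]; exact hu j)
    rw [update_self, update_idem, inv_mul_cancel_right, update_eq_self] at h2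
    exact h2.symm

/-- abelian normal subgroups inside the commutator subgroup -/
theorem core_a (x : Fin n → G) (hx : closure (Set.range x) = ⊤) (A : Subgroup G) [A.Normal]
    (hab : ∀ a ∈ A, ∀ b ∈ A, a * b = b * a) (hA : A ≤ commutator G) (s : Fin n → G)
    (hs : ∀ i, (x i)⁻¹ * s i ∈ A) : AC s x := by
  have hBA : ⁅A, (⊤ : Subgroup G)⁆ ≤ A := commutator_le_left A ⊤
  have hgA : ∀ g : G, ∀ a ∈ A, ⁅g, a⁆ ∈ ⁅A, (⊤ : Subgroup G)⁆ := by
    intro g a ha
    rw [commutator_comm]
    exact commutator_mem_commutator (mem_top g) ha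
  -- first step: reach `x j * b j` with `b j` in `[A, G]`
  obtain ⟨w, hw, hwB⟩ := fix_all (P := fun j g => (x j)⁻¹ * g ∈ A)
    (Q := fun j g => (x j)⁻¹ * g ∈ ⁅A, (⊤ : Subgroup G)⁆) (fun i g h => hBA h) (by
      intro u hu i
      apply step_rel x u i A _ (hu i)
      refine hA.trans (comm_le x hx _ i ?_)
      intro j hj
      refine ⟨((x j)⁻¹ * u j)⁻¹, ?_, ?_⟩
      · have h1 : ((u j : G) : G ⧸ (oth u i ⊔ ⁅A, (⊤ : Subgroup G)⁆)) = 1 :=
          (QuotientGroup.eq_one_iff _).2 (le_sup_left (a := oth u i) (mem_oth u hj))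
        rw [mul_inv_rev, inv_inv, QuotientGroup.mk_mul, QuotientGroup.mk_inv, h1, inv_one,
          one_mul]
      · intro g
        exact (le_sup_right : _ ≤ oth u i ⊔ ⁅A, (⊤ : Subgroup G)⁆) (hgA g _ (inv_mem (hu j)))) s hs
  refine hw.trans ?_
  -- second step
  have hcomm : ∀ (i : Fin n) (g a : G), a ∈ A → ⁅g, a⁆ ∈ Dsub x A i := by
    intro i g
    have hg : g ∈ closure (Set.range x) := by rw [hx]; exact mem_top g
    induction hg using closure_induction with
    | mem z hz =>
      obtain ⟨j, rfl⟩ := hz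
      intro a ha
      refine ⟨hBA (hgA _ a ha), fun u hu => ?_⟩
      by_cases hj : j = i
      · subst hj
        -- conjugation of `u j` by `x j * a⁻¹ * (x j)⁻¹`
        set α : G := x j * a⁻¹ * (x j)⁻¹ with hα
        have hαA : α ∈ A := ‹A.Normal›.conj_mem _ (inv_mem ha) (x j)
        have h1 := ac_conj u j α
        have h2 : α * u j * α⁻¹ = u j * ⁅x j, a⁆ := by
          set c : G := (x j)⁻¹ * u j with hc
          have hcA : c ∈ A := hu j
          have huc : u j = x j * c := by rw [hc]; group
          have e1 : α * u j * α⁻¹ = x j * (a⁻¹ * c) * (x j * a * (x j)⁻¹) := by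
            rw [huc, hα]; group
          have e2 : u j * ⁅x j, a⁆ = x j * (c * ((x j * a * (x j)⁻¹) * a⁻¹)) := by
            rw [huc, commutatorElement_def]; group
          have hxa : x j * a * (x j)⁻¹ ∈ A := ‹A.Normal›.conj_mem _ ha (x j)
          rw [e1, e2, mul_assoc]
          congr 1
          rw [hab a⁻¹ (inv_mem ha) c hcA, mul_assoc]
          congr 1
          exact hab _ (inv_mem ha) _ hxa
        rwa [h2] at h1
      · apply ac_mul_oth
        have h2 : ⁅x j, a⁆ = ⁅u j, a⁆ := by
          set c : G := (x j)⁻¹ * u j with hc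
          have hcA : c ∈ A := hu j
          have huc : u j = x j * c := by rw [hc]; group
          rw [commutatorElement_def, commutatorElement_def, huc]
          have : x j * c * a * (x j * c)⁻¹ = x j * (c * a * c⁻¹) * (x j)⁻¹ := by group
          rw [this, hab c hcA a ha, mul_inv_cancel_right]
        rw [h2, commutatorElement_def]
        have h3 : u j * a * (u j)⁻¹ * a⁻¹ = u j * (a * (u j)⁻¹ * a⁻¹) := by group
        rw [h3]
        exact mul_mem (mem_oth u hj)
          ((oth_normal u i).conj_mem _ ((oth u i).inv_mem (mem_oth u hj)) a)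
    | one => intro a _; rw [commutatorElement_one_left]; exact one_mem _
    | mul g h _ _ hg hh =>
      intro a ha
      have h1 : ⁅g * h, a⁆ = ⁅g, h * a * h⁻¹⁆ * ⁅h, a⁆ := by
        simp only [commutatorElement_def]; group
      rw [h1]
      exact mul_mem (hg _ (‹A.Normal›.conj_mem _ ha h)) (hh a ha)
    | inv g _ hg =>
      intro a ha
      have hga : g⁻¹ * a * g ∈ A := by
        have := ‹A.Normal›.conj_mem _ ha g⁻¹
        rwa [inv_inv] at this
      have h1 : ⁅g⁻¹, a⁆ = ⁅g, g⁻¹ * a * g⁆⁻¹ := by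
        simp only [commutatorElement_def]; group
      rw [h1]
      exact inv_mem (hg _ hga)
  have hBD : ∀ i, ⁅A, (⊤ : Subgroup G)⁆ ≤ Dsub x A i := by
    intro i
    rw [commutator_comm, commutator_le]
    intro g _ a ha
    exact hcomm i g a ha
  obtain ⟨z, hz, hzx⟩ := fix_all (P := fun j g => (x j)⁻¹ * g ∈ ⁅A, (⊤ : Subgroup G)⁆)
    (Q := fun j g => g = x j) (by rintro i g rfl; rw [inv_mul_cancel]; exact one_mem _) (by
      intro u hu i
      refine ⟨x i, rfl, ?_⟩
      have h1 := (hBD i (inv_mem (hu i))).2 u (fun j => hBA (hu j))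
      have h2 : u i * ((x i)⁻¹ * u i)⁻¹ = x i := by group
      rwa [h2] at h1) w hwB
  have : z = x := funext hzx
  rwa [this] at hz

/-- a normal subgroup containing an element which does not centralise a minimal normal subgroup
contains the latter -/
theorem le_of_not_commute {A K : Subgroup G} [A.Normal] [K.Normal]
    (hmin : ∀ K : Subgroup G, K.Normal → K ≤ A → K = ⊥ ∨ K = A) {g a : G} (hg : g ∈ K)
    (ha : a ∈ A) (hga : g * a ≠ a * g) : A ≤ K := by
  have hmem : ⁅g, a⁆ ∈ K ⊓ A := by
    refine mem_inf.2 ⟨?_, ?_⟩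
    · have : ⁅g, a⁆ = g * (a * g⁻¹ * a⁻¹) := by rw [commutatorElement_def]; group
      rw [this]
      exact mul_mem hg (‹K.Normal›.conj_mem _ (inv_mem hg) a)
    · rw [commutatorElement_def]
      exact mul_mem (‹A.Normal›.conj_mem _ ha g) (inv_mem ha)
  rcases hmin (K ⊓ A) inferInstance inf_le_right with h | h
  · exfalso
    rw [h, mem_bot] at hmem
    exact hga (commutatorElement_eq_one_iff_mul_comm.1 hmem)
  · exact inf_eq_right.1 h

/-- nonabelian minimal normal subgroups -/
theorem core_b (x : Fin n → G) (hx : closure (Set.range x) = ⊤) (hn : 2 ≤ n) (A : Subgroup G)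
    [A.Normal] (hmin : ∀ K : Subgroup G, K.Normal → K ≤ A → K = ⊥ ∨ K = A)
    (hnab : ∃ a ∈ A, ∃ b ∈ A, a * b ≠ b * a) (s : Fin n → G)
    (hst : normalClosure (Set.range s) = ⊤)
    (hs : ∀ i, (x i)⁻¹ * s i ∈ A) : AC s x := by
  obtain ⟨a₀, ha₀, b₀, hb₀, hab⟩ := hnab
  -- some coordinate of `s` does not centralise `A`
  have hex : ∃ j₀, ∃ a ∈ A, s j₀ * a ≠ a * s j₀ := by
    by_contra hcon
    push Not at hcon
    have h1 : normalClosure (Set.range s) ≤ centralizer (A : Set G) := by
      apply normalClosure_le_normal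
      rintro _ ⟨j, rfl⟩
      rw [SetLike.mem_coe, mem_centralizer_iff]
      intro a ha
      exact (hcon j a ha).symm
    rw [hst] at h1
    have h2 := mem_centralizer_iff.1 (h1 (mem_top b₀)) a₀ ha₀
    exact hab h2
  obtain ⟨j₀, a₁, ha₁, hj₀⟩ := hex
  -- fix all coordinates except the `j₀`-th
  obtain ⟨w, hw, hwx⟩ := fix_all
    (P := fun j g => (x j)⁻¹ * g ∈ A ∧ (j = j₀ → g = s j₀))
    (Q := fun j g => ((x j)⁻¹ * g ∈ A ∧ (j = j₀ → g = s j₀)) ∧ (j ≠ j₀ → g = x j))
    (fun i g h => h.1) (by
      intro u hu i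
      by_cases hi : i = j₀
      · refine ⟨u i, ⟨hu i, fun h => absurd hi h⟩, ?_⟩
        rw [update_eq_self]
        exact ac_refl u
      · refine ⟨x i, ⟨⟨by rw [inv_mul_cancel]; exact one_mem _, fun h => absurd h hi⟩,
          fun _ => rfl⟩, ?_⟩
        apply ac_set
        have hu0 : u j₀ = s j₀ := (hu j₀).2 rfl
        have hmem : s j₀ ∈ oth u i := by
          rw [← hu0]; exact mem_oth u (fun h => hi h.symm)
        have hle : A ≤ oth u i := le_of_not_commute hmin hmem ha₁ hj₀
        have := inv_mem (hle (hu i).1)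
        rwa [mul_inv_rev, inv_inv] at this) s (fun j => ⟨hs j, fun h => by rw [h]⟩)
  refine hw.trans ?_
  have hw0 : w j₀ = s j₀ := (hwx j₀).1.2 rfl
  have hwi : ∀ i, i ≠ j₀ → w i = x i := fun i hi => (hwx i).2 hi
  have hwA : (x j₀)⁻¹ * w j₀ ∈ A := (hwx j₀).1.1
  -- some coordinate of `x` does not centralise `A`
  have hexx : ∃ j, ∃ a ∈ A, x j * a ≠ a * x j := by
    by_contra hcon
    push Not at hcon
    have h1 : closure (Set.range x) ≤ centralizer (A : Set G) := by
      rw [closure_le]
      rintro _ ⟨j, rfl⟩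
      rw [SetLike.mem_coe, mem_centralizer_iff]
      intro a ha
      exact (hcon j a ha).symm
    rw [hx] at h1
    have h2 := mem_centralizer_iff.1 (h1 (mem_top b₀)) a₀ ha₀
    exact hab h2
  by_cases hcase : ∃ i, i ≠ j₀ ∧ ∃ a ∈ A, x i * a ≠ a * x i
  · obtain ⟨i, hi, a, ha, hia⟩ := hcase
    have hmem : x i ∈ oth w j₀ := by
      rw [← hwi i hi]; exact mem_oth w hi
    have hle : A ≤ oth w j₀ := le_of_not_commute hmin hmem ha hia
    have h1 : AC w (update w j₀ (x j₀)) := by
      apply ac_set
      have := inv_mem (hle hwA)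
      rwa [mul_inv_rev, inv_inv] at this
    have h2 : update w j₀ (x j₀) = x := by
      funext j
      by_cases hj : j = j₀
      · subst hj; rw [update_self]
      · rw [update_of_ne hj]; exact hwi j hj
    rwa [h2] at h1
  · push Not at hcase
    obtain ⟨j₁, a₂, ha₂, hj₁⟩ := hexx
    have hj10 : j₁ = j₀ := by
      by_contra hne
      exact hj₁ (hcase j₁ hne a₂ ha₂)
    subst hj10
    -- another index
    obtain ⟨i, hi⟩ : ∃ i : Fin n, i ≠ j₁ := by
      have : Nontrivial (Fin n) := Fin.nontrivial_iff_two_le.2 hn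
      exact exists_ne j₁
    -- set the `i`-th coordinate to `x i * a₀`
    have h1 : AC w (update w i (x i * a₀)) := by
      apply ac_set
      rw [hwi i hi, inv_mul_cancel_left]
      have hmem : s j₁ ∈ oth w i := by
        rw [← hw0]; exact mem_oth w hi.symm
      exact le_of_not_commute hmin hmem ha₁ hj₀ ha₀
    -- now the `j₁`-th
    have hnc : x i * a₀ * b₀ ≠ b₀ * (x i * a₀) := by
      intro h
      apply hab
      have h3 := hcase i hi b₀ hb₀
      have h4 : x i * (a₀ * b₀) = x i * (b₀ * a₀) := by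
        rw [← mul_assoc, h, ← mul_assoc, ← h3, mul_assoc]
      exact mul_left_cancel h4
    have h2 : AC (update w i (x i * a₀)) (update (update w i (x i * a₀)) j₁ (x j₁)) := by
      apply ac_set
      rw [update_of_ne hi.symm]
      have hmem : x i * a₀ ∈ oth (update w i (x i * a₀)) j₁ := by
        have := mem_oth (update w i (x i * a₀)) hi
        rwa [update_self] at this
      have := inv_mem (le_of_not_commute hmin hmem hb₀ hnc hwA)
      rwa [mul_inv_rev, inv_inv] at this
    -- and back
    have h3 : AC (update (update w i (x i * a₀)) j₁ (x j₁))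
        (update (update (update w i (x i * a₀)) j₁ (x j₁)) i (x i)) := by
      apply ac_set
      rw [update_of_ne hi, update_self]
      have hmem : x j₁ ∈ oth (update (update w i (x i * a₀)) j₁ (x j₁)) i := by
        have := mem_oth (update (update w i (x i * a₀)) j₁ (x j₁)) hi.symm
        rwa [update_self] at this
      have h4 : A ≤ oth (update (update w i (x i * a₀)) j₁ (x j₁)) i :=
        le_of_not_commute hmin hmem ha₂ hj₁
      have h5 : (x i * a₀)⁻¹ * x i = a₀⁻¹ := by group
      rw [h5]
      exact h4 (inv_mem ha₀)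
    have h4 : update (update (update w i (x i * a₀)) j₁ (x j₁)) i (x i) = x := by
      funext j
      by_cases hji : j = i
      · subst hji; rw [update_self]
      · rw [update_of_ne hji]
        by_cases hj : j = j₁
        · subst hj; rw [update_self]
        · rw [update_of_ne hj, update_of_ne hji]; exact hwi j hj
    rw [h4] at h3
    exact (h1.trans h2).trans h3

/-- transfer from a quotient group -/
theorem lift_quot (x s : Fin n → G) (B : Subgroup G) [B.Normal]
    (h : AC (fun i => (s i : G ⧸ B)) (fun i => (x i : G ⧸ B))) :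
    ∃ s', AC s s' ∧ ∀ i, (x i)⁻¹ * s' i ∈ B := by
  obtain ⟨s', hs', hx'⟩ := (ac_lift (QuotientGroup.mk' B) (QuotientGroup.mk'_surjective B) h).1
    s rfl
  refine ⟨s', hs', fun i => ?_⟩
  have := congrFun hx' i
  exact QuotientGroup.eq.1 this.symm

theorem range_quot (x : Fin n → G) (hx : closure (Set.range x) = ⊤) (B : Subgroup G) [B.Normal] :
    closure (Set.range (fun i => (x i : G ⧸ B))) = ⊤ := by
  have h1 : Set.range (fun i => (x i : G ⧸ B)) = (QuotientGroup.mk' B) '' Set.range x := by
    rw [← Set.range_comp]; rfl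
  rw [h1, ← MonoidHom.map_closure, hx, ← MonoidHom.range_eq_map, MonoidHom.range_eq_top]
  exact QuotientGroup.mk'_surjective B

theorem nrange_quot (x : Fin n → G) (hx : normalClosure (Set.range x) = ⊤) (B : Subgroup G)
    [B.Normal] : normalClosure (Set.range (fun i => (x i : G ⧸ B))) = ⊤ := by
  have h1 : Set.range (fun i => (x i : G ⧸ B)) = (QuotientGroup.mk' B) '' Set.range x := by
    rw [← Set.range_comp]; rfl
  rw [h1, ← map_normalClosure _ _ (QuotientGroup.mk'_surjective B), hx, ← MonoidHom.range_eq_map,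
    MonoidHom.range_eq_top]
  exact QuotientGroup.mk'_surjective B

theorem commutator_quot (B : Subgroup G) [B.Normal] :
    commutator (G ⧸ B) = (commutator G).map (QuotientGroup.mk' B) := by
  rw [_root_.commutator_def, _root_.commutator_def, map_commutator, ← MonoidHom.range_eq_map,
    MonoidHom.range_eq_top.2 (QuotientGroup.mk'_surjective B)]

/-- **Lifting through a layer.** -/
theorem lift_layer (x : Fin n → G) (hx : closure (Set.range x) = ⊤) (hn : 2 ≤ n)
    {M L : Subgroup G} [M.Normal] [L.Normal] (hML : M ≤ L) (hlay : Layer x M L) (s : Fin n → G)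
    (hst : normalClosure (Set.range s) = ⊤)
    (hs : ∀ i, (x i)⁻¹ * s i ∈ L ⊓ commutator G) :
    ∃ s', AC s s' ∧ ∀ i, (x i)⁻¹ * s' i ∈ M ⊓ commutator G := by
  have hcn : (commutator G).Normal := inferInstance
  set A : Subgroup G := L ⊓ commutator G with hA
  set B : Subgroup G := M ⊓ commutator G with hB
  have hAn : A.Normal := inferInstance
  have hBn : B.Normal := inferInstance
  have hBA : B ≤ A := inf_le_inf_right _ hML
  have hcomap : (A.map (QuotientGroup.mk' B)).comap (QuotientGroup.mk' B) = A := by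
    rw [comap_map_eq, QuotientGroup.ker_mk', sup_eq_left.2 hBA]
  have hAn' : (A.map (QuotientGroup.mk' B)).Normal :=
    hAn.map _ (QuotientGroup.mk'_surjective B)
  have hAc : A.map (QuotientGroup.mk' B) ≤ commutator (G ⧸ B) := by
    rw [commutator_quot]
    exact map_mono inf_le_right
  have hs' : ∀ i, ((x i : G ⧸ B))⁻¹ * (s i : G ⧸ B) ∈ A.map (QuotientGroup.mk' B) := by
    intro i
    exact ⟨_, hs i, rfl⟩
  rcases hlay with ha | hb | hc
  · -- abelian
    apply lift_quot
    refine core_a _ (range_quot x hx B) (A.map (QuotientGroup.mk' B)) ?_ hAc _ hs'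
    rintro _ ⟨a, haA, rfl⟩ _ ⟨b, hbA, rfl⟩
    rw [← map_mul, ← map_mul]
    apply QuotientGroup.eq.2
    have h1 : (a * b)⁻¹ * (b * a) = ⁅b⁻¹, a⁻¹⁆ := by rw [commutatorElement_def]; group
    rw [h1]
    refine mem_inf.2 ⟨?_, ?_⟩
    · exact ha (commutator_mem_commutator (inv_mem hbA.1) (inv_mem haA.1))
    · rw [_root_.commutator_def]
      exact commutator_mem_commutator (mem_top _) (mem_top _)
  · -- minimal
    have hmin : ∀ K : Subgroup G, K.Normal → B ≤ K → K ≤ A → K = B ∨ K = A := by
      intro K hK hBK hKA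
      have hKL : K ⊔ M ≤ L := sup_le (hKA.trans inf_le_left) hML
      rcases hb (K ⊔ M) inferInstance le_sup_right hKL with h | h
      · left
        apply le_antisymm _ hBK
        exact le_inf (le_sup_left.trans h.le) (hKA.trans inf_le_right)
      · right
        apply le_antisymm hKA
        intro a haA
        have h1 : a ∈ K ⊔ M := by rw [h]; exact haA.1
        obtain ⟨k, hk, m, hm, hkm⟩ := mem_sup_of_normal_right.1 h1
        have h2 : m = k⁻¹ * a := by rw [← hkm]; group
        have h3 : m ∈ B := mem_inf.2 ⟨hm, by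
          rw [h2]; exact mul_mem (inv_mem (mem_inf.1 (hKA hk)).2) (mem_inf.1 haA).2⟩
        rw [← hkm]
        exact mul_mem hk (hBK h3)
    have hmin' : ∀ K : Subgroup (G ⧸ B), K.Normal → K ≤ A.map (QuotientGroup.mk' B) →
        K = ⊥ ∨ K = A.map (QuotientGroup.mk' B) := by
      intro K hK hKA
      have h1 : B ≤ K.comap (QuotientGroup.mk' B) := by
        intro b hb
        rw [mem_comap]
        have : (QuotientGroup.mk' B) b = 1 := (QuotientGroup.eq_one_iff b).2 hb
        rw [this]
        exact one_mem _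
      have h2 : K.comap (QuotientGroup.mk' B) ≤ A := by
        rw [← hcomap]
        exact comap_mono hKA
      have h3 := map_comap_eq_self_of_surjective (QuotientGroup.mk'_surjective B) K
      rcases hmin _ inferInstance h1 h2 with h | h
      · left
        rw [← h3, h, eq_bot_iff]
        rintro _ ⟨b, hb, rfl⟩
        rw [mem_bot]
        exact (QuotientGroup.eq_one_iff b).2 hb
      · right
        rw [← h3, h]
    apply lift_quot
    by_cases hab : ∃ a ∈ A.map (QuotientGroup.mk' B), ∃ b ∈ A.map (QuotientGroup.mk' B),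
        a * b ≠ b * a
    · exact core_b _ (range_quot x hx B) hn _ hmin' hab _ (nrange_quot s hst B) hs'
    · push Not at hab
      exact core_a _ (range_quot x hx B) _ hab hAc _ hs'
  · -- inessential
    have key : ∀ u : Fin n → G, (∀ j, (x j)⁻¹ * u j ∈ A) → ∀ i, A ≤ oth u i ⊔ B := by
      intro u hu i
      -- `L ≤ oth u i ⊔ M`
      have h1 : oth u i ⊔ M ⊔ L = oth x i ⊔ L := by
        apply le_antisymm
        · refine sup_le (sup_le ?_ (hML.trans le_sup_right)) le_sup_right
          apply normalClosure_le_normal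
          rintro _ ⟨j, hj, rfl⟩
          have h2 : u j = x j * ((x j)⁻¹ * u j) := by group
          rw [SetLike.mem_coe, h2]
          exact mul_mem ((le_sup_left : oth x i ≤ oth x i ⊔ L) (mem_oth x hj))
            ((le_sup_right : L ≤ oth x i ⊔ L) (mem_inf.1 (hu j)).1)
        · refine sup_le ?_ le_sup_right
          apply normalClosure_le_normal
          rintro _ ⟨j, hj, rfl⟩
          have h2 : x j = u j * ((x j)⁻¹ * u j)⁻¹ := by group
          rw [SetLike.mem_coe, h2]
          refine mul_mem ?_ (inv_mem ((le_sup_right : L ≤ oth u i ⊔ M ⊔ L) (mem_inf.1 (hu j)).1))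
          exact (le_sup_left.trans le_sup_left : oth u i ≤ oth u i ⊔ M ⊔ L) (mem_oth u hj)
      have h3 : L ≤ oth u i ⊔ M := hc i _ inferInstance le_sup_right h1
      -- elements of `M` are central modulo `oth u i ⊔ B`
      refine (inf_le_right : A ≤ commutator G).trans (comm_le x hx _ i ?_)
      intro j hj
      have h4 : ((x j)⁻¹ * u j)⁻¹ ∈ oth u i ⊔ M := h3 (inv_mem (hu j).1)
      obtain ⟨k, hk, m, hm, hkm⟩ := mem_sup_of_normal_right.1 h4
      refine ⟨m, ?_, ?_⟩
      · have h5 : x j = u j * k * m := by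
          rw [mul_assoc, hkm]; group
        have h6 : (((u j * k : G)) : G ⧸ (oth u i ⊔ B)) = 1 :=
          (QuotientGroup.eq_one_iff _).2
            (le_sup_left (a := oth u i) (mul_mem (mem_oth u hj) hk))
        rw [h5, QuotientGroup.mk_mul, h6, one_mul]
      · intro g
        apply (le_sup_right : B ≤ oth u i ⊔ B)
        refine mem_inf.2 ⟨?_, ?_⟩
        · rw [commutatorElement_def]
          exact mul_mem (‹M.Normal›.conj_mem _ hm g) (inv_mem hm)
        · rw [_root_.commutator_def]
          exact commutator_mem_commutator (mem_top _) (mem_top _)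
    obtain ⟨w, hw, hwB⟩ := fix_all (P := fun j g => (x j)⁻¹ * g ∈ A)
      (Q := fun j g => (x j)⁻¹ * g ∈ B) (fun i g h => hBA h)
      (fun u hu i => step_rel x u i A B (hu i) (key u hu i)) s hs
    exact ⟨w, hw, hwB⟩

end Pool.Agent.ACQ
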