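import Pool.Agent.Lib_helper44.ACQ.Arith

/-!
# The main theorems
-/

set_option autoImplicit false

namespace Pool.Agent.ACQ

open Function Subgroup
open scoped commutatorElement

universe u v w

section maps

variable {G : Type u} [Group G] {H : Type v} [Group H] {n : ℕ}

theorem ac_map (f : G →* H) {a b : Fin n → G} (h : AC a b) :
    AC (fun i => f (a i)) (fun i => f (b i)) := by
  have hup : ∀ (v : Fin n → G) (i : Fin n) (c : G),
      (fun k => f (update v i c k)) = update (fun k => f (v k)) i (f c) := by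
    intro v i c
    funext k
    by_cases hk : k = i
    · subst hk; simp
    · rw [update_of_ne hk, update_of_ne hk]
  induction h with
  | rel a b h =>
    cases h with
    | mul i j hij =>
      rw [hup, map_mul]
      exact (Move.mul (fun k => f (a k)) i j hij).ac
    | inv i =>
      rw [hup, map_inv]
      exact (Move.inv (fun k => f (a k)) i).ac
    | conj i g =>
      rw [hup, map_mul, map_mul, map_inv]
      exact (Move.conj (fun k => f (a k)) i (f g)).ac
  | refl a => exact ac_refl _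
  | symm a b _ h => exact h.symm
  | trans a b c _ _ h1 h2 => exact h1.trans h2

/-- free bases -/
theorem good_top_of_basis (x v : Fin n → G) (hx : Bijective (FreeGroup.lift x))
    (hv : normalClosure (Set.range v) = ⊤) : Good x v ⊤ := by
  let e : FreeGroup (Fin n) ≃* G := MulEquiv.ofBijective (FreeGroup.lift x) hx
  have hex : ∀ i, e (FreeGroup.of i) = x i := fun i => by
    change FreeGroup.lift x (FreeGroup.of i) = x i
    rw [FreeGroup.lift_apply_of]
  have h1 : normalClosure (Set.range fun i => e.symm (v i)) = ⊤ := by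
    have h2 : (Set.range fun i => e.symm (v i)) = e.symm.toMonoidHom '' Set.range v := by
      rw [← Set.range_comp]; rfl
    rw [h2, ← map_normalClosure _ _ e.symm.surjective, hv, ← MonoidHom.range_eq_map,
      MonoidHom.range_eq_top]
    exact e.symm.surjective
  obtain ⟨s, hs, hsx⟩ := good_top_free (fun i => e.symm (v i)) h1
  have h3 := ac_map e.toMonoidHom hs
  have h4 : (fun i => e.toMonoidHom (e.symm (v i))) = v := by
    funext i
    exact e.apply_symm_apply (v i)
  rw [h4] at h3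
  refine ⟨_, h3, fun i => mem_inf.2 ⟨mem_top _, ?_⟩⟩
  have h5 : (x i)⁻¹ * e.toMonoidHom (s i) = e.toMonoidHom ((FreeGroup.of i)⁻¹ * s i) := by
    rw [map_mul, map_inv]
    congr 2
    exact (hex i).symm
  rw [h5]
  have h6 : (commutator (FreeGroup (Fin n))).map e.toMonoidHom ≤ commutator G := by
    rw [_root_.commutator_def, _root_.commutator_def, map_commutator]
    exact commutator_mono le_top le_top
  exact h6 ⟨_, (mem_inf.1 (hsx i)).2, rfl⟩

end maps

section layers

variable {G : Type u} [Group G] {n : ℕ}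

theorem sup_commutator_le (M A : Subgroup G) [M.Normal] [A.Normal] (h : ⁅A, A⁆ ≤ M) :
    ⁅M ⊔ A, M ⊔ A⁆ ≤ M := by
  rw [commutator_le]
  intro g hg k hk
  obtain ⟨m, hm, a, ha, rfl⟩ := mem_sup_of_normal_right.1 hg
  obtain ⟨m', hm', b, hb, rfl⟩ := mem_sup_of_normal_right.1 hk
  rw [← QuotientGroup.eq_one_iff]
  have h1 : ((m : G) : G ⧸ M) = 1 := (QuotientGroup.eq_one_iff _).2 hm
  have h2 : ((m' : G) : G ⧸ M) = 1 := (QuotientGroup.eq_one_iff _).2 hm'
  have h3 : ((⁅m * a, m' * b⁆ : G) : G ⧸ M) = ((⁅a, b⁆ : G) : G ⧸ M) := by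
    simp only [commutatorElement_def, QuotientGroup.mk_mul, QuotientGroup.mk_inv, h1, h2,
      one_mul]
  rw [h3, QuotientGroup.eq_one_iff]
  exact h (commutator_mem_commutator ha hb)

/-- adding an abelian layer -/
theorem good_abelian (x : Fin n → G) (hx : closure (Set.range x) = ⊤) (hn : 2 ≤ n)
    (v : Fin n → G) (hv : normalClosure (Set.range v) = ⊤) (M A : Subgroup G) [M.Normal]
    [A.Normal] (h : ⁅A, A⁆ ≤ M) (hgood : Good x v (M ⊔ A)) : Good x v M :=
  good_layer x hx hn v hv le_sup_left (Or.inl (sup_commutator_le M A h)) hgood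

end layers

section main

theorem Good.mono {G : Type u} [Group G] {n : ℕ} {x v : Fin n → G} {M L : Subgroup G}
    (h : Good x v M) (hML : M ≤ L) : Good x v L := by
  obtain ⟨s, hs, hsx⟩ := h
  exact ⟨s, hs, fun i => mem_inf.2 ⟨hML (mem_inf.1 (hsx i)).1, (mem_inf.1 (hsx i)).2⟩⟩

theorem good_base {G : Type u} [Group G] {n : ℕ} (x v : Fin n → G) (L : Subgroup G)
    (hv : normalClosure (Set.range v) = ⊤)
    (hbase : (L = ⊤ ∧ Bijective (FreeGroup.lift x)) ∨
      ∃ s, AC v s ∧ ∀ i, (x i)⁻¹ * s i ∈ L ⊓ commutator G) : Good x v L := by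
  rcases hbase with ⟨rfl, h⟩ | h
  · exact good_top_of_basis x v h hv
  · exact h

/-- **Theorem 1.** -/
theorem main1 {G : Type u} [Group G] {n : ℕ} (x v : Fin n → G) (L N : Subgroup G)
    (hN : N.Normal) (hn : 2 ≤ n) (hx : closure (Set.range x) = ⊤)
    (hv : normalClosure (Set.range v) = ⊤)
    (hbase : (L = ⊤ ∧ Bijective (FreeGroup.lift x)) ∨
      ∃ s, AC v s ∧ ∀ i, (x i)⁻¹ * s i ∈ L ⊓ commutator G)
    (h : ∀ M : Subgroup G, M.Normal → N ≤ M → ¬ L ≤ M →
      ∃ K : Subgroup G, K.Normal ∧ M < K ∧ Layer x M K) :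
    ∃ s, AC v s ∧ ∀ i, (x i)⁻¹ * s i ∈ N ⊓ commutator G := by
  have hL : Good x v L := good_base x v L hv hbase
  exact good_of_step x v (hL.mono le_top) N hN (fun M hM hNM _ hK => by
    by_cases hLM : L ≤ M
    · exact hL.mono hLM
    · obtain ⟨K, hKn, hMK, hlay⟩ := h M hM hNM hLM
      exact good_layer x hx hn v hv hMK.le hlay (hK K hKn hMK))

variable {d : ℕ} {R : Type w} [CommRing R]

variable {G : Type u} [Group G] {n : ℕ}

/-- The arithmetic step, in terms of `Good`. -/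
theorem step_arith [IsNoetherianRing R] (hn : 0 < n) (hd : 3 ≤ d)
    (hdim : ringKrullDim R < (((n - 1) * (d * (d - 1)) : ℕ) : WithBot ℕ∞))
    (ρ : G →* Matrix.GeneralLinearGroup (Fin d) R) {J₀ : Ideal R}
    (hE : EJ (d := d) J₀ ≤ ρ.range) (L₀ : Subgroup G) [L₀.Normal]
    (hLc : L₀ ≤ commutator G) (x : Fin n → G)
    (hx : closure (Set.range x) = ⊤) (v : Fin n → G) (hv : normalClosure (Set.range v) = ⊤)
    (M B : Subgroup G) [M.Normal] [B.Normal] (hB : B = M ⊓ commutator G)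
    (hkB : L₀ ⊓ ρ.ker ≤ B) (p : Ideal R)
    (hpq : p ∈ (Lev (img ρ L₀ B)).minimalPrimes) (h𝔠p : ¬ Lev (L₀.map ρ) ≤ p)
    (hJp : ¬ J₀ ≤ p)
    (h : ∀ L : Subgroup G, L.Normal → M < L → Good x v L) : Good x v M := by
  classical
  set q : Ideal R := Lev (img ρ L₀ B) with hq
  have hp : p.IsPrime := hpq.1.1
  obtain ⟨c, hc𝔠, hcp, hc⟩ := arith hd hdim ρ hE L₀ x hx B hkB p hp h𝔠p hJp hn
  set E : Subgroup G := EG ρ L₀ (Ideal.span {c}) with hEdef
  have hEc : E ≤ commutator G := (EG_le_L ρ L₀ _).trans hLc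
  -- `E` is not contained in `M`
  have hEM : ¬ E ≤ M := by
    intro hle
    apply hcp
    apply hpq.1.2
    intro r i j hij
    have hrc : r * c ∈ Lev (L₀.map ρ) := Ideal.mul_mem_left _ _ hc𝔠
    obtain ⟨l, hl, hlt⟩ := tv_of_mem_Lev hrc i j hij
    have hlE : l ∈ E := subset_normalClosure
      ⟨hl, i, j, hij, r * c, Ideal.mul_mem_left _ _ (Ideal.mem_span_singleton_self c), hlt⟩
    rw [← hlt, mem_img hkB hl, hB]
    exact mem_inf.2 ⟨hle hlE, hEc hlE⟩
  obtain ⟨s, hs, hsx⟩ := h (M ⊔ E) inferInstance (left_lt_sup.2 hEM)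
  have hst : normalClosure (Set.range s) = ⊤ := by rw [← hs.closure, hv]
  obtain ⟨s', hs', hsB⟩ := hc s hst (by
    intro i
    have h1 := mem_inf.1 (hsx i)
    obtain ⟨m, hm, e, he, hme⟩ := mem_sup_of_normal_right.1 h1.1
    rw [← hme]
    refine mul_mem ((le_sup_left : B ≤ B ⊔ E) ?_) ((le_sup_right : E ≤ B ⊔ E) he)
    rw [hB]
    refine mem_inf.2 ⟨hm, ?_⟩
    have h2 : m = ((x i)⁻¹ * s i) * e⁻¹ := by rw [← hme]; group
    rw [h2]
    exact mul_mem h1.2 (inv_mem (hEc he)))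
  refine ⟨s', hs.trans hs', fun i => ?_⟩
  have := hsB i
  rwa [hB] at this

/-- the derived series of a subgroup -/
def Ds (L : Subgroup G) : ℕ → Subgroup G
  | 0 => L
  | j + 1 => ⁅Ds L j, Ds L j⁆

theorem Ds_normal (L : Subgroup G) [hL : L.Normal] : ∀ j, (Ds L j).Normal
  | 0 => hL
  | j + 1 => by
    have := Ds_normal L j
    change (⁅Ds L j, Ds L j⁆).Normal
    infer_instance

theorem Ds_succ_le (L : Subgroup G) (j : ℕ) : Ds L (j + 1) ≤ Ds L j := by
  change ⁅Ds L j, Ds L j⁆ ≤ Ds L j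
  rw [commutator_le]
  intro a ha b hb
  exact mul_mem (mul_mem (mul_mem ha hb) (inv_mem ha)) (inv_mem hb)

theorem Ds_anti (L : Subgroup G) {i j : ℕ} (h : i ≤ j) : Ds L j ≤ Ds L i := by
  induction h with
  | refl => exact le_rfl
  | step _ ih => exact (Ds_succ_le L _).trans ih

theorem Ds_le_derivedSeries (L : Subgroup G) : ∀ j, Ds L j ≤ derivedSeries G j
  | 0 => by rw [derivedSeries_zero]; exact le_top
  | j + 1 => by
    rw [derivedSeries_succ]
    exact commutator_mono (Ds_le_derivedSeries L j) (Ds_le_derivedSeries L j)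

theorem Ds_mono {K L : Subgroup G} (h : K ≤ L) : ∀ j, Ds K j ≤ Ds L j
  | 0 => h
  | j + 1 => commutator_mono (Ds_mono h j) (Ds_mono h j)

theorem Ds_eq (L : Subgroup G) : ∀ j, Ds L j = (derivedSeries L j).map L.subtype
  | 0 => by
    rw [derivedSeries_zero, ← MonoidHom.range_eq_map, Subgroup.range_subtype]
    rfl
  | j + 1 => by
    rw [derivedSeries_succ, map_commutator, ← Ds_eq L j]
    rfl

/-- a subgroup with finite image modulo `J` -/
theorem relIndex_Kc (ρ : G →* Matrix.GeneralLinearGroup (Fin d) R) (J : Ideal R)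
    (L : Subgroup G) (hfin : (Set.range fun g : L =>
      ((ρ (g : G)) : Matrix (Fin d) (Fin d) R).map (Ideal.Quotient.mk J)).Finite) :
    ((Kc (d := d) J).comap ρ).relIndex L ≠ 0 := by
  let f : L →* Matrix.GeneralLinearGroup (Fin d) (R ⧸ J) :=
    ((Matrix.GeneralLinearGroup.map (n := Fin d) (Ideal.Quotient.mk J)).comp ρ).comp L.subtype
  have h1 : ((Kc (d := d) J).comap ρ).subgroupOf L = f.ker := by
    unfold Kc Subgroup.subgroupOf
    rw [MonoidHom.comap_ker, MonoidHom.comap_ker]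
  have h2 : Finite f.range := by
    have h3 : (Set.range fun g : L => ((f g : Matrix.GeneralLinearGroup (Fin d) (R ⧸ J)) :
        Matrix (Fin d) (Fin d) (R ⧸ J))).Finite := by
      exact hfin
    have h4 : (Set.range fun g : L => f g).Finite := by
      have h5 : (Set.range fun g : L => ((f g : Matrix.GeneralLinearGroup (Fin d) (R ⧸ J)) :
        Matrix (Fin d) (Fin d) (R ⧸ J))) = (fun u : Matrix.GeneralLinearGroup (Fin d) (R ⧸ J) =>
          (u : Matrix (Fin d) (Fin d) (R ⧸ J))) '' (Set.range fun g : L => f g) := by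
        rw [← Set.range_comp]; rfl
      rw [h5] at h3
      exact h3.of_finite_image (Units.val_injective.injOn)
    exact h4.to_subtype
  have h5 : f.ker.FiniteIndex := inferInstance
  unfold Subgroup.relIndex
  rw [h1]
  exact h5.index_ne_zero

theorem comm_Kc (𝔞 : Ideal R) : ⁅Kc (d := d) 𝔞, Kc (d := d) 𝔞⁆ ≤ Kc (d := d) (𝔞 * 𝔞) := by
  rw [commutator_le]
  intro g hg h hh
  rw [mem_Kc] at hg hh ⊢
  set A : Matrix (Fin d) (Fin d) R := (g : Matrix (Fin d) (Fin d) R) with hA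
  set B : Matrix (Fin d) (Fin d) R := (h : Matrix (Fin d) (Fin d) R) with hB
  set A' : Matrix (Fin d) (Fin d) R :=
    ((g⁻¹ : Matrix.GeneralLinearGroup (Fin d) R) : Matrix (Fin d) (Fin d) R) with hA'
  set B' : Matrix (Fin d) (Fin d) R :=
    ((h⁻¹ : Matrix.GeneralLinearGroup (Fin d) R) : Matrix (Fin d) (Fin d) R) with hB'
  have hAA : A * A' = 1 := by rw [hA, hA', ← Units.val_mul, mul_inv_cancel, Units.val_one]
  have hBB : B * B' = 1 := by rw [hB, hB', ← Units.val_mul, mul_inv_cancel, Units.val_one]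
  have e1 : ((⁅g, h⁆ : Matrix.GeneralLinearGroup (Fin d) R) : Matrix (Fin d) (Fin d) R) - 1 =
      ((A - 1) * (B - 1) - (B - 1) * (A - 1)) * (A' * B') := by
    rw [commutatorElement_def, Units.val_mul, Units.val_mul, Units.val_mul, ← hA, ← hB, ← hA',
      ← hB']
    have e2 : (A - 1) * (B - 1) - (B - 1) * (A - 1) = A * B - B * A := by noncomm_ring
    have e3 : B * A * (A' * B') = 1 := by
      rw [Matrix.mul_assoc, ← Matrix.mul_assoc A, hAA, Matrix.one_mul, hBB]
    rw [e2, Matrix.sub_mul, e3, Matrix.mul_assoc (A * B)]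
  intro i j
  have e4 : ((⁅g, h⁆ : Matrix.GeneralLinearGroup (Fin d) R) : Matrix (Fin d) (Fin d) R) i j -
      (1 : Matrix (Fin d) (Fin d) R) i j =
      (((⁅g, h⁆ : Matrix.GeneralLinearGroup (Fin d) R) : Matrix (Fin d) (Fin d) R) - 1) i j := rfl
  rw [e4, e1, Matrix.mul_apply]
  refine sum_mem fun k _ => Ideal.mul_mem_right _ _ ?_
  rw [Matrix.sub_apply, Matrix.mul_apply, Matrix.mul_apply]
  exact Ideal.sub_mem _ (sum_mem fun l _ => Ideal.mul_mem_mul (hg i l) (hh l k))
    (sum_mem fun l _ => Ideal.mul_mem_mul (hh i l) (hg l k))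

theorem Kc_mono {𝔞 𝔟 : Ideal R} (h : 𝔞 ≤ 𝔟) : Kc (d := d) 𝔞 ≤ Kc (d := d) 𝔟 := by
  intro g hg
  rw [mem_Kc] at hg ⊢
  exact fun i j => h (hg i j)

/-- Suslin's lemma for all elements of the elementary group -/
theorem suslin_El (hd : 3 ≤ d) (H : Subgroup (Matrix.GeneralLinearGroup (Fin d) R))
    (hH : H.Normal)
    (g : Matrix.GeneralLinearGroup (Fin d) R) (hg : g ∈ Kc (d := d) (Lev H))
    {e : Matrix.GeneralLinearGroup (Fin d) R} (he : e ∈ El d R) : ⁅g, e⁆ ∈ H := by
  have hg' : g⁻¹ ∈ Kc (d := d) (Lev H) := inv_mem hg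
  have hH' : IsN (⊤ : Ideal R) H := fun e _ h hh => hH.conj_mem h hh e
  have hbase : ∀ (i j : Fin d) (h : i ≠ j) (a : R), ⁅g, tv i j h a⁆ ∈ H := fun i j h a =>
    suslin hd H hH' g (mem_Kc.1 hg) (mem_Kc.1 hg') i j h a
  unfold El at he
  induction he using closure_induction with
  | mem t ht =>
    obtain ⟨i, j, hij, a, rfl⟩ := ht
    exact hbase i j hij a
  | one => rw [commutatorElement_one_right]; exact one_mem _
  | mul a b ha hb iha ihb =>
    have e1 : ⁅g, a * b⁆ = ⁅g, a⁆ * (a * ⁅g, b⁆ * a⁻¹) := by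
      simp only [commutatorElement_def]; group
    rw [e1]
    exact mul_mem iha (hH.conj_mem _ ihb a)
  | inv a ha iha =>
    have e1 : ⁅g, a⁻¹⁆ = a⁻¹ * ⁅g, a⁆⁻¹ * a⁻¹⁻¹ := by
      simp only [commutatorElement_def]; group
    rw [e1]
    exact hH.conj_mem _ (inv_mem iha) _

/-- a finite layer -/
theorem good_finite (hn : 2 ≤ n) (x : Fin n → G) (hx : closure (Set.range x) = ⊤)
    (v : Fin n → G) (hv : normalClosure (Set.range v) = ⊤) (M L : Subgroup G) [M.Normal]
    [L.Normal] (hfin : M.relIndex L ≠ 0) (hLM : ¬ L ≤ M)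
    (h : ∀ L' : Subgroup G, L'.Normal → M < L' → Good x v L') : Good x v M := by
  classical
  have hex : ∃ m : ℕ, ∃ K : Subgroup G, K.Normal ∧ M < K ∧ M.relIndex K ≠ 0 ∧
      M.relIndex K = m := by
    refine ⟨_, M ⊔ L, inferInstance, left_lt_sup.2 hLM, ?_, rfl⟩
    rwa [sup_comm, relIndex_sup_right]
  obtain ⟨K, hKn, hMK, hK0, hKm⟩ := Nat.find_spec hex
  refine good_layer x hx hn v hv hMK.le (Or.inr (Or.inl ?_)) (h K hKn hMK)
  intro X hXn hMX hXK
  by_contra hcon
  push Not at hcon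
  have hMX' : M < X := lt_of_le_of_ne hMX (Ne.symm hcon.1)
  have h1 : M.relIndex X * X.relIndex K = M.relIndex K := relIndex_mul_relIndex M X K hMX hXK
  have h2 : M.relIndex X ≠ 0 := fun h0 => hK0 (by rw [← h1, h0, zero_mul])
  have h3 : X.relIndex K ≠ 0 := fun h0 => hK0 (by rw [← h1, h0, mul_zero])
  have h4 : X.relIndex K ≠ 1 := by
    intro h0
    rw [relIndex_eq_one] at h0
    exact hcon.2 (le_antisymm hXK h0)
  have h5 : M.relIndex X < M.relIndex K := by
    rw [← h1]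
    have h6 : 1 < X.relIndex K := by omega
    exact lt_mul_of_one_lt_right (Nat.pos_of_ne_zero h2) h6
  exact Nat.find_min hex (by rw [← hKm]; exact h5) ⟨X, hXn, hMX', h2, rfl⟩

/-- The induction step for a ring. -/
theorem step_ring [IsNoetherianRing R] (hn : 2 ≤ n) (hd : 3 ≤ d)
    (hdim : ringKrullDim R < (((n - 1) * (d * (d - 1)) : ℕ) : WithBot ℕ∞))
    (ρ : G →* Matrix.GeneralLinearGroup (Fin d) R) (J₀ : Ideal R)
    (hE : EJ (d := d) J₀ ≤ ρ.range) (L : Subgroup G) [L.Normal]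
    (hJ₀ : ((Kc (d := d) J₀).comap ρ).relIndex L ≠ 0) (hsol : ∃ k, (Ds L k).map ρ ≤ El d R)
    (x : Fin n → G)
    (hx : closure (Set.range x) = ⊤) (v : Fin n → G) (hv : normalClosure (Set.range v) = ⊤)
    (M : Subgroup G) [M.Normal] (hNM : L ⊓ ρ.ker ≤ M) (hLM : ¬ L ≤ M)
    (h : ∀ L' : Subgroup G, L'.Normal → M < L' → Good x v L') : Good x v M := by
  classical
  set L₀ : Subgroup G := L ⊓ commutator G with hL₀
  have hL₀n : L₀.Normal := inferInstance
  set B : Subgroup G := M ⊓ commutator G with hB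
  have hBn : B.Normal := inferInstance
  have hkB : L₀ ⊓ ρ.ker ≤ B :=
    le_inf ((inf_le_inf_right _ inf_le_left).trans hNM) (inf_le_left.trans inf_le_right)
  set 𝔠 : Ideal R := Lev (L₀.map ρ) with h𝔠def
  set q : Ideal R := Lev (img ρ L₀ B) with hq
  by_cases hex : ∃ p ∈ q.minimalPrimes, ¬ 𝔠 ≤ p ∧ ¬ J₀ ≤ p
  · obtain ⟨p, hpq, h𝔠p, hJp⟩ := hex
    exact step_arith (by omega) hd hdim ρ hE L₀ inf_le_right x hx v hv M B hB hkB p hpq h𝔠p hJp h
  · push Not at hex
    -- `L` is soluble-by-finite modulo `M`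
    have h𝔠q : 𝔠 * J₀ ≤ q.radical := by
      rw [← Ideal.sInf_minimalPrimes]
      refine le_sInf fun p hp => ?_
      by_cases h1 : 𝔠 ≤ p
      · exact Ideal.mul_le_left.trans h1
      · exact Ideal.mul_le_right.trans (hex p hp h1)
    have hsc : ∀ P : Ideal R, P.IsPrime → 𝔠 ≤ P → ¬ J₀ ≤ P → ∀ g ∈ L, ρ g ∈ Sc (d := d) P := by
      intro P hP h𝔠P hJP g hg
      obtain ⟨y, hyJ, hyP⟩ := SetLike.not_le_iff_exists.1 hJP
      refine sc_of_lev hd (L₀.map ρ) (isN_map ρ L₀ hE) (EJ (d := d) J₀)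
        (fun e he t ht => mul_mem (mul_mem he ht) (inv_mem he)) hyJ
        (fun i j hij a => tv_mem_EJ (Ideal.mul_mem_right _ _ hyJ) i j hij) P hP hyP h𝔠P _ ?_
      intro T hT
      obtain ⟨t, rfl⟩ := hE hT
      refine ⟨g⁻¹ * t * g * t⁻¹, mem_inf.2 ⟨?_, ?_⟩, by simp⟩
      · have e : g⁻¹ * t * g * t⁻¹ = g⁻¹ * (t * g * t⁻¹) := by group
        rw [e]
        exact mul_mem (inv_mem hg) (‹L.Normal›.conj_mem g hg t)
      · have e : g⁻¹ * t * g * t⁻¹ = ⁅g⁻¹, t⁆ := by rw [commutatorElement_def, inv_inv]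
        rw [e, _root_.commutator_def]
        exact commutator_mem_commutator (mem_top _) (mem_top _)
    -- the congruence subgroup
    set S : Subgroup G := L ⊓ (Kc (d := d) J₀).comap ρ with hS
    have hSn : S.Normal := inferInstance
    set r : Ideal R := q.radical with hr
    have h1 : (Ds S 1).map ρ ≤ Kc (d := d) (r ⊓ J₀) := by
      change (⁅S, S⁆).map ρ ≤ _
      rw [map_le_iff_le_comap, commutator_le]
      intro g hg k hk
      have hgJ : ρ g ∈ Kc (d := d) J₀ := (mem_inf.1 hg).2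
      have hkJ : ρ k ∈ Kc (d := d) J₀ := (mem_inf.1 hk).2
      have hcJ : ρ ⁅g, k⁆ ∈ Kc (d := d) J₀ := by
        rw [map_commutatorElement, commutatorElement_def]
        exact mul_mem (mul_mem (mul_mem hgJ hkJ) (inv_mem hgJ)) (inv_mem hkJ)
      rw [mem_comap, mem_Kc]
      intro i j
      refine Submodule.mem_inf.2 ⟨?_, mem_Kc.1 hcJ i j⟩
      have h2 : (𝔠 * J₀).radical ≤ r := by
        rw [hr, Ideal.radical_le_radical_iff]
        exact h𝔠q
      apply h2
      rw [Ideal.radical_eq_sInf, Ideal.mem_sInf]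
      rintro P ⟨hP𝔠, hPp⟩
      by_cases hJP : J₀ ≤ P
      · exact hJP (mem_Kc.1 hcJ i j)
      · have hP𝔠' : 𝔠 ≤ P := (hPp.mul_le.1 hP𝔠).resolve_right hJP
        refine mem_Kc.1 ?_ i j
        have h3 := hsc P hPp hP𝔠' hJP g (mem_inf.1 hg).1
        unfold Sc at h3
        unfold Kc
        rw [MonoidHom.mem_ker, map_commutatorElement, map_commutatorElement,
          commutatorElement_eq_one_iff_mul_comm]
        exact (Subgroup.mem_center_iff.1 h3 _).symm
    have h2 : ∀ j, (Ds S (j + 1)).map ρ ≤ Kc (d := d) ((r ⊓ J₀) ^ 2 ^ j) := by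
      intro j
      induction j with
      | zero => rw [pow_zero, pow_one]; exact h1
      | succ j ih =>
        change (⁅Ds S (j + 1), Ds S (j + 1)⁆).map ρ ≤ _
        rw [map_commutator]
        refine (commutator_mono ih ih).trans ((comm_Kc _).trans (Kc_mono ?_))
        rw [← pow_two, ← pow_mul, ← pow_succ]
    set M₁ : Subgroup (Matrix.GeneralLinearGroup (Fin d) R) := (img ρ L₀ B).normalCore with hM₁
    obtain ⟨m, hm⟩ := Ideal.exists_radical_pow_le_of_fg q (IsNoetherian.noetherian q.radical)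
    obtain ⟨k, hk⟩ := hsol
    set j := max (m + 1) k with hj
    have hjK : (Ds S (j + 1)).map ρ ≤ Kc (d := d) (Lev M₁) := by
      refine (h2 j).trans (Kc_mono ?_)
      have h3 : (r ⊓ J₀) ^ 2 ^ j ≤ (r ⊓ J₀) ^ (m + 1) :=
        Ideal.pow_le_pow_right ((le_max_left (m + 1) k).trans (Nat.lt_two_pow_self).le)
      refine h3.trans ?_
      rw [pow_succ]
      exact (Ideal.mul_mono ((Ideal.pow_right_mono inf_le_left m).trans hm) inf_le_right).trans
        (Lev_core hd _ (isN_img ρ L₀ B hE))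
    have hjE : (Ds S (j + 1)).map ρ ≤ El d R :=
      (map_mono ((Ds_anti S ((le_max_right (m + 1) k).trans (Nat.le_succ j))).trans
        (Ds_mono inf_le_left k))).trans hk
    have hfin : Ds S (j + 1 + 1) ≤ M := by
      change ⁅Ds S (j + 1), Ds S (j + 1)⁆ ≤ M
      rw [commutator_le]
      intro g hg l hl
      have h3 : ⁅ρ g, ρ l⁆ ∈ M₁ :=
        suslin_El hd M₁ inferInstance (ρ g) (hjK ⟨g, hg, rfl⟩) (hjE ⟨l, hl, rfl⟩)
      have h3' : ⁅ρ g, ρ l⁆ ∈ img ρ L₀ B := normalCore_le _ h3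
      rw [← map_commutatorElement] at h3'
      have h4 : ⁅g, l⁆ ∈ L₀ := by
        refine mem_inf.2 ⟨?_, ?_⟩
        · have h5 : ⁅g, l⁆ ∈ Ds S (j + 1 + 1) := commutator_mem_commutator hg hl
          exact (mem_inf.1 (Ds_anti S (Nat.zero_le _) h5)).1
        · rw [_root_.commutator_def]
          exact commutator_mem_commutator (mem_top _) (mem_top _)
      exact (mem_inf.1 ((mem_img hkB h4).1 h3')).1
    by_cases hSM : S ≤ M
    · -- a finite layer
      refine good_finite hn x hx v hv M L ?_ hLM h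
      have h5 : S.relIndex L ≠ 0 := by
        rw [hS, inf_relIndex_left]
        exact hJ₀
      intro h9
      apply h5
      have h10 : M.relIndex L ∣ S.relIndex L := relIndex_dvd_of_le_left L hSM
      rw [h9, zero_dvd_iff] at h10
      exact h10
    · have hex2 : ∃ j, Ds S j ≤ M := ⟨_, hfin⟩
      have hj0 : Nat.find hex2 ≠ 0 := by
        intro h0
        have := Nat.find_spec hex2
        rw [h0] at this
        exact hSM this
      obtain ⟨a, ha⟩ := Nat.exists_eq_succ_of_ne_zero hj0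
      have haM : ¬ Ds S a ≤ M := Nat.find_min hex2 (by omega)
      have hcomm : ⁅Ds S a, Ds S a⁆ ≤ M := by
        have := Nat.find_spec hex2
        rw [ha] at this
        exact this
      have := Ds_normal S a
      exact good_abelian x hx hn v hv M (Ds S a) hcomm (h _ inferInstance (left_lt_sup.2 haM))

/-- **Theorem 2.** -/
theorem main2 [IsNoetherianRing R] (x v : Fin n → G) (L : Subgroup G) (hLn : L.Normal)
    (hn : 2 ≤ n)
    (hx : closure (Set.range x) = ⊤) (hv : normalClosure (Set.range v) = ⊤)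
    (hbase : (L = ⊤ ∧ Bijective (FreeGroup.lift x)) ∨
      ∃ s, AC v s ∧ ∀ i, (x i)⁻¹ * s i ∈ L ⊓ commutator G)
    (hd : 3 ≤ d) (hdim : ringKrullDim R < (((n - 1) * (d * (d - 1)) : ℕ) : WithBot ℕ∞))
    (ρ : G →* Matrix.GeneralLinearGroup (Fin d) R) (J : Ideal R)
    (hE : ∀ i j : Fin d, i ≠ j → ∀ c ∈ J, ∃ g : G,
      (ρ g : Matrix (Fin d) (Fin d) R) = 1 + Matrix.single i j c)
    (hJ : (Set.range fun g : L =>
      ((ρ (g : G)) : Matrix (Fin d) (Fin d) R).map (Ideal.Quotient.mk J)).Finite)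
    (hsol : ∃ k, ∀ g ∈ derivedSeries L k, ρ (g : G) ∈ ElemGroup d R) :
    ∃ s, AC v s ∧ ∀ i, (x i)⁻¹ * s i ∈ L ⊓ ρ.ker ⊓ commutator G := by
  have hL : Good x v L := good_base x v L hv hbase
  have hE' : EJ (d := d) J ≤ ρ.range := by
    unfold EJ
    rw [closure_le]
    rintro _ ⟨i, j, hij, c, hc, rfl⟩
    obtain ⟨g, hg⟩ := hE i j hij c hc
    exact ⟨g, Units.ext (by rw [hg, coe_tv])⟩
  have hsol' : ∃ k, (Ds L k).map ρ ≤ El d R := by
    obtain ⟨k, hk⟩ := hsol
    refine ⟨k, ?_⟩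
    rw [Ds_eq, map_le_iff_le_comap]
    rintro _ ⟨g, hg, rfl⟩
    rw [mem_comap, ← ElemGroup_eq]
    exact hk g hg
  refine good_of_step x v (hL.mono le_top) (L ⊓ ρ.ker) inferInstance (fun M hM hNM _ hK => ?_)
  by_cases hLM : L ≤ M
  · exact hL.mono hLM
  · exact step_ring hn hd hdim ρ J hE' L (relIndex_Kc ρ J L hJ) hsol' x hx v hv M hNM hLM hK

end main

end Pool.Agent.ACQ
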