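import Pool.Agent.Lib_helper44.ACQ.Gl

/-!
# Levels of normal closures: the basic identity, and reduction modulo primes
-/

set_option autoImplicit false

namespace Pool.Agent.ACQ

open Function Subgroup Matrix
open scoped commutatorElement

universe w

variable {d : ℕ} {R : Type w} [CommRing R]

theorem rk_inv (a b : Fin d → R) (h : b ⬝ᵥ a = 0) :
    (rk a b h)⁻¹ = rk (-a) b (by rw [dotProduct_neg, h, neg_zero]) := by
  apply Units.ext
  rw [coe_rk_inv, coe_rk, neg_vecMulVec, sub_eq_add_neg]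

/-- the commutator of `1 + u e` and `1 + f z` if `e u`, `z f` and `z u` vanish -/
theorem comm_rk' (u e f z : Fin d → R) (h1 : e ⬝ᵥ u = 0) (h2 : z ⬝ᵥ f = 0) (h3 : z ⬝ᵥ u = 0) :
    rk u e h1 * rk f z h2 * (rk u e h1)⁻¹ * (rk f z h2)⁻¹ =
      rk ((e ⬝ᵥ f) • u) z (by rw [dotProduct_smul, h3, smul_zero]) := by
  rw [conj_rk, rk_inv f z]
  have e1 : ((rk u e h1 : Matrix.GeneralLinearGroup (Fin d) R) : Matrix (Fin d) (Fin d) R) *ᵥ f =
      f + (e ⬝ᵥ f) • u := by
    rw [coe_rk, add_mulVec, one_mulVec, vecMulVec_mulVec]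
    simp
  have e2 : z ᵥ* (((rk u e h1)⁻¹ : Matrix.GeneralLinearGroup (Fin d) R) :
      Matrix (Fin d) (Fin d) R) = z := by
    rw [coe_rk_inv, vecMul_sub, vecMul_one, vecMul_vecMulVec, h3, zero_smul, sub_zero]
  rw [rk_congr _ e1 e2, rk_mul_right]
  apply rk_congr _ _ rfl
  abel

/-- **The basic identity**: let `Λ` contain all elementary matrices with entries in `y R`. If all
`g⁻¹ T g T⁻¹`, `T ∈ Λ`, lie in `H`, then `y ^ 6 (g⁻¹)_{jc} g_{rc}` lies in the level of `H`. -/
theorem star (hd : 3 ≤ d) (H : Subgroup (Matrix.GeneralLinearGroup (Fin d) R)) {J : Ideal R}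
    (hH : IsN J H) (Λ : Subgroup (Matrix.GeneralLinearGroup (Fin d) R)) {y : R} (hyJ : y ∈ J)
    (hy : ∀ (i j : Fin d) (h : i ≠ j) (a : R), tv i j h (y * a) ∈ Λ)
    (g : Matrix.GeneralLinearGroup (Fin d) R)
    (hg : ∀ T ∈ Λ, g⁻¹ * T * g * T⁻¹ ∈ H) (c j r : Fin d) (hj : j ≠ c) (hr : r ≠ c) :
    y ^ 6 * (((g⁻¹ : Matrix.GeneralLinearGroup (Fin d) R) : Matrix (Fin d) (Fin d) R) j c *
      (g : Matrix (Fin d) (Fin d) R) r c) ∈ Lev H := by
  obtain ⟨s, hsr, hsc⟩ := third hd r c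
  set A : Matrix (Fin d) (Fin d) R := (g : Matrix (Fin d) (Fin d) R) with hA
  set B : Matrix (Fin d) (Fin d) R :=
    ((g⁻¹ : Matrix.GeneralLinearGroup (Fin d) R) : Matrix (Fin d) (Fin d) R) with hB
  have hAB : A * B = 1 := by rw [hA, hB, ← Units.val_mul, mul_inv_cancel, Units.val_one]
  have hBA : B * A = 1 := by rw [hA, hB, ← Units.val_mul, inv_mul_cancel, Units.val_one]
  set ec : Fin d → R := Pi.single c 1 with hec
  set z0 : Fin d → R := Pi.single s (A r c) + Pi.single r (-(A s c)) with hz0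
  have hz0c : z0 ⬝ᵥ ec = 0 := by
    rw [hec, dotProduct_single_one, hz0, Pi.add_apply, Pi.single_eq_of_ne hsc.symm,
      Pi.single_eq_of_ne hr.symm, add_zero]
  set b : Fin d → R := B *ᵥ ec with hb
  set w0 : Fin d → R := z0 ᵥ* A with hw0
  have hbj : b j = B j c := by
    rw [hb, hec, mulVec_single_one, Matrix.col_apply]
  have hw0c : w0 ⬝ᵥ ec = 0 := by
    rw [hec, dotProduct_single_one, hw0, hz0, add_vecMul, Pi.add_apply, single_vecMul,
      single_vecMul]
    simp only [Pi.smul_apply, Matrix.row_apply, smul_eq_mul]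
    ring
  have htv : ∀ (k : Fin d) (hk : c ≠ k) (a : R) (h : Pi.single k a ⬝ᵥ ec = 0),
      rk ec (Pi.single k a) h = tv c k hk a := by
    intro k hk a h
    apply Units.ext
    rw [coe_rk, tv, coe_rk]
    congr 1
    ext x y
    simp only [vecMulVec_apply, hec, Pi.single_apply]
    split_ifs <;> simp
  -- entries
  have hk : ∀ k, y ^ 6 * (w0 k * b j) ∈ Lev H := by
    intro k
    by_cases hkc : k = c
    · subst hkc
      rw [hec, dotProduct_single_one] at hw0c
      rw [hw0c, zero_mul, mul_zero]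
      exact zero_mem _
    obtain ⟨l, hlk, hlc⟩ := third hd k c
    have e6 : y ^ 6 * (w0 k * b j) = y ^ 3 * (y ^ 3 * (w0 k * b j)) := by ring
    rw [e6]
    apply Lev_of_one hd H hH hyJ (i := c) (j := l) hlc.symm
    intro ξ
    -- the matrix `T`
    set z : Fin d → R := (ξ * y) • z0 with hz
    set w : Fin d → R := (ξ * y) • w0 with hw
    have hzc : z ⬝ᵥ ec = 0 := by rw [hz, smul_dotProduct, hz0c, smul_zero]
    have hwc : w ⬝ᵥ ec = 0 := by rw [hw, smul_dotProduct, hw0c, smul_zero]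
    have h01 : Pi.single s (y * (ξ * A r c)) ⬝ᵥ ec = 0 := by
      rw [hec, dotProduct_single_one, Pi.single_eq_of_ne hsc.symm]
    have h02 : Pi.single r (y * (ξ * -(A s c))) ⬝ᵥ ec = 0 := by
      rw [hec, dotProduct_single_one, Pi.single_eq_of_ne hr.symm]
    set T : Matrix.GeneralLinearGroup (Fin d) R := rk ec z hzc with hT
    have hTE : T ∈ Λ := by
      have h1 : T = rk ec (Pi.single s (y * (ξ * A r c))) h01 *
          rk ec (Pi.single r (y * (ξ * -(A s c)))) h02 := by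
        rw [rk_mul_left]
        apply rk_congr _ rfl
        rw [hz, hz0]
        ext x
        simp only [Pi.smul_apply, Pi.add_apply, Pi.single_apply, smul_eq_mul]
        split_ifs <;> ring
      rw [h1, htv s hsc.symm, htv r hr.symm]
      exact mul_mem (hy _ _ _ _) (hy _ _ _ _)
    have hmem := hg T hTE
    -- `g⁻¹ T g = 1 + b w`
    have hwz : w = z ᵥ* A := by rw [hw, hz, hw0, smul_vecMul]
    have hwb : w ⬝ᵥ b = 0 := by
      rw [hb, hwz, dotProduct_mulVec, vecMul_vecMul, hAB, vecMul_one]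
      exact hzc
    have hconj : g⁻¹ * T * g = rk b w hwb := by
      apply Units.ext
      rw [Units.val_mul, Units.val_mul, hT, coe_rk, coe_rk, ← hA, ← hB, mul_add, add_mul, mul_one,
        hBA, mul_vecMulVec, vecMulVec_mul, ← hwz]
    -- commutator with `1 + y e_c e_j`
    set t : Matrix.GeneralLinearGroup (Fin d) R := tv c j hj.symm y with ht
    have hscw : w ⬝ᵥ Pi.single c (y * b j) = 0 := by
      have h1 := hwc
      rw [hec, dotProduct_single_one] at h1
      rw [dotProduct_single, h1, zero_mul]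
    have hU : rk (Pi.single c (y * b j)) w hscw ∈ H := by
      have h1 : t * (g⁻¹ * T * g * T⁻¹) * t⁻¹ * (g⁻¹ * T * g * T⁻¹)⁻¹ ∈ H :=
        mul_mem (hH t (tv_mem_EJ hyJ _ _ _) _ hmem) (inv_mem hmem)
      have htT : T⁻¹ * t⁻¹ = t⁻¹ * T⁻¹ := by
        have h2 : t = rk ec (Pi.single j y) (by
            rw [hec, dotProduct_single_one, Pi.single_eq_of_ne hj.symm]) := by
          rw [htv j hj.symm]
        have h3 : t * T = T * t := by
          rw [h2, hT, rk_mul_left, rk_mul_left]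
          apply rk_congr _ rfl
          abel
        rw [← _root_.mul_inv_rev, h3, _root_.mul_inv_rev]
      have h2 : t * (g⁻¹ * T * g * T⁻¹) * t⁻¹ * (g⁻¹ * T * g * T⁻¹)⁻¹ =
          t * (g⁻¹ * T * g) * t⁻¹ * (g⁻¹ * T * g)⁻¹ := by
        have h4 : t * (g⁻¹ * T * g * T⁻¹) * t⁻¹ * (g⁻¹ * T * g * T⁻¹)⁻¹ =
          t * (g⁻¹ * T * g) * (T⁻¹ * t⁻¹) * T * (g⁻¹ * T * g)⁻¹ := by group
        rw [h4, htT]
        group
      rw [h2, hconj] at h1
      have h3 : t * rk b w hwb * t⁻¹ * (rk b w hwb)⁻¹ = rk (Pi.single c (y * b j)) w hscw := by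
        rw [conj_rk, rk_inv b w]
        have e1 : ((t : Matrix.GeneralLinearGroup (Fin d) R) : Matrix (Fin d) (Fin d) R) *ᵥ b =
            b + Pi.single c (y * b j) := by
          rw [ht, tv, coe_rk, add_mulVec, one_mulVec, vecMulVec_mulVec, single_one_dotProduct]
          ext x
          simp only [Pi.add_apply, Pi.smul_apply, Pi.single_apply, MulOpposite.smul_eq_mul_unop,
            MulOpposite.unop_op]
          split_ifs <;> simp
        have e2 : w ᵥ* ((t⁻¹ : Matrix.GeneralLinearGroup (Fin d) R) :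
            Matrix (Fin d) (Fin d) R) = w := by
          have hwy : w ⬝ᵥ Pi.single c y = 0 := by
            have h1 := hwc
            rw [hec, dotProduct_single_one] at h1
            rw [dotProduct_single, h1, zero_mul]
          rw [ht, tv, coe_rk_inv, vecMul_sub, vecMul_one, vecMul_vecMulVec]
          rw [hwy, zero_smul, sub_zero]
        rw [rk_congr _ e1 e2, rk_mul_right]
        apply rk_congr _ _ rfl
        abel
      rw [h3] at h1
      exact h1
    have h1 : rk (Pi.single c (y * b j)) w hscw * tv k l hlk.symm y *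
        (rk (Pi.single c (y * b j)) w hscw)⁻¹ * (tv k l hlk.symm y)⁻¹ ∈ H := by
      have h2 : rk (Pi.single c (y * b j)) w hscw * tv k l hlk.symm y *
        (rk (Pi.single c (y * b j)) w hscw)⁻¹ * (tv k l hlk.symm y)⁻¹ =
        rk (Pi.single c (y * b j)) w hscw * (tv k l hlk.symm y *
        (rk (Pi.single c (y * b j)) w hscw)⁻¹ * (tv k l hlk.symm y)⁻¹) := by group
      rw [h2]
      exact mul_mem hU (hH _ (tv_mem_EJ hyJ _ _ _) _ (inv_mem hU))
    have h3 : rk (Pi.single c (y * b j)) w hscw * tv k l hlk.symm y *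
        (rk (Pi.single c (y * b j)) w hscw)⁻¹ * (tv k l hlk.symm y)⁻¹ =
        tv c l hlc.symm (ξ * (y ^ 3 * (w0 k * b j))) := by
      unfold tv
      rw [comm_rk' _ _ _ _ hscw _ (by
        rw [single_one_dotProduct, Pi.single_eq_of_ne hlc])]
      apply rk_congr _ _ rfl
      rw [dotProduct_single, hw]
      ext x
      simp only [Pi.smul_apply, Pi.single_apply, smul_eq_mul]
      split_ifs
      · ring
      · ring
    rw [h3] at h1
    exact h1
  -- combine
  have hfin : y ^ 6 * (B j c * A r c) = ∑ k, B k s * (y ^ 6 * (w0 k * b j)) := by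
    have h1 : (w0 ᵥ* B) s = A r c := by
      rw [hw0, vecMul_vecMul, hAB, vecMul_one, hz0, Pi.add_apply, Pi.single_eq_same,
        Pi.single_eq_of_ne hsr, add_zero]
    rw [← h1, ← hbj]
    change y ^ 6 * (b j * ∑ k, w0 k * B k s) = _
    rw [Finset.mul_sum, Finset.mul_sum]
    exact Finset.sum_congr rfl fun k _ => by ring
  rw [hfin]
  exact sum_mem fun k _ => Ideal.mul_mem_left _ _ (hk k)

/-- conjugates by elementary matrices satisfy the same hypothesis -/
theorem hyp_conj (H : Subgroup (Matrix.GeneralLinearGroup (Fin d) R)) {J : Ideal R}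
    (hH : IsN J H) (Λ : Subgroup (Matrix.GeneralLinearGroup (Fin d) R)) (hΛ : IsN J Λ)
    (g : Matrix.GeneralLinearGroup (Fin d) R) (hg : ∀ T ∈ Λ, g⁻¹ * T * g * T⁻¹ ∈ H)
    {e : Matrix.GeneralLinearGroup (Fin d) R} (he : e ∈ EJ (d := d) J) :
    ∀ T ∈ Λ, (e * g * e⁻¹)⁻¹ * T * (e * g * e⁻¹) * T⁻¹ ∈ H := by
  intro T hT
  have h0 := hΛ e⁻¹ (inv_mem he) T hT
  rw [inv_inv] at h0
  have h1 := hg (e⁻¹ * T * e) h0
  have h2 := hH e he _ h1
  have h3 : e * (g⁻¹ * (e⁻¹ * T * e) * g * (e⁻¹ * T * e)⁻¹) * e⁻¹ =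
      (e * g * e⁻¹)⁻¹ * T * (e * g * e⁻¹) * T⁻¹ := by group
  rwa [h3] at h2

/-- matrices which are scalar modulo `P` -/
def Sc (P : Ideal R) : Subgroup (Matrix.GeneralLinearGroup (Fin d) R) :=
  (Subgroup.center (Matrix.GeneralLinearGroup (Fin d) (R ⧸ P))).comap
    (Matrix.GeneralLinearGroup.map (Ideal.Quotient.mk P))

instance Sc_normal (P : Ideal R) : (Sc (d := d) P).Normal := by
  unfold Sc; infer_instance

theorem Sc_of_entries (P : Ideal R) (g : Matrix.GeneralLinearGroup (Fin d) R)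
    (h : ∀ i j, i ≠ j → (g : Matrix (Fin d) (Fin d) R) i j ∈ P)
    (h' : ∀ i j, (g : Matrix (Fin d) (Fin d) R) i i - (g : Matrix (Fin d) (Fin d) R) j j ∈ P) :
    g ∈ Sc (d := d) P := by
  unfold Sc
  rw [Subgroup.mem_comap, Matrix.GeneralLinearGroup.mem_center_iff_val_mem_range_scalar]
  rcases isEmpty_or_nonempty (Fin d) with he | ⟨⟨i₀⟩⟩
  · exact ⟨0, by ext i; exact he.elim i⟩
  · refine ⟨Ideal.Quotient.mk P ((g : Matrix (Fin d) (Fin d) R) i₀ i₀), ?_⟩
    ext i j
    change _ = (Matrix.GeneralLinearGroup.map (Ideal.Quotient.mk P) g) i j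
    rw [Matrix.GeneralLinearGroup.map_apply, Matrix.scalar_apply]
    by_cases hij : i = j
    · subst hij
      rw [diagonal_apply_eq]
      exact Ideal.Quotient.eq.2 (h' i₀ i)
    · rw [diagonal_apply_ne _ hij, eq_comm, Ideal.Quotient.eq_zero_iff_mem]
      exact h i j hij

theorem Sc_of_one_mod (P : Ideal R) (g : Matrix.GeneralLinearGroup (Fin d) R)
    (h : ∀ i j, (g : Matrix (Fin d) (Fin d) R) i j - (1 : Matrix (Fin d) (Fin d) R) i j ∈ P) :
    g ∈ Sc (d := d) P := by
  apply Sc_of_entries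
  · intro i j hij
    have := h i j
    rwa [one_apply_ne hij, sub_zero] at this
  · intro i j
    have h1 := h i i
    have h2 := h j j
    rw [one_apply_eq] at h1 h2
    have := P.sub_mem h1 h2
    rwa [sub_sub_sub_cancel_right] at this

theorem map_tv (P : Ideal R) (i j : Fin d) (h : i ≠ j) (c : R) :
    Matrix.GeneralLinearGroup.map (Ideal.Quotient.mk P) (tv i j h c) =
      tv i j h (Ideal.Quotient.mk P c) := by
  ext a b
  rw [Matrix.GeneralLinearGroup.map_apply, coe_tv, coe_tv, Matrix.add_apply, Matrix.add_apply,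
    map_add, Matrix.single_apply, Matrix.single_apply, Matrix.one_apply, Matrix.one_apply]
  split_ifs <;> simp

theorem tv_notMem_Sc (hd : 3 ≤ d) (P : Ideal R) {a : R} (ha : a ∉ P) (i j : Fin d) (h : i ≠ j) :
    tv i j h a ∉ Sc (d := d) P := by
  intro hmem
  unfold Sc at hmem
  rw [Subgroup.mem_comap, map_tv, Subgroup.mem_center_iff] at hmem
  obtain ⟨k, hki, hkj⟩ := third hd i j
  have h1 := hmem (tv j k hkj.symm 1)
  have h2 := tv_comm i j k h hkj.symm hki.symm (Ideal.Quotient.mk P a) 1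
  rw [← h1, mul_one, mul_inv_cancel_right, mul_inv_cancel] at h2
  have h3 := congrArg (fun g : Matrix.GeneralLinearGroup (Fin d) (R ⧸ P) =>
    (g : Matrix (Fin d) (Fin d) (R ⧸ P)) i k) h2
  simp only [coe_tv, Units.val_one, Matrix.add_apply, one_apply_ne hki.symm,
    Matrix.single_apply_same, zero_add] at h3
  apply ha
  rw [← Ideal.Quotient.eq_zero_iff_mem]
  exact h3.symm

/-- for a prime ideal `P`: if all products `(h⁻¹)_{jc} h_{rc}` of conjugates `h` of `g` lie in
`P`, then `g` is scalar modulo `P` -/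
theorem offdiag_of_prod (P : Ideal R) (hP : P.IsPrime) (g : Matrix.GeneralLinearGroup (Fin d) R)
    (h : ∀ c j r : Fin d, j ≠ c → r ≠ c →
      ((g⁻¹ : Matrix.GeneralLinearGroup (Fin d) R) : Matrix (Fin d) (Fin d) R) j c *
      (g : Matrix (Fin d) (Fin d) R) r c ∈ P) (r c : Fin d) (hrc : r ≠ c) :
    (g : Matrix (Fin d) (Fin d) R) r c ∈ P := by
  by_contra hnot
  set A : Matrix (Fin d) (Fin d) R := (g : Matrix (Fin d) (Fin d) R) with hA
  set B : Matrix (Fin d) (Fin d) R :=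
    ((g⁻¹ : Matrix.GeneralLinearGroup (Fin d) R) : Matrix (Fin d) (Fin d) R) with hB
  have hAB : A * B = 1 := by rw [hA, hB, ← Units.val_mul, mul_inv_cancel, Units.val_one]
  have hBj : ∀ j, j ≠ c → B j c ∈ P := fun j hj => (hP.mem_or_mem (h c j r hj hrc)).resolve_right hnot
  have h1 : ∀ k, (A * B) k c - A k c * B c c ∈ P := by
    intro k
    rw [Matrix.mul_apply, ← Finset.sum_erase_add _ _ (Finset.mem_univ c), add_sub_cancel_right]
    exact sum_mem fun j hj => Ideal.mul_mem_left _ _ (hBj j (Finset.ne_of_mem_erase hj))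
  have h2 : A r c * B c c ∈ P := by
    have := h1 r
    rw [hAB, one_apply_ne hrc, zero_sub] at this
    exact neg_mem_iff.1 this
  have h3 : B c c ∈ P := (hP.mem_or_mem h2).resolve_left hnot
  have h4 := h1 c
  rw [hAB, one_apply_eq] at h4
  apply hP.ne_top
  rw [Ideal.eq_top_iff_one]
  have := P.add_mem h4 (Ideal.mul_mem_left P (A c c) h3)
  rwa [sub_add_cancel] at this

theorem coe_tv' (i j : Fin d) (h : i ≠ j) (c : R) :
    ((tv i j h c : Matrix.GeneralLinearGroup (Fin d) R) : Matrix (Fin d) (Fin d) R) =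
      transvection i j c := coe_tv i j h c

theorem conj_entry (g : Matrix.GeneralLinearGroup (Fin d) R) (i j : Fin d) (h : i ≠ j) (y : R) :
    ((tv i j h y * g * (tv i j h y)⁻¹ : Matrix.GeneralLinearGroup (Fin d) R) :
      Matrix (Fin d) (Fin d) R) i j =
      (g : Matrix (Fin d) (Fin d) R) i j + y * (g : Matrix (Fin d) (Fin d) R) j j -
        y * (g : Matrix (Fin d) (Fin d) R) i i - y ^ 2 * (g : Matrix (Fin d) (Fin d) R) j i := by
  rw [tv_inv, Units.val_mul, Units.val_mul, coe_tv', coe_tv', mul_transvection_apply_same,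
    transvection_mul_apply_same, transvection_mul_apply_same]
  ring

theorem sc_of_prod (P : Ideal R) (hP : P.IsPrime) {J : Ideal R} (hJP : ¬ J ≤ P)
    (g : Matrix.GeneralLinearGroup (Fin d) R)
    (h : ∀ e ∈ EJ (d := d) J, ∀ c j r : Fin d, j ≠ c → r ≠ c →
      (((e * g * e⁻¹)⁻¹ : Matrix.GeneralLinearGroup (Fin d) R) : Matrix (Fin d) (Fin d) R) j c *
      ((e * g * e⁻¹ : Matrix.GeneralLinearGroup (Fin d) R) : Matrix (Fin d) (Fin d) R) r c ∈ P) :
    g ∈ Sc (d := d) P := by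
  obtain ⟨y, hyJ, hyP⟩ := SetLike.not_le_iff_exists.1 hJP
  have hoff : ∀ e ∈ EJ (d := d) J, ∀ r c : Fin d, r ≠ c →
      ((e * g * e⁻¹ : Matrix.GeneralLinearGroup (Fin d) R) : Matrix (Fin d) (Fin d) R) r c ∈ P :=
    fun e he r c hrc => offdiag_of_prod P hP (e * g * e⁻¹) (h e he) r c hrc
  have hoff1 : ∀ r c : Fin d, r ≠ c → (g : Matrix (Fin d) (Fin d) R) r c ∈ P := by
    intro r c hrc
    have := hoff 1 (one_mem _) r c hrc
    rwa [one_mul, inv_one, mul_one] at this
  apply Sc_of_entries P g hoff1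
  intro j i
  by_cases hij : i = j
  · subst hij; rw [sub_self]; exact zero_mem _
  · have h1 := hoff (tv i j hij y) (tv_mem_EJ hyJ _ _ _) i j hij
    rw [conj_entry] at h1
    have h2 := P.add_mem (P.sub_mem h1 (hoff1 i j hij))
      (Ideal.mul_mem_left P (y ^ 2) (hoff1 j i (Ne.symm hij)))
    have h3 : (g : Matrix (Fin d) (Fin d) R) i j + y * (g : Matrix (Fin d) (Fin d) R) j j -
        y * (g : Matrix (Fin d) (Fin d) R) i i - y ^ 2 * (g : Matrix (Fin d) (Fin d) R) j i -
        (g : Matrix (Fin d) (Fin d) R) i j + y ^ 2 * (g : Matrix (Fin d) (Fin d) R) j i =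
        y * ((g : Matrix (Fin d) (Fin d) R) j j - (g : Matrix (Fin d) (Fin d) R) i i) := by ring
    rw [h3] at h2
    exact (hP.mem_or_mem h2).resolve_left hyP

/-- if the level of `H` is contained in the prime `P`, then all `g` whose commutators with `Λ`
lie in `H` are scalar modulo `P` -/
theorem sc_of_lev (hd : 3 ≤ d) (H : Subgroup (Matrix.GeneralLinearGroup (Fin d) R))
    {J : Ideal R} (hH : IsN J H)
    (Λ : Subgroup (Matrix.GeneralLinearGroup (Fin d) R)) (hΛ : IsN J Λ)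
    {y : R} (hyJ : y ∈ J) (hy : ∀ (i j : Fin d) (h : i ≠ j) (a : R), tv i j h (y * a) ∈ Λ)
    (P : Ideal R) (hP : P.IsPrime) (hyP : y ∉ P) (hHP : Lev H ≤ P)
    (g : Matrix.GeneralLinearGroup (Fin d) R) (hg : ∀ T ∈ Λ, g⁻¹ * T * g * T⁻¹ ∈ H) :
    g ∈ Sc (d := d) P :=
  sc_of_prod P hP (fun h => hyP (h hyJ)) g fun _ he c j r hj hr =>
    (hP.mem_or_mem (hHP (star hd H hH Λ hyJ hy _
      (hyp_conj H hH Λ hΛ g hg he) c j r hj hr))).resolve_left
      (fun h => hyP (hP.mem_of_pow_mem 6 h))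

theorem offdiag_of_lev (hd : 3 ≤ d) (H : Subgroup (Matrix.GeneralLinearGroup (Fin d) R))
    {J : Ideal R} (hH : IsN J H) (Λ : Subgroup (Matrix.GeneralLinearGroup (Fin d) R))
    {y : R} (hyJ : y ∈ J) (hy : ∀ (i j : Fin d) (h : i ≠ j) (a : R), tv i j h (y * a) ∈ Λ)
    (P : Ideal R) (hP : P.IsPrime) (hyP : y ∉ P) (hHP : Lev H ≤ P)
    (g : Matrix.GeneralLinearGroup (Fin d) R) (hg : ∀ T ∈ Λ, g⁻¹ * T * g * T⁻¹ ∈ H)
    (r c : Fin d) (hrc : r ≠ c) : (g : Matrix (Fin d) (Fin d) R) r c ∈ P :=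
  offdiag_of_prod P hP g (fun c j r hj hr =>
    (hP.mem_or_mem (hHP (star hd H hH Λ hyJ hy g hg c j r hj hr))).resolve_left
      (fun h => hyP (hP.mem_of_pow_mem 6 h))) r c hrc

end Pool.Agent.ACQ
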