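import Pool.Agent.Lib_helper44.ACQ.Lift

/-!
# The transfinite induction, and tuples of elements of a free group
-/

set_option autoImplicit false

namespace Pool.Agent.ACQ

open Function Subgroup
open scoped commutatorElement

universe u

section Zorn

variable {G : Type u} [Group G] {n : ℕ}

/-- `v` can be brought to `x` modulo `M ∩ [G, G]`. -/
def Good (x v : Fin n → G) (M : Subgroup G) : Prop :=
  ∃ s, AC v s ∧ ∀ i, (x i)⁻¹ * s i ∈ M ⊓ commutator G

theorem good_of_step (x v : Fin n → G) (htop : Good x v ⊤) (N : Subgroup G) (hN : N.Normal)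
    (h : ∀ M : Subgroup G, M.Normal → N ≤ M → M ≠ ⊤ →
      (∀ L : Subgroup G, L.Normal → M < L → Good x v L) → Good x v M) :
    Good x v N := by
  by_contra hbad
  let S : Set (Subgroup G) := {M | M.Normal ∧ N ≤ M ∧ ¬ Good x v M}
  obtain ⟨M, -, hM⟩ := zorn_le_nonempty₀ S (by
    intro c hc hchain y hy
    have hdir : DirectedOn (· ≤ ·) c := hchain.directedOn
    have hmem : ∀ {g : G}, g ∈ sSup c ↔ ∃ s ∈ c, g ∈ s :=
      fun {g} => mem_sSup_of_directedOn ⟨y, hy⟩ hdir
    refine ⟨sSup c, ⟨⟨?_⟩, (hc hy).2.1.trans (le_sSup hy), ?_⟩, fun z hz => le_sSup hz⟩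
    · intro g hg k
      obtain ⟨K, hK, hgK⟩ := hmem.1 hg
      exact hmem.2 ⟨K, hK, (hc hK).1.conj_mem g hgK k⟩
    · rintro ⟨s, hs, hsx⟩
      have key : ∀ T : Finset (Fin n), ∃ K ∈ c, ∀ i ∈ T, (x i)⁻¹ * s i ∈ K := by
        intro T
        induction T using Finset.induction_on with
        | empty => exact ⟨y, hy, by simp⟩
        | insert i T _ ih =>
          obtain ⟨K, hK, hKT⟩ := ih
          obtain ⟨K', hK', hiK'⟩ := hmem.1 (mem_inf.1 (hsx i)).1
          obtain ⟨K'', hK'', h1, h2⟩ := hdir K hK K' hK'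
          refine ⟨K'', hK'', fun j hj => ?_⟩
          rcases Finset.mem_insert.1 hj with rfl | hj
          · exact h2 hiK'
          · exact h1 (hKT j hj)
      obtain ⟨K, hK, hKs⟩ := key Finset.univ
      exact (hc hK).2.2 ⟨s, hs, fun i => mem_inf.2 ⟨hKs i (Finset.mem_univ i),
        (mem_inf.1 (hsx i)).2⟩⟩) N ⟨hN, le_rfl, hbad⟩
  obtain ⟨⟨hMn, hNM, hMbad⟩, hmax⟩ := hM
  have hMtop : M ≠ ⊤ := by
    rintro rfl
    exact hMbad htop
  refine hMbad (h M hMn hNM hMtop fun L hLn hML => ?_)
  by_contra hLbad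
  exact absurd (hmax (y := L) ⟨hLn, hNM.trans hML.le, hLbad⟩ hML.le) (not_le_of_gt hML)

/-- lifting `Good` through a layer -/
theorem good_layer (x : Fin n → G) (hx : closure (Set.range x) = ⊤) (hn : 2 ≤ n)
    (v : Fin n → G) (hv : normalClosure (Set.range v) = ⊤) {M L : Subgroup G} [M.Normal]
    [L.Normal] (hML : M ≤ L) (hlay : Layer x M L) (hL : Good x v L) : Good x v M := by
  obtain ⟨s, hs, hsL⟩ := hL
  have hst : normalClosure (Set.range s) = ⊤ := by rw [← hs.closure, hv]
  obtain ⟨s', hs', hsM⟩ := lift_layer x hx hn hML hlay s hst hsL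
  exact ⟨s', hs.trans hs', hsM⟩

end Zorn

section Free

variable {n : ℕ}

/-- exponent sum of the `k`-th generator, multiplicative form -/
def expHom (k : Fin n) : FreeGroup (Fin n) →* Multiplicative ℤ :=
  FreeGroup.lift (fun j => Multiplicative.ofAdd (if j = k then (1 : ℤ) else 0))

/-- exponent sum of the `k`-th generator -/
def ex (k : Fin n) (g : FreeGroup (Fin n)) : ℤ := Multiplicative.toAdd (expHom k g)

theorem ex_mul (k : Fin n) (g h : FreeGroup (Fin n)) : ex k (g * h) = ex k g + ex k h := by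
  unfold ex; rw [map_mul, toAdd_mul]

theorem ex_one (k : Fin n) : ex k (1 : FreeGroup (Fin n)) = 0 := by
  unfold ex; rw [map_one, toAdd_one]

theorem ex_inv (k : Fin n) (g : FreeGroup (Fin n)) : ex k g⁻¹ = - ex k g := by
  unfold ex; rw [map_inv, toAdd_inv]

theorem ex_zpow (k : Fin n) (g : FreeGroup (Fin n)) (z : ℤ) : ex k (g ^ z) = z * ex k g := by
  unfold ex; rw [map_zpow, toAdd_zpow, smul_eq_mul]

theorem ex_of (k j : Fin n) : ex k (FreeGroup.of j) = if j = k then 1 else 0 := by
  unfold ex expHom; rw [FreeGroup.lift_apply_of, toAdd_ofAdd]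

theorem mem_commutator_of_ex {g : FreeGroup (Fin n)} (h : ∀ k, ex k g = 0) :
    g ∈ commutator (FreeGroup (Fin n)) := by
  let φ : FreeGroup (Fin n) →* Abelianization (FreeGroup (Fin n)) :=
    ∏ k, (zpowersHom _ (Abelianization.of (FreeGroup.of k))).comp (expHom k)
  have hφ : ∀ g, φ g = ∏ k, (Abelianization.of (FreeGroup.of k)) ^ (ex k g) := by
    intro g
    simp only [φ, MonoidHom.finsetProd_apply, MonoidHom.comp_apply, zpowersHom_apply]
    rfl
  have heq : φ = Abelianization.of := by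
    ext j
    rw [hφ]
    rw [Finset.prod_eq_single j]
    · rw [ex_of, if_pos rfl, zpow_one]
    · intro k _ hk
      rw [ex_of, if_neg (fun h => hk h.symm), zpow_zero]
    · intro hj; exact absurd (Finset.mem_univ j) hj
  have h1 : Abelianization.of g = 1 := by
    rw [← heq, hφ]
    apply Finset.prod_eq_one
    intro k _
    rw [h k, zpow_zero]
  rw [← Abelianization.ker_of, MonoidHom.mem_ker]
  exact h1

theorem ex_comb {s : Fin n → FreeGroup (Fin n)} {g : FreeGroup (Fin n)}
    (hg : g ∈ normalClosure (Set.range s)) :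
    ∃ c : Fin n → ℤ, ∀ k, ex k g = ∑ i, c i * ex k (s i) := by
  unfold normalClosure at hg
  induction hg using closure_induction with
  | mem g hg =>
    obtain ⟨_, ⟨j, rfl⟩, hs⟩ := Group.mem_conjugatesOfSet_iff.1 hg
    obtain ⟨t, ht⟩ := isConj_iff.1 hs
    refine ⟨fun i => if i = j then 1 else 0, fun k => ?_⟩
    rw [← ht, ex_mul, ex_mul, ex_inv, Finset.sum_eq_single j]
    · simp only [if_true, one_mul]; ring
    · intro i _ hi; simp only [if_neg hi, zero_mul]
    · intro hj; exact absurd (Finset.mem_univ j) hj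
  | one => exact ⟨fun _ => 0, fun k => by simp [ex_one]⟩
  | mul a b _ _ ha hb =>
    obtain ⟨c, hc⟩ := ha
    obtain ⟨d, hd⟩ := hb
    refine ⟨fun i => c i + d i, fun k => ?_⟩
    rw [ex_mul, hc, hd, ← Finset.sum_add_distrib]
    exact Finset.sum_congr rfl fun i _ => by ring
  | inv a _ ha =>
    obtain ⟨c, hc⟩ := ha
    refine ⟨fun i => - c i, fun k => ?_⟩
    rw [ex_inv, hc, ← Finset.sum_neg_distrib]
    exact Finset.sum_congr rfl fun i _ => by ring

theorem reduce_col (s : Fin n → FreeGroup (Fin n)) (hs : normalClosure (Set.range s) = ⊤)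
    (m : Fin n) (h : ∀ k, k < m → ∀ i, ex k (s i) = if i = k then 1 else 0) :
    ∃ s', AC s s' ∧ ∀ k, k ≤ m → ∀ i, ex k (s' i) = if i = k then 1 else 0 := by
  classical
  let T : Set (Fin n → FreeGroup (Fin n)) :=
    {s' | AC s s' ∧ ∀ k, k < m → ∀ i, ex k (s' i) = if i = k then 1 else 0}
  let f : (Fin n → FreeGroup (Fin n)) → ℕ :=
    fun s' => ∑ i, if m ≤ i then (ex m (s' i)).natAbs else 0
  obtain ⟨w, ⟨hw, hwk⟩, hmin⟩ := (measure f).wf.has_min T ⟨s, ac_refl s, h⟩
  -- for indices `≥ m` the columns `< m` vanish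
  have hz : ∀ i, m ≤ i → ∀ k, k < m → ex k (w i) = 0 := by
    intro i hi k hk
    rw [hwk k hk, if_neg]
    rintro rfl
    exact absurd hk (not_lt_of_ge hi)
  -- claim 1
  have hstep : ∀ i j, i ≠ j → m ≤ i → m ≤ j → ex m (w j) ≠ 0 →
      (ex m (w j)).natAbs ≤ (ex m (w i)).natAbs → False := by
    intro i j hij hi hj hj0 hle
    obtain ⟨z, hz1, hz2⟩ : ∃ z : ℤ, (z = 1 ∨ z = -1) ∧
        (ex m (w i) + z * ex m (w j)).natAbs < (ex m (w i)).natAbs := by
      rcases lt_or_gt_of_ne hj0 with h1 | h1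
      · rcases le_or_gt 0 (ex m (w i)) with h2 | h2
        · exact ⟨1, Or.inl rfl, by omega⟩
        · exact ⟨-1, Or.inr rfl, by omega⟩
      · rcases le_or_gt 0 (ex m (w i)) with h2 | h2
        · exact ⟨-1, Or.inr rfl, by omega⟩
        · exact ⟨1, Or.inl rfl, by omega⟩
    have hac : AC w (update w i (w i * (w j) ^ z)) :=
      ac_mul_oth w i (zpow_mem (mem_oth w hij.symm) z)
    have hT : update w i (w i * (w j) ^ z) ∈ T := by
      refine ⟨hw.trans hac, fun k hk l => ?_⟩
      by_cases hl : l = i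
      · subst hl
        rw [update_self, ex_mul, ex_zpow, hz j hj k hk, mul_zero, add_zero]
        exact hwk k hk l
      · rw [update_of_ne hl]; exact hwk k hk l
    apply hmin _ hT
    change f _ < f w
    refine Finset.sum_lt_sum (fun l _ => ?_) ⟨i, Finset.mem_univ i, ?_⟩
    · by_cases hl : l = i
      · subst hl
        rw [update_self, ex_mul, ex_zpow, if_pos hi, if_pos hi]
        exact hz2.le
      · rw [update_of_ne hl]
    · rw [update_self, ex_mul, ex_zpow, if_pos hi, if_pos hi]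
      exact hz2
  have huniq : ∀ i j, i ≠ j → m ≤ i → m ≤ j → ex m (w i) ≠ 0 → ex m (w j) = 0 := by
    intro i j hij hi hj hi0
    by_contra hj0
    rcases le_total (ex m (w j)).natAbs (ex m (w i)).natAbs with h1 | h1
    · exact hstep i j hij hi hj hj0 h1
    · exact hstep j i hij.symm hj hi hi0 h1
  -- claim 2
  have hwt : normalClosure (Set.range w) = ⊤ := by rw [← hw.closure, hs]
  obtain ⟨c, hc⟩ := ex_comb (s := w) (g := FreeGroup.of m) (by rw [hwt]; exact mem_top _)
  have hck : ∀ k, k < m → c k = 0 := by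
    intro k hk
    have h1 := hc k
    rw [ex_of, if_neg (fun h => absurd hk (by rw [h]; exact lt_irrefl _)),
      Finset.sum_eq_single k] at h1
    · rw [hwk k hk, if_pos rfl, mul_one] at h1; exact h1.symm
    · intro i _ hi; rw [hwk k hk, if_neg hi, mul_zero]
    · intro hj; exact absurd (Finset.mem_univ k) hj
  have hsum := hc m
  rw [ex_of, if_pos rfl] at hsum
  obtain ⟨i₀, hi₀, hi₀'⟩ : ∃ i₀, m ≤ i₀ ∧ ex m (w i₀) ≠ 0 := by
    by_contra hcon
    push Not at hcon
    rw [Finset.sum_eq_zero] at hsum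
    · exact one_ne_zero hsum
    · intro i _
      rcases lt_or_ge i m with h1 | h1
      · rw [hck i h1, zero_mul]
      · rw [hcon i h1, mul_zero]
  have hunit : ex m (w i₀) = 1 ∨ ex m (w i₀) = -1 := by
    rw [Finset.sum_eq_single i₀] at hsum
    · exact Int.eq_one_or_neg_one_of_mul_eq_one' hsum.symm |>.elim (fun h => Or.inl h.2)
        (fun h => Or.inr h.2)
    · intro i _ hi
      rcases lt_or_ge i m with h1 | h1
      · rw [hck i h1, zero_mul]
      · rw [huniq i₀ i hi.symm hi₀ h1 hi₀', mul_zero]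
    · intro hj; exact absurd (Finset.mem_univ i₀) hj
  -- move it to the `m`-th row
  obtain ⟨w1, hw1, hw1k, hw1m⟩ : ∃ w1, AC w w1 ∧
      (∀ k, k < m → ∀ i, ex k (w1 i) = if i = k then 1 else 0) ∧
      (ex m (w1 m) = 1 ∨ ex m (w1 m) = -1) := by
    by_cases him : i₀ = m
    · subst him
      exact ⟨w, ac_refl w, hwk, hunit⟩
    · refine ⟨update w m (w m * w i₀), ac_mul_oth w m (mem_oth w him), ?_, ?_⟩
      · intro k hk l
        by_cases hl : l = m
        · subst hl
          rw [update_self, ex_mul, hz i₀ hi₀ k hk, add_zero]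
          exact hwk k hk l
        · rw [update_of_ne hl]; exact hwk k hk l
      · rw [update_self, ex_mul, huniq i₀ m him hi₀ le_rfl hi₀', zero_add]
        exact hunit
  obtain ⟨w2, hw2, hw2k, hw2m⟩ : ∃ w2, AC w1 w2 ∧
      (∀ k, k < m → ∀ i, ex k (w2 i) = if i = k then 1 else 0) ∧ ex m (w2 m) = 1 := by
    rcases hw1m with h1 | h1
    · exact ⟨w1, ac_refl w1, hw1k, h1⟩
    · refine ⟨update w1 m (w1 m)⁻¹, (Move.inv w1 m).ac, ?_, ?_⟩
      · intro k hk l
        by_cases hl : l = m
        · subst hl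
          have h2 := hw1k k hk l
          have h3 : l ≠ k := fun h => absurd hk (by rw [h]; exact lt_irrefl _)
          rw [if_neg h3] at h2 ⊢
          rw [update_self, ex_inv, h2, neg_zero]
        · rw [update_of_ne hl]; exact hw1k k hk l
      · rw [update_self, ex_inv, h1, neg_neg]
  -- clear the column
  obtain ⟨z, hz', hzQ⟩ := fix_all
    (P := fun i g => (∀ k, k < m → ex k g = if i = k then 1 else 0) ∧ (i = m → g = w2 m))
    (Q := fun i g => ((∀ k, k < m → ex k g = if i = k then 1 else 0) ∧ (i = m → g = w2 m)) ∧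
      (i ≠ m → ex m g = 0)) (fun i g h => h.1) (by
      intro u hu i
      by_cases hi : i = m
      · refine ⟨u i, ⟨hu i, fun h => absurd hi h⟩, ?_⟩
        rw [update_eq_self]; exact ac_refl u
      · have hum : u m = w2 m := (hu m).2 rfl
        have hmm : ∀ k, k < m → ex k (u m) = 0 := by
          intro k hk
          rw [(hu m).1 k hk, if_neg (fun h => absurd hk (by rw [h]; exact lt_irrefl _))]
        refine ⟨u i * (u m) ^ (- ex m (u i)), ⟨⟨?_, fun h => absurd h hi⟩, ?_⟩,
          ac_mul_oth u i (zpow_mem (mem_oth u (fun h => hi h.symm)) _)⟩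
        · intro k hk
          rw [ex_mul, ex_zpow, hmm k hk, mul_zero, add_zero]
          exact (hu i).1 k hk
        · intro _
          rw [ex_mul, ex_zpow, hum, hw2m]; ring) w2
    (fun j => ⟨fun k hk => hw2k k hk j, fun h => by rw [h]⟩)
  refine ⟨z, ((hw.trans hw1).trans hw2).trans hz', ?_⟩
  intro k hk i
  rcases hk.lt_or_eq with h1 | h1
  · exact (hzQ i).1.1 k h1
  · subst h1
    by_cases hi : i = k
    · rw [if_pos hi, (hzQ i).1.2 hi]; exact hw2m
    · rw [if_neg hi]; exact (hzQ i).2 hi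

/-- Every normally generating tuple of the free group is Andrews-Curtis equivalent to one which
agrees with the basis modulo the commutator subgroup. -/
theorem good_top_free (v : Fin n → FreeGroup (Fin n)) (hv : normalClosure (Set.range v) = ⊤) :
    Good (FreeGroup.of : Fin n → FreeGroup (Fin n)) v ⊤ := by
  have key : ∀ m : ℕ, m ≤ n → ∃ s, AC v s ∧
      ∀ k : Fin n, k.val < m → ∀ i, ex k (s i) = if i = k then 1 else 0 := by
    intro m
    induction m with
    | zero => intro _; exact ⟨v, ac_refl v, fun k hk => absurd hk (Nat.not_lt_zero _)⟩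
    | succ m ih =>
      intro hm
      obtain ⟨s, hs, hsk⟩ := ih (by omega)
      obtain ⟨s', hs', hsk'⟩ := reduce_col s (by rw [← hs.closure, hv]) ⟨m, hm⟩
        (fun k hk => hsk k hk)
      exact ⟨s', hs.trans hs', fun k hk => hsk' k (Nat.lt_succ_iff.1 hk)⟩
  obtain ⟨s, hs, hsk⟩ := key n le_rfl
  refine ⟨s, hs, fun i => mem_inf.2 ⟨mem_top _, mem_commutator_of_ex fun k => ?_⟩⟩
  rw [ex_mul, ex_inv, ex_of, hsk k k.isLt i]
  ring

end Free

end Pool.Agent.ACQ
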